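import Mathlib

/-!
# Definitions for the Elementary Type Conjecture (MP_600e55_nt)

Part II: Steinberg forms of finite rank, field topologies given by a filter of neighbourhoods of 0.
-/

set_option autoImplicit false

namespace Pool.Agent.Helper59.EC

/-- The norm of `Σ β_k T^k` from `E[T]/(T^p - x)` to `E` (determinant of multiplication). -/
def nrm (p : ℕ) {E : Type*} [CommRing E] (x : E) (β : Fin p → E) : E :=
  Matrix.det (Matrix.of fun i j : Fin p => (if j ≤ i then 1 else x) * β (i - j))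

/-- A nondegenerate Steinberg form on a quotient `V` of the multiplicative group of `E`.
`φ 0` is junk. -/
structure SF (p : ℕ) (E V : Type) [Field E] [AddCommGroup V] [Module (ZMod p) V] where
  φ : E → V
  B : V →ₗ[ZMod p] V →ₗ[ZMod p] ZMod p
  φ_mul : ∀ x y, x ≠ 0 → y ≠ 0 → φ (x * y) = φ x + φ y
  surj : ∀ v, ∃ x, x ≠ 0 ∧ φ x = v
  nondeg : ∀ v, (∀ u, B v u = 0) → v = 0
  steinberg : ∀ x, x ≠ 0 → x ≠ 1 → B (φ x) (φ (1 - x)) = 0

/-- A nondegenerate norm form. -/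
structure NF (p : ℕ) (E V : Type) [Field E] [AddCommGroup V] [Module (ZMod p) V]
    extends SF p E V where
  norm : ∀ (x : E) (β : Fin p → E), x ≠ 0 → nrm p x β ≠ 0 → B (φ x) (φ (nrm p x β)) = 0

/-- `a` is a nonzero element of the kernel of `φ`. -/
def SF.good {p : ℕ} {E V : Type} [Field E] [AddCommGroup V] [Module (ZMod p) V]
    (ω : SF p E V) (a : E) : Prop := a ≠ 0 ∧ ω.φ a = 0

/-- basic neighbourhoods of zero. -/
def SF.nbh {p : ℕ} {E V : Type} [Field E] [AddCommGroup V] [Module (ZMod p) V]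
    (ω : SF p E V) (Z : Finset E) : Set E := {y | ∀ z ∈ Z, ω.good (1 + z * y)}

/-- `S` is a finite set of representatives of all classes. -/
def SF.Reps {p : ℕ} {E V : Type} [Field E] [AddCommGroup V] [Module (ZMod p) V]
    (ω : SF p E V) (S : Finset E) : Prop := (∀ s ∈ S, s ≠ 0) ∧ ∀ v, ∃ s ∈ S, ω.φ s = v

/-- A Hausdorff non discrete ring topology on the field `E`, given by the filter `N` of
neighbourhoods of zero. -/
@[ext] structure FTop (E : Type) [Field E] where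
  N : Filter E
  zero_mem : ∀ U ∈ N, (0 : E) ∈ U
  sub : ∀ U ∈ N, ∃ W ∈ N, ∀ a ∈ W, ∀ b ∈ W, a - b ∈ U
  mul : ∀ U ∈ N, ∃ W ∈ N, ∀ a ∈ W, ∀ b ∈ W, a * b ∈ U
  smul : ∀ c : E, ∀ U ∈ N, ∃ W ∈ N, ∀ a ∈ W, c * a ∈ U
  sep : ∀ x : E, x ≠ 0 → ∃ U ∈ N, x ∉ U
  nd : ∀ U ∈ N, ∃ y ∈ U, y ≠ 0

namespace FTop
variable {E : Type} [Field E]

/-- the topology is a V-topology. -/
def IsV (τ : FTop E) : Prop := ∀ U ∈ τ.N, ∃ W ∈ τ.N, ∀ x y : E, x * y ∈ W → x ∈ U ∨ y ∈ U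

/-- bounded sets. -/
def Bdd (τ : FTop E) (S : Set E) : Prop := ∀ U ∈ τ.N, ∃ c : E, c ≠ 0 ∧ ∀ x ∈ S, c * x ∈ U

/-- topologically nilpotent elements. -/
def TN (τ : FTop E) (x : E) : Prop := ∀ U ∈ τ.N, ∃ n₀ : ℕ, ∀ n ≥ n₀, x ^ n ∈ U

/-- power bounded elements. -/
def PB (τ : FTop E) (x : E) : Prop := τ.Bdd (Set.range fun n : ℕ => x ^ n)

/-- `K₀` is an open subgroup. -/
def OpenSub (τ : FTop E) (K₀ : Subgroup Eˣ) : Prop :=
  ∃ U ∈ τ.N, ∀ u ∈ U, ∃ k ∈ K₀, (k : E) = 1 + u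

end FTop

/-- `O` has rank one. -/
def RankOne {E : Type} [Field E] (O : ValuationSubring E) : Prop :=
  O ≠ ⊤ ∧ ∀ x ∈ O.nonunits, ∀ y : E, y ≠ 0 → ∃ n : ℕ, x ^ n / y ∈ O

/-- the topology of a nontrivial valuation ring. -/
def valTop {E : Type} [Field E] (O : ValuationSubring E) (hO : O ≠ ⊤) : FTop E where
  N := 
    { sets := {U | ∃ c : E, c ≠ 0 ∧ ∀ x ∈ O, c * x ∈ U}
      univ_sets := ⟨1, one_ne_zero, fun _ _ => Set.mem_univ _⟩
      sets_of_superset := by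
        rintro U W ⟨c, hc, h⟩ hUW
        exact ⟨c, hc, fun x hx => hUW (h x hx)⟩
      inter_sets := by
        rintro U W ⟨c, hc, h⟩ ⟨d, hd, h'⟩
        rcases O.mem_or_inv_mem (c / d) with h1 | h1
        · refine ⟨c, hc, fun x hx => ⟨h x hx, ?_⟩⟩
          have : c * x = d * (c / d * x) := by field_simp
          rw [this]; exact h' _ (O.mul_mem _ _ h1 hx)
        · refine ⟨d, hd, fun x hx => ⟨?_, h' x hx⟩⟩
          have : d * x = c * ((c / d)⁻¹ * x) := by field_simp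
          rw [this]; exact h _ (O.mul_mem _ _ h1 hx) }
  zero_mem := by
    rintro U ⟨c, hc, h⟩
    simpa using h 0 O.zero_mem
  sub := by
    rintro U ⟨c, hc, h⟩
    refine ⟨{a | ∃ x ∈ O, a = c * x}, ⟨c, hc, fun x hx => ⟨x, hx, rfl⟩⟩, ?_⟩
    rintro _ ⟨x, hx, rfl⟩ _ ⟨y, hy, rfl⟩
    rw [← mul_sub]
    exact h _ (O.toSubring.sub_mem hx hy)
  mul := by
    rintro U ⟨c, hc, h⟩
    obtain ⟨d, hd, hdO, hdc⟩ : ∃ d : E, d ≠ 0 ∧ d ∈ O ∧ d / c ∈ O := by
      rcases O.mem_or_inv_mem c with h1 | h1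
      · exact ⟨c, hc, h1, by rw [div_self hc]; exact O.one_mem⟩
      · exact ⟨1, one_ne_zero, O.one_mem, by rwa [one_div]⟩
    refine ⟨{a | ∃ x ∈ O, a = d * x}, ⟨d, hd, fun x hx => ⟨x, hx, rfl⟩⟩, ?_⟩
    rintro _ ⟨x, hx, rfl⟩ _ ⟨y, hy, rfl⟩
    have : d * x * (d * y) = c * (d / c * x * (d * y)) := by field_simp
    rw [this]
    exact h _ (O.mul_mem _ _ (O.mul_mem _ _ hdc hx) (O.mul_mem _ _ hdO hy))
  smul := by
    rintro b U ⟨c, hc, h⟩
    by_cases hb : b = 0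
    · refine ⟨Set.univ, ⟨1, one_ne_zero, fun _ _ => Set.mem_univ _⟩, fun a _ => ?_⟩
      have := h 0 O.zero_mem
      simpa [hb] using this
    · refine ⟨{a | ∃ x ∈ O, a = (c / b) * x}, ⟨c / b, div_ne_zero hc hb, fun x hx => ⟨x, hx, rfl⟩⟩, ?_⟩
      rintro _ ⟨x, hx, rfl⟩
      have : b * (c / b * x) = c * x := by field_simp
      rw [this]; exact h x hx
  sep := by
    intro x hx
    obtain ⟨t, ht⟩ : ∃ t : E, t ∉ O := by
      by_contra hcon
      push Not at hcon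
      exact hO (le_antisymm (ValuationSubring.le_top _) fun t _ => hcon t)
    have ht0 : t ≠ 0 := by rintro rfl; exact ht O.zero_mem
    refine ⟨{a | ∃ y ∈ O, a = (x / t) * y}, ⟨x / t, div_ne_zero hx ht0, fun y hy => ⟨y, hy, rfl⟩⟩, ?_⟩
    rintro ⟨y, hy, hxy⟩
    apply ht
    have : t = y := by
      field_simp at hxy
      exact hxy
    rwa [this]
  nd := by
    rintro U ⟨c, hc, h⟩
    exact ⟨c, by simpa using h 1 O.one_mem, hc⟩

end Pool.Agent.Helper59.EC
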