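import Pool.Agent.Helper59.EC.Defs

/-!
# Block EC-A1: calculus of Steinberg forms

PROOFS. `φ_one`: `φ(1·1)`. `φ_inv`, `φ_div`, `φ_pow`: from `φ_mul`.
`B_neg_self`: for `x = 1` clear (`φ 1 = 0`); for `x ≠ 0,1`: `-x = (1-x)/(1-x⁻¹)`; `B(φ x, φ(1-x)) = 0` and
`B(φ x⁻¹, φ(1-x⁻¹)) = 0` hence `B(φ x, φ(1-x⁻¹)) = 0`.
`antisymm`: choose `x,y ≠ 0` with `φ x = u, φ y = v`. `B(φ(xy), φ(-(xy))) = 0`, `-(xy) = (-x)·y`, expand and use `B_neg_self`
for `x` and for `y` (`φ(-x) = φ(-1) + φ x`).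
`nondeg_right`: from `nondeg` and `antisymm`.
`key`: `A = a+b`, `x = a/A`, `1-x = b/A`, `x ≠ 0,1`: `B(φ a - φ A, φ b - φ A) = 0`, `φ a = 0`, so `B(φ A, φ b) = B(φ A, φ A)`;
`φ(-b) = φ(-1)+φ b`, and `B(φ A, φ(-1)+φ A) = B(φ A, φ(-A)) = 0`.
`exists_reps`: image of a choice function on the finite set `V`.
`good_*`: easy.

Proof: helper67.
-/

set_option autoImplicit false

namespace Pool.Agent.Helper59.EC

variable {p : ℕ} [Fact p.Prime] {E V : Type} [Field E] [AddCommGroup V] [Module (ZMod p) V]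

theorem SF.φ_one (ω : SF p E V) : ω.φ 1 = 0 := by
  have h := ω.φ_mul 1 1 one_ne_zero one_ne_zero
  rw [mul_one] at h
  exact left_eq_add.1 h

theorem SF.φ_inv (ω : SF p E V) {x : E} (hx : x ≠ 0) : ω.φ x⁻¹ = - ω.φ x := by
  have h := ω.φ_mul x⁻¹ x (inv_ne_zero hx) hx
  rw [inv_mul_cancel₀ hx, ω.φ_one] at h
  exact eq_neg_of_add_eq_zero_left h.symm

theorem SF.φ_div (ω : SF p E V) {x y : E} (hx : x ≠ 0) (hy : y ≠ 0) :
    ω.φ (x / y) = ω.φ x - ω.φ y := by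
  rw [div_eq_mul_inv, ω.φ_mul x y⁻¹ hx (inv_ne_zero hy), ω.φ_inv hy, sub_eq_add_neg]

theorem SF.φ_pow (ω : SF p E V) {x : E} (hx : x ≠ 0) (n : ℕ) : ω.φ (x ^ n) = n • ω.φ x := by
  induction n with
  | zero => rw [pow_zero, ω.φ_one, zero_smul]
  | succ n ih => rw [pow_succ, ω.φ_mul _ _ (pow_ne_zero n hx) hx, ih, succ_nsmul]

theorem SF.B_neg_self (ω : SF p E V) {x : E} (hx : x ≠ 0) : ω.B (ω.φ x) (ω.φ (-x)) = 0 := by
  by_cases hx1 : x = 1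
  · rw [hx1, ω.φ_one, map_zero, LinearMap.zero_apply]
  · have h1 : (1 : E) - x ≠ 0 := sub_ne_zero.2 (Ne.symm hx1)
    have hxi : x⁻¹ ≠ 0 := inv_ne_zero hx
    have hxi1 : x⁻¹ ≠ 1 := fun h => hx1 (inv_eq_one.1 h)
    have h2 : (1 : E) - x⁻¹ ≠ 0 := sub_ne_zero.2 (Ne.symm hxi1)
    have e : -x = (1 - x) / (1 - x⁻¹) := by
      rw [eq_div_iff h2]
      field_simp
      ring
    have s1 := ω.steinberg x hx hx1
    have s2 := ω.steinberg x⁻¹ hxi hxi1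
    rw [ω.φ_inv hx, map_neg, LinearMap.neg_apply, neg_eq_zero] at s2
    rw [e, ω.φ_div h1 h2, map_sub, s1, s2, sub_zero]

theorem SF.φ_neg (ω : SF p E V) {x : E} (hx : x ≠ 0) : ω.φ (-x) = ω.φ (-1) + ω.φ x := by
  rw [← ω.φ_mul _ _ (neg_ne_zero.2 one_ne_zero) hx, neg_one_mul]

theorem SF.antisymm (ω : SF p E V) (u v : V) : ω.B u v = - ω.B v u := by
  obtain ⟨x, hx, rfl⟩ := ω.surj u
  obtain ⟨y, hy, rfl⟩ := ω.surj v
  have h1 := ω.B_neg_self hx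
  have h2 := ω.B_neg_self hy
  have h3 := ω.B_neg_self (mul_ne_zero hx hy)
  rw [ω.φ_neg (mul_ne_zero hx hy), ω.φ_mul x y hx hy] at h3
  rw [ω.φ_neg hx] at h1
  rw [ω.φ_neg hy] at h2
  simp only [map_add, LinearMap.add_apply] at h1 h2 h3
  linear_combination h3 - h1 - h2

theorem SF.nondeg_right (ω : SF p E V) (v : V) (h : ∀ u, ω.B u v = 0) : v = 0 := by
  apply ω.nondeg
  intro u
  rw [ω.antisymm, h u, neg_zero]

theorem SF.key (ω : SF p E V) {a b : E} (ha : ω.good a) (hb : b ≠ 0) (hab : a + b ≠ 0) :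
    ω.B (ω.φ (a + b)) (ω.φ (-b)) = 0 := by
  obtain ⟨ha0, ha1⟩ := ha
  have hx : a / (a + b) ≠ 0 := div_ne_zero ha0 hab
  have hx1 : a / (a + b) ≠ 1 := by
    intro h
    rw [div_eq_one_iff_eq hab] at h
    exact hb (left_eq_add.1 h)
  have e : 1 - a / (a + b) = b / (a + b) := by
    field_simp
    ring
  have s := ω.steinberg _ hx hx1
  rw [e, ω.φ_div ha0 hab, ω.φ_div hb hab, ha1] at s
  have n := ω.B_neg_self hab
  rw [ω.φ_neg hab] at n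
  rw [ω.φ_neg hb]
  simp only [map_add, map_sub, LinearMap.sub_apply, LinearMap.add_apply, map_zero,
    LinearMap.zero_apply] at s n ⊢
  linear_combination n - s

theorem SF.exists_reps (ω : SF p E V) [Finite V] : ∃ S : Finset E, ω.Reps S := by
  classical
  haveI := Fintype.ofFinite V
  choose g hg0 hg using ω.surj
  refine ⟨Finset.univ.image g, ?_, ?_⟩
  · intro s hs
    obtain ⟨v, _, rfl⟩ := Finset.mem_image.1 hs
    exact hg0 v
  · intro v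
    exact ⟨g v, Finset.mem_image_of_mem _ (Finset.mem_univ v), hg v⟩

theorem SF.good_one (ω : SF p E V) : ω.good 1 := ⟨one_ne_zero, ω.φ_one⟩

theorem SF.good_mul (ω : SF p E V) {a b : E} (ha : ω.good a) (hb : ω.good b) : ω.good (a * b) :=
  ⟨mul_ne_zero ha.1 hb.1, by rw [ω.φ_mul _ _ ha.1 hb.1, ha.2, hb.2, add_zero]⟩

theorem SF.good_div (ω : SF p E V) {a b : E} (ha : ω.good a) (hb : ω.good b) : ω.good (a / b) :=
  ⟨div_ne_zero ha.1 hb.1, by rw [ω.φ_div ha.1 hb.1, ha.2, hb.2, sub_zero]⟩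

end Pool.Agent.Helper59.EC
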