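import Pool.Agent.Helper59.EC.A1

/-!
# Block EC-A2: addition

PROOF of `add_small`. `V` is nontrivial, `S` = representatives of all classes. `A := 1 + u₁ - u₂`.
(a) `A ≠ 0`: if `A = 0` then `u₂ = 1 + u₁` and `1 + (s⁻¹-1) u₂ = s⁻¹ (1 + (1-s) u₁)`, so `0 = -φ s + 0` for all `s ∈ S`; but `S` has
a representative of a nonzero class.
(b) for `s ∈ S`: if `s u₁ = u₂` then `A = 1 + (1-s) u₁` is good, done. Otherwise
`A = (1 + (1-s) u₁) + (s u₁ - u₂)` gives by `SF.key` `B(φ A, φ(u₂ - s u₁)) = 0`, and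
`A = (1 + (s⁻¹-1) u₂) + (u₁ - s⁻¹ u₂)` gives `B(φ A, φ(s⁻¹ u₂ - u₁)) = 0`; `u₂ - s u₁ = s (s⁻¹ u₂ - u₁)`, so `B(φ A, φ s) = 0`.
(c) `φ s` runs through `V`, so `φ A = 0` by `nondeg`.

PROOF of `mul_small`. `A := 1 + u y`. If `u = 0` or `y = 0` clear. `A ≠ 0`: if `u y = -1` then `1 - y/s = (1 + s u)/(s u)`, so
`φ s = -φ u` for all `s ∈ S`, impossible (V nontrivial). For `s ∈ S`: `A = (1 + s u) + u (y - s)`, `y ≠ s` (as `1 - y/s ≠ 0`),
`-(u (y-s)) = (u s)(1 - y/s)`; `SF.key`: `B(φ A, φ u + φ s) = 0` for all `s ∈ S`. With `φ s = 0`: `B(φ A, φ u) = 0`; so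
`B(φ A, φ s) = 0` for all `s`; `φ A = 0`.
-/

set_option autoImplicit false

namespace Pool.Agent.Helper59.EC

variable {p : ℕ} [Fact p.Prime] {E V : Type} [Field E] [AddCommGroup V] [Module (ZMod p) V]

theorem SF.add_small (ω : SF p E V) [Nontrivial V] {S : Finset E} (hS : ω.Reps S) {u₁ u₂ : E}
    (h₁ : ∀ s ∈ S, ω.good (1 + (1 - s) * u₁)) (h₂ : ∀ s ∈ S, ω.good (1 + (s⁻¹ - 1) * u₂)) :
    ω.good (1 + u₁ - u₂) := by
  have hs0 : ∀ s ∈ S, s ≠ 0 := hS.1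
  -- `A ≠ 0`
  have hA : 1 + u₁ - u₂ ≠ 0 := by
    intro h0
    obtain ⟨v, hv⟩ := exists_ne (0 : V)
    obtain ⟨s, hs, hsv⟩ := hS.2 v
    have hs' := hs0 s hs
    have e : 1 + (s⁻¹ - 1) * u₂ = s⁻¹ * (1 + (1 - s) * u₁) := by
      have hu : u₂ = 1 + u₁ := by linear_combination -h0
      rw [hu]
      field_simp
      ring
    have h2 := (h₂ s hs).2
    rw [e, ω.φ_mul _ _ (inv_ne_zero hs') (h₁ s hs).1, (h₁ s hs).2, add_zero, ω.φ_inv hs',
      neg_eq_zero] at h2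
    exact hv (hsv.symm.trans h2)
  by_cases hex : ∃ s ∈ S, s * u₁ = u₂
  · obtain ⟨s, hs, hsu⟩ := hex
    have := h₁ s hs
    have e : 1 + u₁ - u₂ = 1 + (1 - s) * u₁ := by rw [← hsu]; ring
    rw [e]
    exact this
  · push Not at hex
    refine ⟨hA, ω.nondeg _ fun v => ?_⟩
    obtain ⟨s, hs, rfl⟩ := hS.2 v
    have hs' := hs0 s hs
    have hb : s * u₁ - u₂ ≠ 0 := sub_ne_zero.2 (hex s hs)
    have k1 := ω.key (h₁ s hs) hb (by
      have : 1 + (1 - s) * u₁ + (s * u₁ - u₂) = 1 + u₁ - u₂ := by ring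
      rwa [this])
    have hb' : u₁ - s⁻¹ * u₂ ≠ 0 := by
      intro h
      apply hb
      have : s * u₁ - u₂ = s * (u₁ - s⁻¹ * u₂) := by field_simp
      rw [this, h, mul_zero]
    have k2 := ω.key (h₂ s hs) hb' (by
      have : 1 + (s⁻¹ - 1) * u₂ + (u₁ - s⁻¹ * u₂) = 1 + u₁ - u₂ := by ring
      rwa [this])
    have e1 : 1 + (1 - s) * u₁ + (s * u₁ - u₂) = 1 + u₁ - u₂ := by ring
    have e2 : 1 + (s⁻¹ - 1) * u₂ + (u₁ - s⁻¹ * u₂) = 1 + u₁ - u₂ := by ring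
    have e3 : -(s * u₁ - u₂) = s * (-(u₁ - s⁻¹ * u₂)) := by field_simp
    rw [e1, e3, ω.φ_mul _ _ hs' (neg_ne_zero.2 hb'), map_add] at k1
    rw [e2] at k2
    rw [k2, add_zero] at k1
    exact k1

theorem SF.mul_small (ω : SF p E V) [Nontrivial V] {S : Finset E} (hS : ω.Reps S) {u y : E}
    (h₁ : ∀ s ∈ S, ω.good (1 + s * u)) (h₂ : ∀ s ∈ S, ω.good (1 - y / s)) :
    ω.good (1 + u * y) := by
  have hs0 : ∀ s ∈ S, s ≠ 0 := hS.1
  by_cases hu : u = 0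
  · rw [hu, zero_mul, add_zero]
    exact ω.good_one
  have hA : 1 + u * y ≠ 0 := by
    intro h0
    obtain ⟨v, hv⟩ := exists_ne (0 : V)
    have key : ∀ s ∈ S, ω.φ s = -ω.φ u := by
      intro s hs
      have hs' := hs0 s hs
      have e : 1 - y / s = (1 + s * u) / (s * u) := by
        have hy : y = -(1 / u) := by
          field_simp
          linear_combination h0
        rw [hy]
        field_simp
        ring
      have h2 := (h₂ s hs).2
      rw [e, ω.φ_div (h₁ s hs).1 (mul_ne_zero hs' hu), (h₁ s hs).2, ω.φ_mul _ _ hs' hu] at h2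
      have : ω.φ s + ω.φ u = 0 := by
        rw [zero_sub, neg_eq_zero] at h2
        exact h2
      exact eq_neg_of_add_eq_zero_left this
    obtain ⟨s, hs, hsv⟩ := hS.2 v
    obtain ⟨t, ht, htv⟩ := hS.2 0
    apply hv
    rw [← hsv, key s hs, ← key t ht, htv]
  have hmain : ∀ s ∈ S, ω.B (ω.φ (1 + u * y)) (ω.φ u + ω.φ s) = 0 := by
    intro s hs
    have hs' := hs0 s hs
    have hys : y ≠ s := by
      intro h
      apply (h₂ s hs).1
      rw [h, div_self hs', sub_self]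
    have hb : u * (y - s) ≠ 0 := mul_ne_zero hu (sub_ne_zero.2 hys)
    have e1 : 1 + s * u + u * (y - s) = 1 + u * y := by ring
    have k := ω.key (h₁ s hs) hb (by rwa [e1])
    have e2 : -(u * (y - s)) = u * s * (1 - y / s) := by
      field_simp
      ring
    rw [e1, e2, ω.φ_mul _ _ (mul_ne_zero hu hs') (h₂ s hs).1, (h₂ s hs).2, add_zero,
      ω.φ_mul _ _ hu hs'] at k
    exact k
  refine ⟨hA, ω.nondeg _ fun v => ?_⟩
  obtain ⟨t, ht, htv⟩ := hS.2 0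
  have h0 := hmain t ht
  rw [htv, add_zero] at h0
  obtain ⟨s, hs, rfl⟩ := hS.2 v
  have := hmain s hs
  rw [map_add, h0, zero_add] at this
  exact this

end Pool.Agent.Helper59.EC
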