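import Pool.Agent.Helper59.EC.A1

/-!
# Block EC-A4: small elements exist (Hales-Jewett)

Proof: helper48.

PROOF. Mathlib: `Combinatorics.Line.exists_mono_in_high_dimension`. Alphabet `α := ↥(insert 0 (insert 1 Z))`, colours `Option V`.
Get `ι`. Choose `c : ι → E` such that all sums over nonempty subsets of `ι` are nonzero (`E` infinite: choose the `c i` one after the
other, avoiding finitely many values). Colour of `w : ι → α`: `s(w) = Σ c i * w i`; `none` if `s = 0`, else `some (φ s)`.
On a monochromatic line `s(z) = a + c z`, `c = Σ_{i active} c i ≠ 0`, `a` constant. The colour is not `none` (`s(0)=0` and `s(1)=0`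
give `c = 0`). So `a = s(0) ≠ 0` and `φ(a + c z) = φ a` for `z ∈ Z`; `y := c/a`: `1 + z y = (a + c z)/a`.

Also: on a finite field there are no Steinberg forms.
PROOF of `finite_field`. `Eˣ` is cyclic, generator `g`: `φ x, φ b` are multiples of `v = φ g`; so it is enough that `B v v = 0`.
`antisymm`: `2 B v v = 0`, done for `p` odd. `p = 2`, `B v v ≠ 0`: `V = {0, v}`; `B(v, φ(-g)) = 0` so `φ(-g) = 0`, so `φ(-1) = v`.
The good elements are closed under addition: `x,y` good, `A = x+y ≠ 0` (else `φ(-1) = 0`), Steinberg for `x/A`, `y/A`: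
`B(φ A, φ A) = 0` so `φ A ≠ v`, `φ A = 0`. As `1` is good all `n·1`, `n ≥ 1`, are good, hence nonzero, contradiction to finiteness.
-/

set_option autoImplicit false

namespace Pool.Agent.Helper59.EC

variable {p : ℕ} [Fact p.Prime] {E V : Type} [Field E] [AddCommGroup V] [Module (ZMod p) V]

omit [Fact p.Prime] in
private theorem exists_weights [Infinite E] {ι : Type} [DecidableEq ι] (s : Finset ι) :
    ∃ c : ι → E, ∀ t ⊆ s, t.Nonempty → ∑ i ∈ t, c i ≠ 0 := by
  classical
  induction s using Finset.induction_on with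
  | empty =>
    refine ⟨fun _ => 0, fun t ht hne => ?_⟩
    rw [Finset.subset_empty] at ht
    exact absurd ht hne.ne_empty
  | insert a s ha ih =>
    obtain ⟨c, hc⟩ := ih
    obtain ⟨v, hv⟩ := Infinite.exists_notMem_finset
      (s.powerset.image fun t => -∑ i ∈ t, c i)
    refine ⟨Function.update c a v, fun t ht hne => ?_⟩
    by_cases hat : a ∈ t
    · rw [← Finset.add_sum_erase _ _ hat]
      have h1 : ∑ i ∈ t.erase a, Function.update c a v i = ∑ i ∈ t.erase a, c i := by
        apply Finset.sum_congr rfl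
        intro i hi
        rw [Function.update_of_ne (Finset.ne_of_mem_erase hi)]
      rw [h1, Function.update_self]
      intro h0
      apply hv
      rw [Finset.mem_image]
      refine ⟨t.erase a, ?_, ?_⟩
      · rw [Finset.mem_powerset, ← Finset.subset_insert_iff]
        exact ht
      · exact (eq_neg_of_add_eq_zero_left h0).symm
    · have h1 : ∑ i ∈ t, Function.update c a v i = ∑ i ∈ t, c i := by
        apply Finset.sum_congr rfl
        intro i hi
        rw [Function.update_of_ne]
        rintro rfl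
        exact hat hi
      rw [h1]
      apply hc t _ hne
      exact (Finset.subset_insert_iff_of_notMem hat).1 ht

theorem SF.exists_small (ω : SF p E V) [Finite V] [Infinite E] (Z : Finset E) :
    ∃ y : E, y ≠ 0 ∧ y ∈ ω.nbh Z := by
  classical
  obtain ⟨Z', hZ'⟩ : ∃ Z' : Finset E, Z' = insert (0 : E) (insert 1 Z) := ⟨_, rfl⟩
  obtain ⟨ι, _, hι⟩ := Combinatorics.Line.exists_mono_in_high_dimension
    {x // x ∈ Z'} (Option V)
  obtain ⟨c, hc⟩ := exists_weights (E := E) (Finset.univ : Finset ι)
  set s : (ι → {x // x ∈ Z'}) → E := fun w => ∑ i, c i * (w i : E)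
    with hs
  obtain ⟨l, col, hl⟩ := hι (fun w => if s w = 0 then none else some (ω.φ (s w)))
  set A : Finset ι := Finset.univ.filter fun i => l.idxFun i = none with hA
  have hA0 : ∑ i ∈ A, c i ≠ 0 := by
    apply hc A (Finset.subset_univ _)
    obtain ⟨i, hi⟩ := l.proper
    exact ⟨i, by simp [hA, hi]⟩
  set cc : E := ∑ i ∈ A, c i with hcc
  have z0 : (0 : E) ∈ Z' := by simp [hZ']
  have z1 : (1 : E) ∈ Z' := by simp [hZ']
  have hlin : ∀ z : {x // x ∈ Z'},
      s (l z) = s (l ⟨0, z0⟩) + cc * z := by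
    intro z
    have h1 : s (l z) - s (l ⟨0, z0⟩) = cc * z := by
      rw [hs, hcc, hA, Finset.sum_filter, Finset.sum_mul]
      simp only
      rw [← Finset.sum_sub_distrib]
      apply Finset.sum_congr rfl
      intro i _
      by_cases hi : l.idxFun i = none
      · rw [Combinatorics.Line.apply_none _ _ _ hi, Combinatorics.Line.apply_none _ _ _ hi,
          if_pos hi]
        ring
      · obtain ⟨b, hb⟩ := Option.ne_none_iff_exists'.1 hi
        rw [Combinatorics.Line.apply_some hb, Combinatorics.Line.apply_some hb,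
          if_neg hi]
        ring
    rw [← h1]; ring
  set a : E := s (l ⟨0, z0⟩) with ha
  have ha0 : a ≠ 0 := by
    intro h0
    have h1 := hl ⟨0, z0⟩
    have h2 := hl ⟨1, z1⟩
    simp only at h1 h2
    rw [if_pos (show s (l ⟨0, z0⟩) = 0 from h0)] at h1
    rw [← h1] at h2
    have h3 : s (l ⟨1, z1⟩) = 0 := by
      by_contra hne
      rw [if_neg hne] at h2
      exact Option.some_ne_none _ h2
    rw [hlin, h0] at h3
    apply hA0
    simpa using h3
  have hcol : col = some (ω.φ a) := by
    rw [← hl ⟨0, z0⟩]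
    simp only
    rw [if_neg (show s (l ⟨0, z0⟩) ≠ 0 from ha0)]
  refine ⟨cc / a, div_ne_zero hA0 ha0, ?_⟩
  intro z hz
  have hz' : z ∈ Z' := by simp [hZ', hz]
  have h1 := hl ⟨z, hz'⟩
  simp only at h1
  rw [hcol] at h1
  have hne : s (l ⟨z, hz'⟩) ≠ 0 := by
    intro h0
    rw [if_pos h0] at h1
    exact Option.some_ne_none _ h1.symm
  rw [if_neg hne] at h1
  have h2 : ω.φ (s (l ⟨z, hz'⟩)) = ω.φ a := Option.some_injective _ h1
  have h3 : 1 + z * (cc / a) = s (l ⟨z, hz'⟩) / a := by
    rw [hlin]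
    field_simp
  rw [h3]
  exact ⟨div_ne_zero hne ha0, by rw [ω.φ_div hne ha0, h2, sub_self]⟩

theorem SF.finite_field (ω : SF p E V) [Finite E] {x b : E} (hx : x ≠ 0) (hb : b ≠ 0) :
    ω.B (ω.φ x) (ω.φ b) = 0 := by
  classical
  obtain ⟨g, hg⟩ := IsCyclic.exists_generator (α := Eˣ)
  have hrep : ∀ y : E, y ≠ 0 → ∃ k : ℕ, ω.φ y = k • ω.φ (g : E) := by
    intro y hy
    obtain ⟨k, hk⟩ := (mem_powers_iff_mem_zpowers (x := g)).2 (hg (Units.mk0 y hy))
    refine ⟨k, ?_⟩
    have h1 : (y : E) = (g : E) ^ k := by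
      have := congrArg (fun u : Eˣ => (u : E)) hk
      simpa using this.symm
    rw [h1, ω.φ_pow g.ne_zero]
  set v : V := ω.φ (g : E) with hv
  suffices hvv : ω.B v v = 0 by
    obtain ⟨k, hk⟩ := hrep x hx
    obtain ⟨m, hm⟩ := hrep b hb
    rw [hk, hm]
    simp [hvv]
  by_contra hvv
  have h2 : (2 : ZMod p) * ω.B v v = 0 := by
    have := ω.antisymm v v
    linear_combination this
  have hp2 : (2 : ZMod p) = 0 := (mul_eq_zero.1 h2).resolve_right hvv
  -- elements orthogonal to `v`
  have horth : ∀ y : E, y ≠ 0 → ω.B v (ω.φ y) = 0 → ω.φ y = 0 := by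
    intro y hy h
    obtain ⟨k, hk⟩ := hrep y hy
    rw [hk] at h ⊢
    rw [map_nsmul, nsmul_eq_mul] at h
    have h3 : (k : ZMod p) = 0 := (mul_eq_zero.1 h).resolve_right hvv
    rw [← Nat.cast_smul_eq_nsmul (ZMod p), h3, zero_smul]
  have hneg : ω.φ (-(g : E)) = 0 :=
    horth _ (neg_ne_zero.2 g.ne_zero) (ω.B_neg_self g.ne_zero)
  have hm1 : ω.φ (-1) = -v := by
    have h3 : (-1 : E) = (-(g : E)) / g := by
      rw [neg_div, div_self g.ne_zero]
    rw [h3, ω.φ_div (neg_ne_zero.2 g.ne_zero) g.ne_zero, hneg, zero_sub]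
  have hv0 : v ≠ 0 := by
    intro h
    apply hvv
    rw [h]
    simp
  have hadd : ∀ x y : E, ω.good x → ω.good y → ω.good (x + y) := by
    intro x y hx hy
    have hny : ω.φ (-y) = -v := by
      have : -y = (-1) * y := by ring
      rw [this, ω.φ_mul _ _ (neg_ne_zero.2 one_ne_zero) hy.1, hm1, hy.2, add_zero]
    have hA : x + y ≠ 0 := by
      intro h
      have h3 : x = -y := eq_neg_of_add_eq_zero_left h
      have h4 := hx.2
      rw [h3, hny] at h4
      exact hv0 (neg_eq_zero.1 h4)
    refine ⟨hA, horth _ hA ?_⟩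
    have h3 := ω.key hx hy.1 hA
    rw [hny, map_neg, neg_eq_zero] at h3
    rw [ω.antisymm, h3, neg_zero]
  have hnat : ∀ n : ℕ, ω.good ((n + 1 : ℕ) : E) := by
    intro n
    induction n with
    | zero => simpa using ω.good_one
    | succ n ih =>
      have := hadd _ _ ih ω.good_one
      push_cast at this ⊢
      exact this
  have := Fintype.ofFinite E
  have h5 : (Fintype.card E : E) = 0 := FiniteField.cast_card_eq_zero E
  have h6 : 0 < Fintype.card E := Fintype.card_pos
  obtain ⟨n, hn⟩ := Nat.exists_eq_succ_of_ne_zero h6.ne'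
  apply (hnat n).1
  rw [← h5, hn]

end Pool.Agent.Helper59.EC
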