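import Pool.Agent.Helper59.EC.A2
import Pool.Agent.Helper59.EC.A4

/-!
# Block EC-A5: the topology of a Steinberg form
-/

set_option autoImplicit false

namespace Pool.Agent.Helper59.EC

variable {p : ℕ} [Fact p.Prime] {E V : Type} [Field E] [AddCommGroup V] [Module (ZMod p) V]

theorem SF.nbh_anti (ω : SF p E V) {Z Z' : Finset E} (h : Z ⊆ Z') : ω.nbh Z' ⊆ ω.nbh Z :=
  fun _ hy z hz => hy z (h hz)

/-- The filter of neighbourhoods of zero. -/
def SF.nf (ω : SF p E V) : Filter E where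
  sets := {U | ∃ Z : Finset E, ω.nbh Z ⊆ U}
  univ_sets := ⟨∅, Set.subset_univ _⟩
  sets_of_superset := by
    rintro U W ⟨Z, hZ⟩ h
    exact ⟨Z, hZ.trans h⟩
  inter_sets := by
    classical
    rintro U W ⟨Z, hZ⟩ ⟨Z', hZ'⟩
    exact ⟨Z ∪ Z', Set.subset_inter ((ω.nbh_anti Finset.subset_union_left).trans hZ)
      ((ω.nbh_anti Finset.subset_union_right).trans hZ')⟩

/-- **The field topology of a Steinberg form of finite rank.** -/
noncomputable def SF.top (ω : SF p E V) [Finite V] [Nontrivial V] [Infinite E] : FTop E where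
  N := ω.nf
  zero_mem := by
    rintro U ⟨Z, hZ⟩
    refine hZ fun z _ => ?_
    rw [mul_zero, add_zero]; exact ω.good_one
  sub := by
    classical
    rintro U ⟨Z, hZ⟩
    obtain ⟨S, hS⟩ := ω.exists_reps
    refine ⟨ω.nbh (Finset.image₂ (fun z s => z * (1 - s)) Z S ∪
      Finset.image₂ (fun z s => z * (s⁻¹ - 1)) Z S), ⟨_, subset_rfl⟩, fun a ha b hb => hZ fun z hz => ?_⟩
    have h := ω.add_small hS (u₁ := z * a) (u₂ := z * b) (fun s hs => ?_) (fun s hs => ?_)
    · have e : 1 + z * (a - b) = 1 + z * a - z * b := by ring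
      rw [e]; exact h
    · have := ha (z * (1 - s)) (Finset.mem_union_left _ (Finset.mem_image₂_of_mem hz hs))
      have e : 1 + (1 - s) * (z * a) = 1 + z * (1 - s) * a := by ring
      rw [e]; exact this
    · have := hb (z * (s⁻¹ - 1)) (Finset.mem_union_right _ (Finset.mem_image₂_of_mem hz hs))
      have e : 1 + (s⁻¹ - 1) * (z * b) = 1 + z * (s⁻¹ - 1) * b := by ring
      rw [e]; exact this
  mul := by
    classical
    rintro U ⟨Z, hZ⟩
    obtain ⟨S, hS⟩ := ω.exists_reps
    refine ⟨ω.nbh (Finset.image₂ (fun z s => z * s) Z S ∪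
      Finset.image (fun s => -s⁻¹) S), ⟨_, subset_rfl⟩, fun a ha b hb => hZ fun z hz => ?_⟩
    have h := ω.mul_small hS (u := z * a) (y := b) (fun s hs => ?_) (fun s hs => ?_)
    · have e : 1 + z * (a * b) = 1 + z * a * b := by ring
      rw [e]; exact h
    · have := ha (z * s) (Finset.mem_union_left _ (Finset.mem_image₂_of_mem hz hs))
      have e : 1 + s * (z * a) = 1 + z * s * a := by ring
      rw [e]; exact this
    · have := hb (-s⁻¹) (Finset.mem_union_right _ (Finset.mem_image_of_mem _ hs))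
      have e : 1 - b / s = 1 + -s⁻¹ * b := by rw [div_eq_mul_inv]; ring
      rw [e]; exact this
  smul := by
    classical
    rintro c U ⟨Z, hZ⟩
    refine ⟨ω.nbh (Z.image fun z => z * c), ⟨_, subset_rfl⟩, fun a ha => hZ fun z hz => ?_⟩
    have := ha (z * c) (Finset.mem_image_of_mem _ hz)
    rwa [mul_assoc] at this
  sep := by
    intro x hx
    obtain ⟨v, hv⟩ := exists_ne (0 : V)
    obtain ⟨c, hc, hcv⟩ := ω.surj v
    refine ⟨ω.nbh {(c - 1) / x}, ⟨_, subset_rfl⟩, fun h => hv ?_⟩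
    have := (h ((c - 1) / x) (Finset.mem_singleton_self _)).2
    rw [div_mul_cancel₀ _ hx, add_sub_cancel, hcv] at this
    exact this
  nd := by
    rintro U ⟨Z, hZ⟩
    obtain ⟨y, hy, hyZ⟩ := ω.exists_small Z
    exact ⟨y, hZ hyZ, hy⟩

theorem SF.mem_top (ω : SF p E V) [Finite V] [Nontrivial V] [Infinite E] (U : Set E) :
    U ∈ ω.top.N ↔ ∃ Z : Finset E, ω.nbh Z ⊆ U := Iff.rfl

theorem SF.nbh_mem_top (ω : SF p E V) [Finite V] [Nontrivial V] [Infinite E] (Z : Finset E) :
    ω.nbh Z ∈ ω.top.N := ⟨Z, subset_rfl⟩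

end Pool.Agent.Helper59.EC
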