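import Pool.Agent.Helper59.EC.Defs

/-!
# Block EC-B0: continuity of the norm polynomial
Proof: helper26

PROOF. General lemma: for `f : MvPolynomial ι E` (`ι` finite) and a point `a : ι → E`: for all `U ∈ τ.N` there is `W ∈ τ.N` with
`eval a' f - eval a f ∈ U` whenever all `a' i - a i ∈ W` (`MvPolynomial.induction_on`: constants `0 ∈ U`; sums with `τ.sub` (get `add`
from `sub` and `zero_mem`); products with a variable: `f' x' - f x = (f'-f)(x'-x) + (f'-f) x + f (x'-x)` with `mul`, `smul`). Then `nrm`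
is the evaluation of a polynomial (`RingHom.map_det`); or: prove the statement for the set of functions of `(x,β)` continuous at the
point directly: constants, coordinates, sums, products, hence `Matrix.det` (finite sum of signed products) of continuous entries.
-/

set_option autoImplicit false

namespace Pool.Agent.Helper59.EC

variable {E : Type} [Field E]

/-- `f` tends to `a` along the filter `T`, for the topology `τ`. -/
private def B0CA {P : Type} (τ : FTop E) (T : Filter P) (f : P → E) (a : E) : Prop :=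
  ∀ U ∈ τ.N, {p | f p - a ∈ U} ∈ T

private theorem B0add (τ : FTop E) (U : Set E) (hU : U ∈ τ.N) :
    ∃ W ∈ τ.N, ∀ a ∈ W, ∀ b ∈ W, a + b ∈ U := by
  obtain ⟨W1, hW1, h1⟩ := τ.sub U hU
  obtain ⟨W2, hW2, h2⟩ := τ.sub W1 hW1
  refine ⟨W1 ∩ W2, Filter.inter_mem hW1 hW2, fun a ha b hb => ?_⟩
  have h3 := h1 a ha.1 (0 - b) (h2 0 (τ.zero_mem W2 hW2) b hb.2)
  rwa [zero_sub, sub_neg_eq_add] at h3

private theorem B0CA.const {P : Type} {τ : FTop E} {T : Filter P} (a : E) :
    B0CA τ T (fun _ => a) a := by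
  intro U hU
  have : {p : P | a - a ∈ U} = Set.univ := by
    ext p
    simp only [sub_self, Set.mem_ofPred_eq, Set.mem_univ, iff_true]
    exact τ.zero_mem U hU
  rw [this]
  exact Filter.univ_mem

private theorem B0CA.add {P : Type} {τ : FTop E} {T : Filter P} {f g : P → E} {a b : E}
    (hf : B0CA τ T f a) (hg : B0CA τ T g b) : B0CA τ T (fun p => f p + g p) (a + b) := by
  intro U hU
  obtain ⟨W, hW, h⟩ := B0add τ U hU
  filter_upwards [hf W hW, hg W hW] with p h1 h2
  have := h _ h1 _ h2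
  have e : f p + g p - (a + b) = f p - a + (g p - b) := by ring
  rw [e]
  exact this

private theorem B0CA.mul {P : Type} {τ : FTop E} {T : Filter P} {f g : P → E} {a b : E}
    (hf : B0CA τ T f a) (hg : B0CA τ T g b) : B0CA τ T (fun p => f p * g p) (a * b) := by
  intro U hU
  obtain ⟨W, hW, h⟩ := B0add τ U hU
  obtain ⟨W', hW', h'⟩ := B0add τ W hW
  obtain ⟨W1, hW1, h1⟩ := τ.mul W' hW'
  obtain ⟨W2, hW2, h2⟩ := τ.smul b W' hW'
  obtain ⟨W3, hW3, h3⟩ := τ.smul a W hW
  filter_upwards [hf W1 hW1, hg W1 hW1, hf W2 hW2, hg W3 hW3] with p p1 p2 p3 p4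
  have e : f p * g p - a * b = ((f p - a) * (g p - b) + b * (f p - a)) + a * (g p - b) := by ring
  rw [e]
  exact h _ (h' _ (h1 _ p1 _ p2) _ (h2 _ p3)) _ (h3 _ p4)

private theorem B0CA.sum {P κ : Type} {τ : FTop E} {T : Filter P} (s : Finset κ) {f : κ → P → E}
    {a : κ → E} (hf : ∀ i ∈ s, B0CA τ T (f i) (a i)) :
    B0CA τ T (fun p => ∑ i ∈ s, f i p) (∑ i ∈ s, a i) := by
  classical
  induction s using Finset.induction_on with
  | empty => simpa using B0CA.const (τ := τ) (T := T) 0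
  | insert i s hi ih =>
    simp only [Finset.sum_insert hi]
    exact (hf i (Finset.mem_insert_self i s)).add
      (ih fun j hj => hf j (Finset.mem_insert_of_mem hj))

private theorem B0CA.prod {P κ : Type} {τ : FTop E} {T : Filter P} (s : Finset κ) {f : κ → P → E}
    {a : κ → E} (hf : ∀ i ∈ s, B0CA τ T (f i) (a i)) :
    B0CA τ T (fun p => ∏ i ∈ s, f i p) (∏ i ∈ s, a i) := by
  classical
  induction s using Finset.induction_on with
  | empty => simpa using B0CA.const (τ := τ) (T := T) 1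
  | insert i s hi ih =>
    simp only [Finset.prod_insert hi]
    exact (hf i (Finset.mem_insert_self i s)).mul
      (ih fun j hj => hf j (Finset.mem_insert_of_mem hj))

/-- the neighbourhoods of a point -/
private def B0T (τ : FTop E) (q : ℕ) (x : E) (β : Fin q → E) : Filter (E × (Fin q → E)) where
  sets := {S | ∃ W ∈ τ.N, ∀ (x' : E) (β' : Fin q → E), x' - x ∈ W → (∀ k, β' k - β k ∈ W) →
    (x', β') ∈ S}
  univ_sets := ⟨Set.univ, Filter.univ_mem, fun _ _ _ _ => Set.mem_univ _⟩
  sets_of_superset := by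
    rintro S S' ⟨W, hW, h⟩ hS
    exact ⟨W, hW, fun x' β' h1 h2 => hS (h x' β' h1 h2)⟩
  inter_sets := by
    rintro S S' ⟨W, hW, h⟩ ⟨W', hW', h'⟩
    exact ⟨W ∩ W', Filter.inter_mem hW hW', fun x' β' h1 h2 =>
      ⟨h x' β' h1.1 fun k => (h2 k).1, h' x' β' h1.2 fun k => (h2 k).2⟩⟩

theorem nrm_continuous (τ : FTop E) (q : ℕ) (x : E) (β : Fin q → E) (U : Set E) (hU : U ∈ τ.N) :
    ∃ W ∈ τ.N, ∀ (x' : E) (β' : Fin q → E), x' - x ∈ W → (∀ k, β' k - β k ∈ W) →
      nrm q x' β' - nrm q x β ∈ U := by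
  have hx : B0CA τ (B0T τ q x β) (fun p => p.1) x := fun U hU => ⟨U, hU, fun x' β' h1 _ => h1⟩
  have hβ : ∀ k, B0CA τ (B0T τ q x β) (fun p => p.2 k) (β k) := fun k U hU =>
    ⟨U, hU, fun x' β' _ h2 => h2 k⟩
  have hn : B0CA τ (B0T τ q x β) (fun p => nrm q p.1 p.2) (nrm q x β) := by
    unfold nrm
    simp only [Matrix.det_apply']
    refine B0CA.sum _ fun σ _ => ?_
    refine (B0CA.const _).mul (B0CA.prod _ fun i _ => ?_)
    simp only [Matrix.of_apply]
    refine B0CA.mul ?_ (hβ _)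
    split_ifs with h
    · exact B0CA.const 1
    · exact hx
  obtain ⟨W, hW, h⟩ := hn U hU
  exact ⟨W, hW, h⟩

end Pool.Agent.Helper59.EC
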