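import Pool.Agent.Helper59.EC.A5
import Pool.Agent.Helper39.ETC.Split

/-!
# Block EC-B1: splitting of a Steinberg form whose topology is not a V-topology

Proof: helper39 (the finite argument of helper37, `Pool/Agent/Helper39/ETC/Split.lean`).
-/

set_option autoImplicit false

namespace Pool.Agent.Helper59.EC

variable {p : ℕ} [Fact p.Prime] {E V : Type} [Field E] [AddCommGroup V] [Module (ZMod p) V]

theorem SF.isSymb (ω : SF p E V) : Pool.Agent.Helper39.ETC.IsSymb ω.φ ω.B where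
  mul := ω.φ_mul
  surj := ω.surj
  nondeg := ω.nondeg
  st := fun x hx hx1 => ω.steinberg x hx (fun h => hx1 (by rw [h, sub_self]))

theorem SF.split (ω : SF p E V) [Finite V] [Nontrivial V] [Infinite E] (hV : ¬ ω.top.IsV) :
    ∃ V₁ V₂ : Submodule (ZMod p) V, IsCompl V₁ V₂ ∧ V₁ ≠ ⊥ ∧ V₂ ≠ ⊥ ∧
      (∀ v₁ ∈ V₁, ∀ v₂ ∈ V₂, ω.B v₁ v₂ = 0) ∧
      ∀ Z : Finset E, ∃ c : E, c ≠ 0 ∧ ∀ z ∈ Z,
        (1 + z * c ≠ 0 ∧ ω.φ (1 + z * c) ∈ V₂) ∧ (1 + z / c ≠ 0 ∧ ω.φ (1 + z / c) ∈ V₁) := by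
  have hirr : ¬ Pool.Agent.Helper39.ETC.Irr p ω.φ := by
    intro hirr
    apply hV
    rintro U ⟨A, hA⟩
    obtain ⟨A', hA'⟩ := ω.isSymb.vtop hirr A
    refine ⟨ω.nbh A', ω.nbh_mem_top A', fun x y hxy => ?_⟩
    rcases hA' x y (fun a ha => hxy a ha) with h | h
    · exact Or.inl (hA (fun z hz => h z hz))
    · exact Or.inr (hA (fun z hz => h z hz))
  obtain ⟨V1, h1, h2, h3, h4⟩ := ω.isSymb.split hirr
  have hrefl : ∀ u v, ω.B u v = 0 → ω.B v u = 0 := by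
    intro u v huv
    rw [ω.isSymb.antisymm, huv, neg_zero]
  refine ⟨V1, LinearMap.BilinForm.orthogonal ω.B V1, h3, h1, ?_, ?_, ?_⟩
  · intro h0
    apply h2
    have := h3.sup_eq_top
    rw [h0, sup_bot_eq] at this
    exact this
  · intro v₁ hv₁ v₂ hv₂
    rw [LinearMap.BilinForm.mem_orthogonal_iff] at hv₂
    exact hv₂ v₁ hv₁
  · intro Z
    obtain ⟨c, hc, hcz⟩ := h4 Z
    refine ⟨c⁻¹, inv_ne_zero hc, fun z hz => ?_⟩
    obtain ⟨⟨a1, a2⟩, a3, a4⟩ := hcz z hz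
    rw [← div_eq_mul_inv, div_inv_eq_mul]
    exact ⟨⟨a3, a4⟩, a1, a2⟩

end Pool.Agent.Helper59.EC
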