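import Pool.Agent.Helper59.EC.A5
import Pool.Agent.Helper59.EC.B0

/-!
# Block EC-B2: the components of a split norm form are norm forms

PROOF. `π₁ : V → V₁`, `π₂ : V → V₂` the projections, `φ₁ = π₁ φ`, `φ₂ = π₂ φ`, `B₁` = restriction of `B`. `B u v = B (π₁u) (π₁v) + B (π₂u)(π₂v)` (orthogonality;
`B` is antisymmetric). Nondegeneracy of `B₁`: `v ∈ V₁` orthogonal to `V₁` is orthogonal to `V`.
`φ₁(1+z c) = 0`, `φ₂(1 + z/c) = 0` for all `z` in a prescribed finite set.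
Steinberg for `φ₁` (`x ≠ 0,1`): choose `c` for `Z = {1, x, 1/x, 0}`; `x' := (x+c)/(1+c)`, `1 - x' = (1-x)/(1+c)`; `x + c = x(1 + c/x) = c(1 + x/c)`.
`φ₂(x') = φ₂(c(1+x/c)) - φ₂(c(1+1/c)) = 0`; `φ₁(x') = φ₁ x`, `φ₁(1-x') = φ₁(1-x)`; Steinberg for `x'` gives `B₁(φ₁ x, φ₁(1-x)) = 0`.
So `ω₁ := ` the Steinberg form on `V₁` exists (`SF`); `V₁` is nontrivial, it has a topology `ω₁.top`, `N₁(Z) = ω₁.nbh Z`.
Norm: `x ≠ 0`, `b := nrm p x β ≠ 0`. By `nrm_continuous` for `ω₁.top` there is a finite `Z₀` such that `x'-x ∈ N₁(Z₀)`, `β'_k-β_k ∈ N₁(Z₀)` imply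
`nrm p x' β' - b ∈ N₁({1/b})`, so `nrm p x' β' ≠ 0` and `φ₁(nrm p x' β') = φ₁ b`. Take `x' := (x+c)/(1+c)`, `β'_0 := (β_0+c)/(1+c)`, `β'_k := β_k/(1+c)` for `k ≠ 0`;
`x'-x = c(1-x)/(1+c)`, `β'_0-β_0 = c(1-β_0)/(1+c)`, `β'_k-β_k = -cβ_k/(1+c)`, and for any `w, z`: `1 + z w c/(1+c) = (1 + (1 + z w) c)/(1+c)`, so everything is in `N₁(Z₀ ∪ {1/x})` if `c` is chosen for a large finite
set `Z`. `φ₂(x') = 0`, `φ₁(x') = φ₁ x`, `x' ≠ 0`. `ω.norm` for `x', β'` gives `B₁(φ₁ x, φ₁ b) = 0`.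
(In the proof below `β' = β`, which suffices.)

Proof: helper11.
-/

set_option autoImplicit false

namespace Pool.Agent.Helper59.EC

variable {p : ℕ} [Fact p.Prime] {E V : Type} [Field E] [AddCommGroup V] [Module (ZMod p) V]

/-- The shift `x' = (x + c) / (1 + c)` has class in `V₁`, equal to the `V₁`-component of the
class of `x`. -/
private theorem shift_aux (ω : SF p E V) {V₁ V₂ : Submodule (ZMod p) V} (hc : IsCompl V₁ V₂)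
    {x c : E} (hx : x ≠ 0) (hc0 : c ≠ 0)
    (h1 : (1 + 1 * c ≠ 0 ∧ ω.φ (1 + 1 * c) ∈ V₂) ∧ (1 + 1 / c ≠ 0 ∧ ω.φ (1 + 1 / c) ∈ V₁))
    (hx1 : (1 + x * c ≠ 0 ∧ ω.φ (1 + x * c) ∈ V₂) ∧ (1 + x / c ≠ 0 ∧ ω.φ (1 + x / c) ∈ V₁))
    (hx2 : (1 + x⁻¹ * c ≠ 0 ∧ ω.φ (1 + x⁻¹ * c) ∈ V₂) ∧
      (1 + x⁻¹ / c ≠ 0 ∧ ω.φ (1 + x⁻¹ / c) ∈ V₁)) :
    1 + c ≠ 0 ∧ ω.φ (1 + c) ∈ V₂ ∧ (x + c) / (1 + c) ≠ 0 ∧
      ω.φ ((x + c) / (1 + c)) = Submodule.projectionOnto V₁ V₂ hc (ω.φ x) := by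
  rw [one_mul] at h1
  obtain ⟨⟨h1c, h1m⟩, ⟨h1c', h1m'⟩⟩ := h1
  obtain ⟨-, ⟨hxc', hxm'⟩⟩ := hx1
  obtain ⟨⟨hxc, hxm⟩, -⟩ := hx2
  have e1 : x + c = x * (1 + x⁻¹ * c) := by field_simp
  have e2 : x + c = c * (1 + x / c) := by field_simp; ring
  have e3 : 1 + c = c * (1 + 1 / c) := by field_simp; ring
  have hxc0 : x + c ≠ 0 := by rw [e1]; exact mul_ne_zero hx hxc
  have hx' : (x + c) / (1 + c) ≠ 0 := div_ne_zero hxc0 h1c
  refine ⟨h1c, h1m, hx', ?_⟩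
  have f1 : ω.φ ((x + c) / (1 + c)) = ω.φ x + ω.φ (1 + x⁻¹ * c) - ω.φ (1 + c) := by
    rw [ω.φ_div hxc0 h1c, e1, ω.φ_mul x _ hx hxc]
  have f2 : ω.φ ((x + c) / (1 + c)) = ω.φ (1 + x / c) - ω.φ (1 + 1 / c) := by
    have f3 : ω.φ (1 + c) = ω.φ c + ω.φ (1 + 1 / c) := by
      rw [← ω.φ_mul c _ hc0 h1c', ← e3]
    rw [ω.φ_div hxc0 h1c, e2, ω.φ_mul c _ hc0 hxc', f3]
    abel
  have hmem : ω.φ ((x + c) / (1 + c)) ∈ V₁ := by
    rw [f2]; exact V₁.sub_mem hxm' h1m'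
  have hproj : Submodule.projectionOnto V₁ V₂ hc (ω.φ ((x + c) / (1 + c))) =
      Submodule.projectionOnto V₁ V₂ hc (ω.φ x) := by
    rw [f1, map_sub, map_add, (Submodule.projectionOnto_apply_eq_zero_iff hc).2 hxm,
      (Submodule.projectionOnto_apply_eq_zero_iff hc).2 h1m, add_zero, sub_zero]
  rw [← hproj, Submodule.projectionOnto_apply_of_mem_left hc hmem]

private theorem B_proj (ω : SF p E V) {V₁ V₂ : Submodule (ZMod p) V} (hc : IsCompl V₁ V₂)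
    (horth : ∀ v₁ ∈ V₁, ∀ v₂ ∈ V₂, ω.B v₁ v₂ = 0) (v : V₁) (u : V) :
    ω.B v u = ω.B v (Submodule.projectionOnto V₁ V₂ hc u) := by
  have hu : u - (Submodule.projectionOnto V₁ V₂ hc u : V) ∈ V₂ := by
    rw [← Submodule.projectionOnto_apply_eq_zero_iff hc, map_sub,
      Submodule.projectionOnto_apply_left, sub_self]
  have h := horth v v.2 _ hu
  rw [map_sub, sub_eq_zero] at h
  exact h

/-- The component in `V₁` as a Steinberg form. -/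
private noncomputable def compSF (ω : SF p E V) {V₁ V₂ : Submodule (ZMod p) V}
    (hc : IsCompl V₁ V₂) (horth : ∀ v₁ ∈ V₁, ∀ v₂ ∈ V₂, ω.B v₁ v₂ = 0)
    (hZ : ∀ Z : Finset E, ∃ c : E, c ≠ 0 ∧ ∀ z ∈ Z,
        (1 + z * c ≠ 0 ∧ ω.φ (1 + z * c) ∈ V₂) ∧ (1 + z / c ≠ 0 ∧ ω.φ (1 + z / c) ∈ V₁)) :
    SF p E V₁ where
  φ x := Submodule.projectionOnto V₁ V₂ hc (ω.φ x)
  B := ω.B.domRestrict₁₂ V₁ V₁
  φ_mul x y hx hy := by rw [ω.φ_mul x y hx hy, map_add]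
  surj v := by
    obtain ⟨x, hx, hxv⟩ := ω.surj (v : V)
    exact ⟨x, hx, by rw [hxv, Submodule.projectionOnto_apply_left]⟩
  nondeg v hv := by
    have h0 : (v : V) = 0 := by
      apply ω.nondeg
      intro u
      rw [B_proj ω hc horth v u]
      exact hv _
    exact Subtype.ext h0
  steinberg x hx hx1 := by
    classical
    obtain ⟨c, hc0, hcZ⟩ := hZ {1, x, x⁻¹}
    obtain ⟨h1c, h1m, hx', hφ⟩ := shift_aux ω hc hx hc0 (hcZ 1 (by simp)) (hcZ x (by simp))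
      (hcZ x⁻¹ (by simp))
    have e : 1 - (x + c) / (1 + c) = (1 - x) / (1 + c) := by
      field_simp
      ring
    have h1x : (1 : E) - x ≠ 0 := sub_ne_zero.2 (Ne.symm hx1)
    have hx'1 : (x + c) / (1 + c) ≠ 1 := by
      intro h
      rw [h, sub_self] at e
      exact div_ne_zero h1x h1c e.symm
    have s := ω.steinberg _ hx' hx'1
    rw [hφ, B_proj ω hc horth, e, ω.φ_div h1x h1c, map_sub,
      (Submodule.projectionOnto_apply_eq_zero_iff hc).2 h1m, sub_zero] at s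
    exact s

theorem NF.component (ω : NF p E V) [Finite V] [Infinite E] {V₁ V₂ : Submodule (ZMod p) V}
    (hc : IsCompl V₁ V₂) (h₁ : V₁ ≠ ⊥) (horth : ∀ v₁ ∈ V₁, ∀ v₂ ∈ V₂, ω.B v₁ v₂ = 0)
    (hZ : ∀ Z : Finset E, ∃ c : E, c ≠ 0 ∧ ∀ z ∈ Z,
        (1 + z * c ≠ 0 ∧ ω.φ (1 + z * c) ∈ V₂) ∧ (1 + z / c ≠ 0 ∧ ω.φ (1 + z / c) ∈ V₁)) :
    ∃ ω₁ : NF p E V₁, (∀ x, ω₁.φ x = Submodule.projectionOnto V₁ V₂ hc (ω.φ x)) ∧
      ∀ u v : V₁, ω₁.B u v = ω.B u v := by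
  classical
  have hnt : Nontrivial V₁ := (Submodule.nontrivial_iff_ne_bot).2 h₁
  set σ : SF p E V₁ := compSF ω.toSF hc horth hZ with hσ
  have hσφ : ∀ x, σ.φ x = Submodule.projectionOnto V₁ V₂ hc (ω.φ x) := fun x => rfl
  have hσB : ∀ u v : V₁, σ.B u v = ω.B u v := fun u v => rfl
  refine ⟨{ toSF := σ, norm := ?_ }, hσφ, hσB⟩
  intro x β hx hb
  set b : E := nrm p x β with hbdef
  have hU : σ.nbh {b⁻¹} ∈ σ.top.N := σ.nbh_mem_top _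
  obtain ⟨W, hW, hWc⟩ := nrm_continuous σ.top p x β _ hU
  obtain ⟨Z₀, hZ₀⟩ := (σ.mem_top W).1 hW
  obtain ⟨c, hc0, hcZ⟩ := hZ ({1, x, x⁻¹} ∪ Z₀.image fun z => 1 + z * (1 - x))
  obtain ⟨h1c, h1m, hx', hφ⟩ := shift_aux ω.toSF hc hx hc0 (hcZ 1 (by simp)) (hcZ x (by simp))
    (hcZ x⁻¹ (by simp))
  have g1 : σ.good (1 + c) :=
    ⟨h1c, by rw [hσφ]; exact (Submodule.projectionOnto_apply_eq_zero_iff hc).2 h1m⟩
  have hxW : (x + c) / (1 + c) - x ∈ W := by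
    refine hZ₀ fun z hz => ?_
    have h := (hcZ (1 + z * (1 - x))
      (Finset.mem_union_right _ (Finset.mem_image_of_mem _ hz))).1
    have g2 : σ.good (1 + (1 + z * (1 - x)) * c) :=
      ⟨h.1, by rw [hσφ]; exact (Submodule.projectionOnto_apply_eq_zero_iff hc).2 h.2⟩
    have e : 1 + z * ((x + c) / (1 + c) - x) = (1 + (1 + z * (1 - x)) * c) / (1 + c) := by
      field_simp
      ring
    rw [e]
    exact σ.good_div g2 g1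
  have hnb := hWc ((x + c) / (1 + c)) β hxW
    (fun k => by rw [sub_self]; exact σ.top.zero_mem W hW)
  have hg := hnb b⁻¹ (Finset.mem_singleton_self _)
  rw [← hbdef] at hg
  have e : nrm p ((x + c) / (1 + c)) β = b * (1 + b⁻¹ * (nrm p ((x + c) / (1 + c)) β - b)) := by
    field_simp
    ring
  have hb' : nrm p ((x + c) / (1 + c)) β ≠ 0 := by
    rw [e]; exact mul_ne_zero hb hg.1
  have hφb : σ.φ (nrm p ((x + c) / (1 + c)) β) = σ.φ b := by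
    rw [e, σ.φ_mul _ _ hb hg.1, hg.2, add_zero]
  have s := ω.norm _ β hx' hb'
  rw [hφ, B_proj ω.toSF hc horth] at s
  rw [hσφ, hσφ] at hφb
  rw [hφb] at s
  exact s

end Pool.Agent.Helper59.EC
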