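import Pool.Agent.Helper59.EC.B1
import Pool.Agent.Helper59.EC.B2

/-!
# Block EC-B3: localisation of norm forms  (Proof: helper16)

PROOF. Strong induction on `Nat.card V`. `V` is nontrivial by `h`. If `ω.top.IsV` take `ω`. Otherwise `SF.split` and `NF.component` for `(V₁,V₂)` and for `(V₂,V₁)`
(use `c⁻¹` instead of `c`; orthogonality by `antisymm`). `B(φ x, φ b) = B(π₁φ x, π₁ φ b) + B(π₂φ x, π₂φ b)`, so one of the two components does not vanish;
`Nat.card V_i < Nat.card V` since the other one is `≠ ⊥`.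
-/

set_option autoImplicit false

namespace Pool.Agent.Helper59.EC

variable {p : ℕ} [Fact p.Prime] {E V : Type} [Field E] [AddCommGroup V] [Module (ZMod p) V]

private theorem card_lt_of_compl {V : Type} [AddCommGroup V] [Module (ZMod p) V] [Finite V]
    {V₁ V₂ : Submodule (ZMod p) V} (hc : IsCompl V₁ V₂) (h₂ : V₂ ≠ ⊥) :
    Nat.card V₁ < Nat.card V := by
  have h : ∃ x, x ∉ V₁ := by
    by_contra hcon
    push Not at hcon
    apply h₂
    have htop : V₁ = ⊤ := eq_top_iff.2 fun x _ => hcon x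
    have := hc.disjoint.eq_bot
    rwa [htop, top_inf_eq] at this
  obtain ⟨x, hx⟩ := h
  exact Finite.card_subtype_lt (p := fun x => x ∈ V₁) hx

private theorem localise_aux [Infinite E] (x b : E) (n : ℕ) :
    ∀ (V : Type) [AddCommGroup V] [Module (ZMod p) V] [Finite V] (ω : NF p E V),
      Nat.card V ≤ n → ω.B (ω.φ x) (ω.φ b) ≠ 0 →
    ∃ (V' : Type) (_ : AddCommGroup V') (_ : Module (ZMod p) V') (_ : Finite V')
      (_ : Nontrivial V') (ω' : NF p E V'), ω'.top.IsV ∧ ω'.B (ω'.φ x) (ω'.φ b) ≠ 0 := by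
  induction n with
  | zero =>
    intro V _ _ _ ω hn h
    have := Nat.card_pos (α := V)
    omega
  | succ n ih =>
    intro V _ _ _ ω hn h
    have hnt : Nontrivial V := by
      refine ⟨ω.φ x, 0, fun h0 => h ?_⟩
      rw [h0, map_zero, LinearMap.zero_apply]
    by_cases hV : ω.top.IsV
    · exact ⟨V, _, _, inferInstance, hnt, ω, hV, h⟩
    obtain ⟨V₁, V₂, hc, h₁, h₂, horth, hZ⟩ := ω.toSF.split hV
    have horth' : ∀ v₂ ∈ V₂, ∀ v₁ ∈ V₁, ω.B v₂ v₁ = 0 := by
      intro v₂ hv₂ v₁ hv₁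
      rw [ω.toSF.antisymm, horth v₁ hv₁ v₂ hv₂, neg_zero]
    have hZ' : ∀ Z : Finset E, ∃ c : E, c ≠ 0 ∧ ∀ z ∈ Z,
        (1 + z * c ≠ 0 ∧ ω.φ (1 + z * c) ∈ V₁) ∧ (1 + z / c ≠ 0 ∧ ω.φ (1 + z / c) ∈ V₂) := by
      intro Z
      obtain ⟨c, hc0, hcZ⟩ := hZ Z
      refine ⟨c⁻¹, inv_ne_zero hc0, fun z hz => ?_⟩
      have := hcZ z hz
      rw [div_inv_eq_mul, ← div_eq_mul_inv]
      exact ⟨this.2, this.1⟩
    obtain ⟨ω₁, hφ₁, hB₁⟩ := ω.component hc h₁ horth hZ
    obtain ⟨ω₂, hφ₂, hB₂⟩ := ω.component hc.symm h₂ horth' hZ'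
    have hc1 := card_lt_of_compl hc h₂
    have hc2 := card_lt_of_compl hc.symm h₁
    by_cases hw1 : ω₁.B (ω₁.φ x) (ω₁.φ b) = 0
    · by_cases hw2 : ω₂.B (ω₂.φ x) (ω₂.φ b) = 0
      · exfalso
        apply h
        have hdec : ∀ v : V, v = (Submodule.projectionOnto V₁ V₂ hc v : V) +
            (Submodule.projectionOnto V₂ V₁ hc.symm v : V) := by
          intro v
          rw [Submodule.coe_projectionOnto_apply, Submodule.coe_projectionOnto_apply]
          exact (Submodule.projection_add_projection_eq_self hc v).symm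
        have key : ∀ u v : V, ω.B u v =
            ω.B (Submodule.projectionOnto V₁ V₂ hc u : V) (Submodule.projectionOnto V₁ V₂ hc v : V) +
            ω.B (Submodule.projectionOnto V₂ V₁ hc.symm u : V)
              (Submodule.projectionOnto V₂ V₁ hc.symm v : V) := by
          intro u v
          conv_lhs => rw [hdec u, hdec v]
          simp only [map_add, LinearMap.add_apply]
          rw [horth _ (Subtype.mem _) _ (Subtype.mem _), horth' _ (Subtype.mem _) _ (Subtype.mem _)]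
          ring
        rw [key, ← hB₁, ← hB₂, ← hφ₁, ← hφ₁, ← hφ₂, ← hφ₂, hw1, hw2, add_zero]
      · exact ih V₂ ω₂ (by omega) hw2
    · exact ih V₁ ω₁ (by omega) hw1

theorem NF.localise (ω : NF p E V) [Finite V] [Infinite E] (x b : E)
    (h : ω.B (ω.φ x) (ω.φ b) ≠ 0) :
    ∃ (V' : Type) (_ : AddCommGroup V') (_ : Module (ZMod p) V') (_ : Finite V')
      (_ : Nontrivial V') (ω' : NF p E V'), ω'.top.IsV ∧ ω'.B (ω'.φ x) (ω'.φ b) ≠ 0 :=
  localise_aux x b (Nat.card V) V ω le_rfl h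

end Pool.Agent.Helper59.EC
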