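import Pool.Agent.Helper59.EC.Defs

/-!
# Block EC-C1: elementary properties of field topologies and of bounded sets

PROOFS. `neg`, `add` from `sub`, `zero_mem`. `preimage_mul`: `smul` + superset. `infinite`: if `E` is finite, intersect the (finitely many) `U` of `sep`
for all `x ≠ 0`: contradiction to `nd`. `exists_ne`: `nd`. `Bdd.mul_mem`: choose `W₁` with `W₁·W₁ ⊆ U` (`mul`), `c ≠ 0` with `c S ⊆ W₁`, `W = {b | c⁻¹ b ∈ W₁}`; `a b = (c a)(c⁻¹ b)`.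
`bdd_iff`: `→` is `mul_mem` and `nd`... (`←`: given `W` with `S·W ⊆ U` take `c ∈ W`, `c ≠ 0`.)
`Bdd.add`, `Bdd.mul`, `Bdd.union`, `bdd_finite`, `image_mul` by `bdd_iff` (intersect the two `W`; for products `S·T·W`: apply `mul_mem` twice).
`not_bdd_univ`: `c·E ⊆ U` gives `U = E`, contradiction to `sep 1`.
-/

set_option autoImplicit false

namespace Pool.Agent.Helper59.EC
namespace FTop

variable {E : Type} [Field E] {τ : FTop E}

theorem neg {U : Set E} (hU : U ∈ τ.N) : ∃ W ∈ τ.N, ∀ a ∈ W, -a ∈ U := by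
  obtain ⟨W, hW, h⟩ := τ.sub U hU
  refine ⟨W, hW, fun a ha => ?_⟩
  have := h 0 (τ.zero_mem W hW) a ha
  rwa [zero_sub] at this

theorem add {U : Set E} (hU : U ∈ τ.N) : ∃ W ∈ τ.N, ∀ a ∈ W, ∀ b ∈ W, a + b ∈ U := by
  obtain ⟨W, hW, h⟩ := τ.sub U hU
  obtain ⟨W', hW', h'⟩ := neg hW
  refine ⟨W ∩ W', Filter.inter_mem hW hW', fun a ha b hb => ?_⟩
  have := h a ha.1 (-b) (h' b hb.2)
  rwa [sub_neg_eq_add] at this

theorem preimage_mul {U : Set E} (hU : U ∈ τ.N) (c : E) : {a | c * a ∈ U} ∈ τ.N := by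
  obtain ⟨W, hW, h⟩ := τ.smul c U hU
  exact Filter.mem_of_superset hW h

theorem infinite (τ : FTop E) : Infinite E := by
  classical
  by_contra hfin
  rw [not_infinite_iff_finite] at hfin
  choose! U hU hx using τ.sep
  have h1 : (⋂ x : E, (if x = 0 then Set.univ else U x)) ∈ τ.N := by
    rw [Filter.iInter_mem]
    intro x
    by_cases h : x = 0
    · rw [if_pos h]; exact Filter.univ_mem
    · rw [if_neg h]; exact hU x h
  obtain ⟨y, hy, hy0⟩ := τ.nd _ h1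
  have := Set.mem_iInter.1 hy y
  rw [if_neg hy0] at this
  exact hx y hy0 this

theorem Bdd.mul_mem {S : Set E} (h : τ.Bdd S) {U : Set E} (hU : U ∈ τ.N) :
    ∃ W ∈ τ.N, ∀ a ∈ S, ∀ b ∈ W, a * b ∈ U := by
  obtain ⟨W₁, hW₁, h1⟩ := τ.mul U hU
  obtain ⟨c, hc, h2⟩ := h W₁ hW₁
  refine ⟨{b | c⁻¹ * b ∈ W₁}, preimage_mul hW₁ _, fun a ha b hb => ?_⟩
  have := h1 _ (h2 a ha) _ hb
  have e : a * b = c * a * (c⁻¹ * b) := by field_simp
  rw [e]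
  exact this

theorem bdd_iff {S : Set E} : τ.Bdd S ↔ ∀ U ∈ τ.N, ∃ W ∈ τ.N, ∀ a ∈ S, ∀ b ∈ W, a * b ∈ U := by
  constructor
  · intro h U hU
    exact h.mul_mem hU
  · intro h U hU
    obtain ⟨W, hW, h1⟩ := h U hU
    obtain ⟨c, hc, hc0⟩ := τ.nd W hW
    refine ⟨c, hc0, fun x hx => ?_⟩
    rw [mul_comm]
    exact h1 x hx c hc

theorem Bdd.mono {S T : Set E} (h : τ.Bdd T) (hST : S ⊆ T) : τ.Bdd S := by
  intro U hU
  obtain ⟨c, hc, h1⟩ := h U hU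
  exact ⟨c, hc, fun x hx => h1 x (hST hx)⟩

theorem Bdd.image_mul {S : Set E} (h : τ.Bdd S) (c : E) : τ.Bdd ((fun x => c * x) '' S) := by
  rw [bdd_iff] at h ⊢
  intro U hU
  obtain ⟨W, hW, h1⟩ := h U hU
  refine ⟨{b | c * b ∈ W}, preimage_mul hW c, ?_⟩
  rintro _ ⟨x, hx, rfl⟩ b hb
  have e : c * x * b = x * (c * b) := by ring
  show c * x * b ∈ U
  rw [e]
  exact h1 x hx _ hb

theorem Bdd.add {S T : Set E} (h : τ.Bdd S) (h' : τ.Bdd T) :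
    τ.Bdd {x | ∃ a ∈ S, ∃ b ∈ T, x = a + b} := by
  rw [bdd_iff] at h h' ⊢
  intro U hU
  obtain ⟨W, hW, h0⟩ := FTop.add hU
  obtain ⟨W₁, hW₁, h1⟩ := h W hW
  obtain ⟨W₂, hW₂, h2⟩ := h' W hW
  refine ⟨W₁ ∩ W₂, Filter.inter_mem hW₁ hW₂, ?_⟩
  rintro _ ⟨a, ha, b, hb, rfl⟩ w hw
  rw [add_mul]
  exact h0 _ (h1 a ha w hw.1) _ (h2 b hb w hw.2)

theorem Bdd.mul {S T : Set E} (h : τ.Bdd S) (h' : τ.Bdd T) :
    τ.Bdd {x | ∃ a ∈ S, ∃ b ∈ T, x = a * b} := by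
  rw [bdd_iff] at h h' ⊢
  intro U hU
  obtain ⟨W₁, hW₁, h1⟩ := h U hU
  obtain ⟨W₂, hW₂, h2⟩ := h' W₁ hW₁
  refine ⟨W₂, hW₂, ?_⟩
  rintro _ ⟨a, ha, b, hb, rfl⟩ w hw
  rw [mul_assoc]
  exact h1 a ha _ (h2 b hb w hw)

theorem Bdd.union {S T : Set E} (h : τ.Bdd S) (h' : τ.Bdd T) : τ.Bdd (S ∪ T) := by
  rw [bdd_iff] at h h' ⊢
  intro U hU
  obtain ⟨W₁, hW₁, h1⟩ := h U hU
  obtain ⟨W₂, hW₂, h2⟩ := h' U hU
  refine ⟨W₁ ∩ W₂, Filter.inter_mem hW₁ hW₂, ?_⟩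
  rintro a (ha | ha) b hb
  · exact h1 a ha b hb.1
  · exact h2 a ha b hb.2

theorem bdd_finite {S : Set E} (h : S.Finite) : τ.Bdd S := by
  induction S, h using Set.Finite.induction_on with
  | empty => exact fun U _ => ⟨1, one_ne_zero, fun x hx => absurd hx (Set.notMem_empty x)⟩
  | @insert a S _ _ ih =>
    rw [Set.insert_eq]
    refine Bdd.union ?_ ih
    rw [bdd_iff]
    intro U hU
    refine ⟨{b | a * b ∈ U}, preimage_mul hU a, ?_⟩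
    intro x hx b hb
    rw [Set.mem_singleton_iff] at hx
    subst hx
    exact hb

theorem not_bdd_univ : ¬ τ.Bdd Set.univ := by
  intro h
  obtain ⟨U, hU, h1⟩ := τ.sep 1 one_ne_zero
  obtain ⟨c, hc, h2⟩ := h U hU
  apply h1
  have := h2 c⁻¹ (Set.mem_univ _)
  rwa [mul_inv_cancel₀ hc] at this

end FTop
end Pool.Agent.Helper59.EC
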