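import Pool.Agent.Helper59.EC.C2

/-!
# Block EC-C10: weak approximation for finitely many different V-topologies

Proof: helper73.  (Instead of the filter argument of the blueprint: for two different V-topologies
there is `x` small at the first and large at the second; `e = c x / (1 + c x)` is close to `1` resp.
to `0`, and with `c` chosen from a finite set with more elements than there are topologies `e`
stays in a fixed bounded set for *all* the topologies; products of such `e` give the idempotents.)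
-/

set_option autoImplicit false

namespace Pool.Agent.Helper59.EC
namespace FTop

variable {E : Type} [Field E] {τ : FTop E}

/-- two different V-topologies: there is an element small at the first one and large at the
second one. -/
theorem exists_small_large {σ τ : FTop E} (hσ : σ.IsV) (hτ : τ.IsV) (hne : σ ≠ τ)
    {U W : Set E} (hU : U ∈ σ.N) (hW : W ∈ τ.N) : ∃ x : E, x ≠ 0 ∧ x ∈ U ∧ x⁻¹ ∈ W := by
  by_contra hcon
  push Not at hcon
  apply hne
  have h1 : U ⊆ far W := by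
    intro x hx
    by_cases h0 : x = 0
    · exact Or.inl h0
    · exact Or.inr (hcon x h0 hx)
  have h2 : W ⊆ far U := by
    intro x hx
    by_cases h0 : x = 0
    · exact Or.inl h0
    · refine Or.inr fun h => ?_
      have := hcon x⁻¹ (inv_ne_zero h0) h
      rw [inv_inv] at this
      exact this hx
  have key : ∀ {α β : FTop E} {A B : Set E}, A ∈ α.N → β.Bdd (far B) → A ⊆ far B →
      ∀ V ∈ β.N, V ∈ α.N := by
    intro α β A B hA hB hAB V hV
    obtain ⟨c, hc, h⟩ := hB V hV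
    have := preimage_mul hA c⁻¹
    refine Filter.mem_of_superset this ?_
    intro a ha
    have h' := h (c⁻¹ * a) (hAB ha)
    rwa [mul_inv_cancel_left₀ hc] at h'
  have e : σ.N = τ.N := by
    ext V
    constructor
    · intro hV
      exact key hW (bdd_far hσ hU) h2 V hV
    · intro hV
      exact key hU (bdd_far hτ hW) h1 V hV
  exact FTop.ext e

/-- for finitely many V-topologies: one can multiply `x` by an element of a fixed finite set
such that `(1 + c x)⁻¹` stays in a fixed bounded set. -/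
theorem exists_norm_bdd {ι : Type} [Fintype ι] [Nonempty ι] (τ : ι → FTop E)
    (hV : ∀ i, (τ i).IsV) : ∃ C : Finset E, (∀ c ∈ C, c ≠ 0) ∧ ∃ B : ι → Set E,
      (∀ i, (τ i).Bdd (B i)) ∧ ∀ x : E, ∃ c ∈ C, 1 + c * x ≠ 0 ∧ ∀ i, (1 + c * x)⁻¹ ∈ B i := by
  classical
  obtain ⟨i₀⟩ := (inferInstance : Nonempty ι)
  haveI := (τ i₀).infinite
  have hinf : ({0}ᶜ : Set E).Infinite := Set.Finite.infinite_compl (Set.finite_singleton 0)
  obtain ⟨C, hC, hcard⟩ := hinf.exists_subset_card_eq (Fintype.card ι + 1)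
  have hC0 : ∀ c ∈ C, c ≠ 0 := fun c hc => by simpa using hC hc
  have hU : ∀ i, ∃ U ∈ (τ i).N, ∀ c ∈ C, ∀ c' ∈ C, c ≠ c' → ∀ u ∈ U, ∀ u' ∈ U,
      c' * u - c * u' ≠ c' - c := by
    intro i
    have h1 : ∀ q : E × E, ∃ U ∈ (τ i).N, q.1 ≠ q.2 → ∀ u ∈ U, ∀ u' ∈ U,
        q.2 * u - q.1 * u' ≠ q.2 - q.1 := by
      rintro ⟨c, c'⟩
      by_cases hcc : c = c'
      · exact ⟨Set.univ, Filter.univ_mem, fun h => absurd hcc h⟩
      · obtain ⟨U0, hU0, h0⟩ := (τ i).sep (c' - c) (sub_ne_zero.2 (Ne.symm hcc))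
        obtain ⟨W, hW, hsub⟩ := (τ i).sub U0 hU0
        refine ⟨{u | c' * u ∈ W} ∩ {u | c * u ∈ W},
          Filter.inter_mem (preimage_mul hW c') (preimage_mul hW c), ?_⟩
        intro _ u hu u' hu' he
        apply h0
        have := hsub _ hu.1 _ hu'.2
        simp only at he
        rwa [he] at this
    choose V hVmem hVprop using h1
    refine ⟨⋂ q ∈ C ×ˢ C, V q, (Filter.biInter_finset_mem (C ×ˢ C)).2 fun q _ => hVmem q, ?_⟩
    intro c hc c' hc' hcc u hu u' hu'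
    have hq : ((c, c') : E × E) ∈ C ×ˢ C := Finset.mk_mem_product hc hc'
    exact hVprop (c, c') hcc u (Set.mem_iInter₂.1 hu _ hq) u' (Set.mem_iInter₂.1 hu' _ hq)
  choose U hUmem hUprop using hU
  refine ⟨C, hC0, fun i => far (U i), fun i => bdd_far (hV i) (hUmem i), ?_⟩
  intro x
  have : ∃ c ∈ C, ∀ i, 1 + c * x ∉ U i := by
    by_contra hcon
    push Not at hcon
    choose! f hf using hcon
    obtain ⟨c, hc, c', hc', hcc, hff⟩ := Finset.exists_ne_map_eq_of_card_lt_of_maps_to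
      (s := C) (t := Finset.univ) (f := f) (by rw [hcard, Finset.card_univ]; omega)
      (fun a _ => by simp)
    have h1 := hf c hc
    have h2 := hf c' hc'
    rw [← hff] at h2
    refine hUprop (f c) c hc c' hc' hcc _ h1 _ h2 ?_
    ring
  obtain ⟨c, hc, h⟩ := this
  have hne : 1 + c * x ≠ 0 := by
    intro h0
    apply h i₀
    rw [h0]
    exact (τ i₀).zero_mem _ (hUmem i₀)
  refine ⟨c, hc, hne, fun i => Or.inr ?_⟩
  rw [inv_inv]
  exact h i

/-- approximate idempotents for a pair. -/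
theorem exists_idem_pair {ι : Type} [Fintype ι] (τ : ι → FTop E)
    (hV : ∀ i, (τ i).IsV) (i₀ k : ι) (hne : τ i₀ ≠ τ k) :
    ∃ B : ι → Set E, (∀ i, (τ i).Bdd (B i)) ∧ ∀ U : ι → Set E, (∀ i, U i ∈ (τ i).N) →
      ∃ e : E, (∀ i, e ∈ B i) ∧ e - 1 ∈ U i₀ ∧ e ∈ U k := by
  classical
  haveI : Nonempty ι := ⟨i₀⟩
  obtain ⟨C, hC0, B, hB, hx⟩ := exists_norm_bdd τ hV
  refine ⟨fun i => {x | ∃ a ∈ ({1} : Set E), ∃ b ∈ (fun x => (-1) * x) '' B i, x = a + b},
    fun i => Bdd.add (bdd_finite (Set.finite_singleton 1)) ((hB i).image_mul (-1)), ?_⟩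
  intro U hU
  obtain ⟨W1, hW1, h1⟩ := inv_one_add (hV i₀) (hU i₀)
  obtain ⟨U', hU', hneg⟩ := (τ k).neg (hU k)
  obtain ⟨W2, hW2, h2⟩ := inv_one_add (hV k) hU'
  have hA : (⋂ c ∈ C, {a : E | c⁻¹ * a ∈ W1}) ∈ (τ i₀).N :=
    (Filter.biInter_finset_mem C).2 fun c _ => preimage_mul hW1 _
  have hA2 : (⋂ c ∈ C, {a : E | c * a ∈ W2}) ∈ (τ k).N :=
    (Filter.biInter_finset_mem C).2 fun c _ => preimage_mul hW2 _
  obtain ⟨x, hx0, hxk, hx1⟩ := exists_small_large (hV k) (hV i₀) hne.symm hA2 hA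
  obtain ⟨c, hc, hcx, hcB⟩ := hx x
  have hc0 := hC0 c hc
  refine ⟨1 - (1 + c * x)⁻¹, fun i => ⟨1, rfl, _, ⟨_, hcB i, rfl⟩, by ring⟩, ?_, ?_⟩
  · have hw : c⁻¹ * x⁻¹ ∈ W1 := Set.mem_iInter₂.1 hx1 c hc
    obtain ⟨h3, h4⟩ := h1 _ hw
    have : 1 - (1 + c * x)⁻¹ - 1 = (1 + c⁻¹ * x⁻¹)⁻¹ - 1 := by
      have h5 : (1 + c⁻¹ * x⁻¹)⁻¹ = 1 - (1 + c * x)⁻¹ := by
        have h6 : 1 + c⁻¹ * x⁻¹ = (1 + c * x) / (c * x) := by
          field_simp
          ring
        rw [h6, inv_div]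
        field_simp
        ring
      rw [h5]
    rw [this]
    exact h4
  · have hw : c * x ∈ W2 := Set.mem_iInter₂.1 hxk c hc
    have := hneg _ (h2 _ hw).2
    rwa [neg_sub] at this

/-- approximate idempotents. -/
theorem exists_idem {ι : Type} [Fintype ι] (τ : ι → FTop E)
    (hV : ∀ i, (τ i).IsV) (i₀ : ι) (J : Finset ι) (hne : ∀ j ∈ J, τ i₀ ≠ τ j) :
    ∃ B : ι → Set E, (∀ i, (τ i).Bdd (B i)) ∧ ∀ U : ι → Set E, (∀ i, U i ∈ (τ i).N) →
      ∃ e : E, (∀ i, e ∈ B i) ∧ e - 1 ∈ U i₀ ∧ ∀ j ∈ J, e ∈ U j := by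
  classical
  induction J using Finset.induction_on with
  | empty =>
    refine ⟨fun _ => {1}, fun i => bdd_finite (Set.finite_singleton 1), fun U hU =>
      ⟨1, fun i => rfl, ?_, ?_⟩⟩
    · rw [sub_self]; exact (τ i₀).zero_mem _ (hU i₀)
    · intro j hj; simp at hj
  | insert k J hk ih =>
    obtain ⟨B, hB, hBe⟩ := ih fun j hj => hne j (Finset.mem_insert_of_mem hj)
    obtain ⟨B', hB', hBe'⟩ := exists_idem_pair τ hV i₀ k (hne k (Finset.mem_insert_self k J))
    refine ⟨fun i => {x | ∃ a ∈ B i, ∃ b ∈ B' i, x = a * b}, fun i => (hB i).mul (hB' i), ?_⟩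
    intro U hU
    have hS : ∀ i, ∃ W ∈ (τ i).N, (∀ a ∈ W, ∀ b ∈ W, a + b ∈ U i) ∧ W ⊆ U i := by
      intro i
      obtain ⟨W, hW, h⟩ := (τ i).add (hU i)
      exact ⟨W ∩ U i, Filter.inter_mem hW (hU i), fun a ha b hb => h a ha.1 b hb.1,
        Set.inter_subset_right⟩
    choose W hW hWadd hWU using hS
    have hM : ∀ i, ∃ V ∈ (τ i).N, (∀ a ∈ B i, ∀ b ∈ V, a * b ∈ W i) ∧
        (∀ a ∈ B' i, ∀ b ∈ V, a * b ∈ W i) ∧ V ⊆ W i := by
      intro i
      obtain ⟨V1, hV1, h1⟩ := (hB i).mul_mem (hW i)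
      obtain ⟨V2, hV2, h2⟩ := (hB' i).mul_mem (hW i)
      exact ⟨V1 ∩ V2 ∩ W i, Filter.inter_mem (Filter.inter_mem hV1 hV2) (hW i),
        fun a ha b hb => h1 a ha b hb.1.1, fun a ha b hb => h2 a ha b hb.1.2,
        Set.inter_subset_right⟩
    choose V hV' hVB hVB' hVW using hM
    obtain ⟨e, heB, he1, heJ⟩ := hBe V hV'
    obtain ⟨f, hfB, hf1, hfk⟩ := hBe' V hV'
    refine ⟨e * f, fun i => ⟨e, heB i, f, hfB i, rfl⟩, ?_, ?_⟩
    · have : e * f - 1 = f * (e - 1) + (f - 1) := by ring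
      rw [this]
      exact hWadd i₀ _ (hVB' i₀ f (hfB i₀) _ he1) _ (hVW i₀ hf1)
    · intro j hj
      rcases Finset.mem_insert.1 hj with rfl | hj
      · exact hWU _ (hVB _ e (heB _) _ hfk)
      · rw [mul_comm]
        exact hWU _ (hVB' _ f (hfB _) _ (heJ j hj))

theorem exists_sum_mem (τ : FTop E) {ι : Type} (s : Finset ι) {U : Set E} (hU : U ∈ τ.N) :
    ∃ W ∈ τ.N, ∀ g : ι → E, (∀ i ∈ s, g i ∈ W) → ∑ i ∈ s, g i ∈ U := by
  classical
  induction s using Finset.induction_on generalizing U with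
  | empty =>
    exact ⟨U, hU, fun g _ => by simpa using τ.zero_mem U hU⟩
  | insert k s hk ih =>
    obtain ⟨W1, hW1, h1⟩ := τ.add hU
    obtain ⟨W2, hW2, h2⟩ := ih hW1
    refine ⟨W1 ∩ W2, Filter.inter_mem hW1 hW2, fun g hg => ?_⟩
    rw [Finset.sum_insert hk]
    exact h1 _ (hg k (Finset.mem_insert_self k s)).1 _
      (h2 g fun i hi => (hg i (Finset.mem_insert_of_mem hi)).2)

theorem approx {ι : Type} [Finite ι] (τ : ι → FTop E) (hV : ∀ i, (τ i).IsV)
    (hinj : Function.Injective τ) (x : ι → E) (hx : ∀ i, x i ≠ 0) (U : ι → Set E)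
    (hU : ∀ i, U i ∈ (τ i).N) : ∃ y : E, y ≠ 0 ∧ ∀ i, y / x i - 1 ∈ U i := by
  classical
  haveI := Fintype.ofFinite ι
  rcases isEmpty_or_nonempty ι with he | hne
  · exact ⟨1, one_ne_zero, fun i => he.elim i⟩
  have h1 : ∀ i, ∃ W ∈ (τ i).N, (-1 : E) ∉ W := fun i => (τ i).sep (-1) (by simp)
  choose W0 hW0 hW0' using h1
  have h2 : ∀ i, ∃ W ∈ (τ i).N, ∀ g : ι → E, (∀ j ∈ Finset.univ, g j ∈ W) →
      ∑ j, g j ∈ U i ∩ W0 i := fun i =>
    exists_sum_mem (τ i) Finset.univ (Filter.inter_mem (hU i) (hW0 i))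
  choose W hW hWs using h2
  have h3 : ∀ i, ∃ V ∈ (τ i).N, (∀ j, ∀ a ∈ V, x j / x i * a ∈ W i) := by
    intro i
    refine ⟨⋂ j ∈ (Finset.univ : Finset ι), {a | x j / x i * a ∈ W i},
      (Filter.biInter_finset_mem _).2 fun j _ => preimage_mul (hW i) _, ?_⟩
    intro j a ha
    exact Set.mem_iInter₂.1 ha j (Finset.mem_univ j)
  choose V hVm hVp using h3
  have h4 : ∀ i, ∃ e : E, e - 1 ∈ V i ∧ ∀ j, j ≠ i → e ∈ V j := by
    intro i
    obtain ⟨B, hB, hBe⟩ := exists_idem τ hV i (Finset.univ.erase i) (fun j hj h =>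
      (Finset.mem_erase.1 hj).1 (hinj h).symm)
    obtain ⟨e, -, he1, heJ⟩ := hBe V hVm
    exact ⟨e, he1, fun j hj => heJ j (Finset.mem_erase.2 ⟨hj, Finset.mem_univ j⟩)⟩
  choose e he1 he2 using h4
  have key : ∀ i, (∑ j, x j * e j) / x i - 1 ∈ U i ∩ W0 i := by
    intro i
    have h5 := hWs i (fun j => if j = i then e i - 1 else x j / x i * e j) (by
      intro j _
      by_cases hj : j = i
      · simp only [hj, if_true]
        have := hVp i i _ (he1 i)
        rwa [div_self (hx i), one_mul] at this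
      · simp only [hj, if_false]
        exact hVp i j _ (he2 j i (Ne.symm hj)))
    have h6 : (∑ j, x j * e j) / x i - 1 =
        ∑ j, (if j = i then e i - 1 else x j / x i * e j) := by
      rw [← Finset.add_sum_erase _ _ (Finset.mem_univ i), ← Finset.add_sum_erase
        (Finset.univ : Finset ι) (fun j => if j = i then e i - 1 else x j / x i * e j)
        (Finset.mem_univ i)]
      have h7 : ∑ j ∈ Finset.univ.erase i, (if j = i then e i - 1 else x j / x i * e j) =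
          (∑ j ∈ Finset.univ.erase i, x j * e j) / x i := by
        rw [Finset.sum_div]
        refine Finset.sum_congr rfl fun j hj => ?_
        rw [if_neg (Finset.mem_erase.1 hj).1]
        ring
      rw [h7]
      simp only [if_true]
      have := hx i
      field_simp
      ring
    rw [h6]
    exact h5
  refine ⟨∑ j, x j * e j, ?_, fun i => (key i).1⟩
  intro h0
  obtain ⟨i⟩ := hne
  have := (key i).2
  rw [h0, zero_div, zero_sub] at this
  exact hW0' i this

end FTop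
end Pool.Agent.Helper59.EC
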