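import Pool.Agent.Helper59.EC.C1

/-!
# Block EC-C2: bounded sets in V-topologies

Proof: helper68.

PROOFS. `bdd_far`: given a neighbourhood `W`, apply `IsV` to `U ∩ W`: get `W'` with `x y ∈ W' → x ∈ U ∩ W ∨ y ∈ U ∩ W`; choose `c ∈ W'`, `c ≠ 0`; for `x ∈ far U`, `x ≠ 0`:
`(c x) · x⁻¹ = c ∈ W'`, `x⁻¹ ∉ U`, so `c x ∈ W`. (`x = 0`: `0 ∈ W`.)
`exists_ball`: `W` with `1 ∉ W·W` (`sep 1`, `mul`); `W ⊆ far W` (if `x, x⁻¹ ∈ W` then `1 ∈ W·W`), so `W` is bounded. `W·W` is bounded (`Bdd.mul`), so there is `c ≠ 0` with `c W W ⊆ W`;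
`U₁ := c W` satisfies `U₁U₁ ⊆ c(c W W) ⊆ c W = U₁`. `U := U₁ ∩ -U₁`... is not closed under products of mixed signs; instead take first `W` symmetric (`W ∩ -W`; then `c W` is symmetric as well).
`d`: `U + U` is bounded, `c₀(U+U) ⊆ U`, `d = c₀⁻¹`.
`inv_one_add`: choose `W₁` with `1 ∉ W₁ - W₁`, so `1 + u ∉ W₁` for `u` small (`-u ∈ W₁`..), i.e. `(1+u)⁻¹ ∈ far W₁`... precisely: `u ∈ W₂` (with `-u ∈ W₁`, and `1+u ∈ W₁` would give `1 ∈ W₁ - W₁`) implies `((1+u)⁻¹)⁻¹ ∉ W₁`, so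
`(1+u)⁻¹ ∈ far W₁` bounded, and `(1+u)⁻¹ - 1 = -u (1+u)⁻¹` is small by `Bdd.mul_mem`.
-/

set_option autoImplicit false

namespace Pool.Agent.Helper59.EC
namespace FTop

variable {E : Type} [Field E] {τ : FTop E}

/-- elements whose inverse is not in `U`. -/
def far (U : Set E) : Set E := {x | x = 0 ∨ x⁻¹ ∉ U}

theorem bdd_far (hV : τ.IsV) {U : Set E} (hU : U ∈ τ.N) : τ.Bdd (far U) := by
  intro W hW
  obtain ⟨W', hW', h⟩ := hV (U ∩ W) (Filter.inter_mem hU hW)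
  obtain ⟨c, hc, hc0⟩ := τ.nd W' hW'
  refine ⟨c, hc0, fun x hx => ?_⟩
  by_cases hx0 : x = 0
  · rw [hx0, mul_zero]
    exact τ.zero_mem W hW
  · have hx1 : x⁻¹ ∉ U := hx.resolve_left hx0
    rcases h (c * x) x⁻¹ (by rwa [mul_assoc, mul_inv_cancel₀ hx0, mul_one]) with h1 | h1
    · exact h1.2
    · exact absurd h1.1 hx1

/-- a good bounded neighbourhood: `U U ⊆ U = -U`, `U + U ⊆ d U`. -/
theorem exists_ball (hV : τ.IsV) : ∃ U ∈ τ.N, τ.Bdd U ∧ (∀ a ∈ U, ∀ b ∈ U, a * b ∈ U) ∧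
    (∀ a ∈ U, -a ∈ U) ∧ ∃ d : E, d ≠ 0 ∧ ∀ a ∈ U, ∀ b ∈ U, ∃ c ∈ U, a + b = d * c := by
  obtain ⟨U₁, hU₁, h1⟩ := τ.sep 1 one_ne_zero
  obtain ⟨W₁, hW₁, hW₁m⟩ := τ.mul U₁ hU₁
  set S : Set E := W₁ ∩ {a | (-1) * a ∈ W₁} with hS
  have hSN : S ∈ τ.N := Filter.inter_mem hW₁ (preimage_mul hW₁ (-1))
  have hSneg : ∀ a ∈ S, -a ∈ S := by
    rintro a ⟨ha1, ha2⟩
    refine ⟨by simpa using ha2, ?_⟩
    simpa using ha1
  have hSfar : S ⊆ far S := by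
    intro a ha
    by_cases ha0 : a = 0
    · exact Or.inl ha0
    · refine Or.inr fun hinv => h1 ?_
      have := hW₁m a ha.1 a⁻¹ hinv.1
      rwa [mul_inv_cancel₀ ha0] at this
  have hSb : τ.Bdd S := (bdd_far hV hSN).mono hSfar
  obtain ⟨c, hc0, hc⟩ := hSb.mul hSb S hSN
  have hc' : ∀ a ∈ S, ∀ b ∈ S, c * (a * b) ∈ S := fun a ha b hb => hc _ ⟨a, ha, b, hb, rfl⟩
  set U : Set E := {x | c⁻¹ * x ∈ S} with hU
  have hUN : U ∈ τ.N := preimage_mul hSN c⁻¹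
  have hUb : τ.Bdd U := by
    refine (hSb.image_mul c).mono ?_
    intro x hx
    exact ⟨c⁻¹ * x, hx, by simp [hc0]⟩
  refine ⟨U, hUN, hUb, ?_, ?_, ?_⟩
  · intro a ha b hb
    have := hc' _ ha _ hb
    have e : c⁻¹ * (a * b) = c * (c⁻¹ * a * (c⁻¹ * b)) := by field_simp
    rw [hU, Set.mem_ofPred_eq, e]
    exact this
  · intro a ha
    rw [hU, Set.mem_ofPred_eq, mul_neg]
    exact hSneg _ ha
  · obtain ⟨c₀, hc₀, h⟩ := hUb.add hUb U hUN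
    refine ⟨c₀⁻¹, inv_ne_zero hc₀, fun a ha b hb => ⟨c₀ * (a + b), h _ ⟨a, ha, b, hb, rfl⟩, ?_⟩⟩
    rw [← mul_assoc, inv_mul_cancel₀ hc₀, one_mul]

/-- inversion is continuous at 1. -/
theorem inv_one_add (hV : τ.IsV) {U : Set E} (hU : U ∈ τ.N) :
    ∃ W ∈ τ.N, ∀ u ∈ W, 1 + u ≠ 0 ∧ (1 + u)⁻¹ - 1 ∈ U := by
  obtain ⟨U₁, hU₁, h1⟩ := τ.sep 1 one_ne_zero
  obtain ⟨W₁, hW₁, hW₁s⟩ := τ.sub U₁ hU₁
  obtain ⟨W₃, hW₃, hW₃m⟩ := (bdd_far hV hW₁).mul_mem hU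
  refine ⟨W₁ ∩ {u | (-1) * u ∈ W₃}, Filter.inter_mem hW₁ (preimage_mul hW₃ (-1)), ?_⟩
  rintro u ⟨hu1, hu2⟩
  have hn : 1 + u ∉ W₁ := by
    intro h
    have := hW₁s _ h _ hu1
    rw [add_sub_cancel_right] at this
    exact h1 this
  have h0 : 1 + u ≠ 0 := by
    intro h
    exact hn (h ▸ τ.zero_mem W₁ hW₁)
  refine ⟨h0, ?_⟩
  have hfar : (1 + u)⁻¹ ∈ far W₁ := Or.inr (by rwa [inv_inv])
  have := hW₃m _ hfar _ hu2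
  have e : (1 + u)⁻¹ - 1 = (1 + u)⁻¹ * (-1 * u) := by
    field_simp
    ring
  rw [e]
  exact this

end FTop
end Pool.Agent.Helper59.EC
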