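import Pool.Agent.Helper59.EC.C2

/-!
# Block EC-C3: power bounded and topologically nilpotent elements
Proof: helper30.

PROOFS. Fix a ball `U` (`exists_ball`).
`tn_inv_of_not_pb`: `x ≠ 0` clear (powers of 0: finite set). Let `W ∈ N`. Choose `ε ≠ 0` with `ε U ⊆ W`... First: for every `ε ≠ 0` there is `n` with `x^n ∉ far {y | ε⁻¹ y ∈ U}` (as this set is bounded and the powers
are not), i.e. `x^{-n} ∈ ε U`. With `ε = 1`: `n₁ ≥ 1` with `y^{n₁} ∈ U`, `y = x⁻¹` (`n₁ = 0` possible only if `1 ∈ U`; then take `ε` with `1 ∉ ε U`, `εU ⊆ U`). So all powers `y^m` lie in the bounded set `D = ∪_{r<n₁} y^r U ∪ y^r`,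
by `UU ⊆ U`. Choose (`Bdd.mul_mem`) `W' ∈ N` with `D·W' ⊆ W`, and `ε` with `εU ⊆ W'`, `n'` with `y^{n'} ∈ εU`: for `m ≥ n'`, `y^m = y^{m-n'} y^{n'} ∈ D W' ⊆ W`.
`not_pb_of_tn_inv`: `1 = x^n · x^{-n}`, powers of `x` bounded, `x^{-n} → 0`: `1 ∈ U'` for all `U'`, contradiction to `sep 1`.
`PB.mul`: powers of `x y` lie in the product of bounded sets. `pb_of_mem_ball`: powers stay in `U`.
`bdd_pb`: ball `U`, all elements of `W := {x | t⁻¹ x ∈ U}` are topologically nilpotent (`(t u)^n ∈ t^n U`, `U` bounded, `t^n → 0`). `PB x → x ∈ far W` (else `x ≠ 0`, `x⁻¹ ∈ W`, contradiction to `not_pb_of_tn_inv`), `bdd_far`.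
`exp_small`: choose `W' ∈ N` with `S·W' ⊆ W`, ball `U`, `ε ≠ 0` with `εU ⊆ W'` and `n` with `s^n d ∈ U`. For `k` large `2^k - m ≥ n k` and `s^(2^k-m) d^k = s^(2^k-m-nk) (s^n d)^k`, first factor `→ 0` (`s` TN; exponent `→ ∞`), so it is in `{y | ε⁻¹ y ∈ U}`; second in `U`; product in `εUU ⊆ εU`.
-/

set_option autoImplicit false

namespace Pool.Agent.Helper59.EC
namespace FTop

variable {E : Type} [Field E] {τ : FTop E}

theorem tn_inv_of_not_pb (hV : τ.IsV) {x : E} (h : ¬ τ.PB x) : x ≠ 0 ∧ τ.TN x⁻¹ := by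
  have hx : x ≠ 0 := by
    rintro rfl
    apply h
    refine bdd_finite (Set.Finite.subset (Set.toFinite ({0, 1} : Set E)) ?_)
    rintro _ ⟨n, rfl⟩
    rcases Nat.eq_zero_or_pos n with rfl | hn
    · simp
    · simp [hn.ne']
  refine ⟨hx, ?_⟩
  have key : ∀ W ∈ τ.N, ∃ n : ℕ, x⁻¹ ^ n ∈ W := by
    intro W hW
    by_contra hcon
    push Not at hcon
    apply h
    refine Bdd.mono (bdd_far hV hW) ?_
    rintro _ ⟨n, rfl⟩
    right
    have := hcon n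
    rwa [inv_pow] at this
  obtain ⟨U, hU, hUb, hUU, -, -⟩ := exists_ball (τ := τ) hV
  obtain ⟨U', hU', h1⟩ := τ.sep 1 one_ne_zero
  obtain ⟨n₁, hn₁⟩ := key (U ∩ U') (Filter.inter_mem hU hU')
  have hn0 : n₁ ≠ 0 := by
    rintro rfl
    exact h1 (by simpa using hn₁.2)
  have hpow : ∀ q : ℕ, (x⁻¹ ^ n₁) ^ q ∈ U ∪ {1} := by
    intro q
    induction q with
    | zero => right; simp
    | succ q ih =>
      left
      rcases ih with ih | ih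
      · rw [pow_succ]; exact hUU _ ih _ hn₁.1
      · rw [pow_succ, Set.mem_singleton_iff.1 ih, one_mul]; exact hn₁.1
  have hpb : τ.PB x⁻¹ := by
    refine Bdd.mono (Bdd.mul (Bdd.union hUb (bdd_finite (Set.finite_singleton 1)))
      (bdd_finite (Set.Finite.image (fun r : ℕ => x⁻¹ ^ r) (Set.finite_Iio n₁)))) ?_
    rintro _ ⟨m, rfl⟩
    refine ⟨(x⁻¹ ^ n₁) ^ (m / n₁), hpow _, x⁻¹ ^ (m % n₁),
      ⟨m % n₁, Nat.mod_lt _ (Nat.pos_of_ne_zero hn0), rfl⟩, ?_⟩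
    rw [← pow_mul, ← pow_add]
    show x⁻¹ ^ m = _
    rw [Nat.div_add_mod]
  intro W hW
  obtain ⟨W', hW', hm⟩ := Bdd.mul_mem hpb hW
  obtain ⟨n', hn'⟩ := key W' hW'
  refine ⟨n', fun n hn => ?_⟩
  have := hm _ ⟨n - n', rfl⟩ _ hn'
  simp only at this
  rwa [← pow_add, Nat.sub_add_cancel hn] at this

theorem not_pb_of_tn_inv {x : E} (hx : x ≠ 0) (h : τ.TN x⁻¹) : ¬ τ.PB x := by
  intro hpb
  obtain ⟨U, hU, h1⟩ := τ.sep 1 one_ne_zero
  obtain ⟨W, hW, hm⟩ := Bdd.mul_mem hpb hU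
  obtain ⟨n₀, hn₀⟩ := h W hW
  have := hm _ ⟨n₀, rfl⟩ _ (hn₀ n₀ le_rfl)
  simp only at this
  rw [← mul_pow, mul_inv_cancel₀ hx, one_pow] at this
  exact h1 this

theorem PB.mul {x y : E} (hx : τ.PB x) (hy : τ.PB y) : τ.PB (x * y) := by
  refine Bdd.mono (Bdd.mul hx hy) ?_
  rintro _ ⟨n, rfl⟩
  exact ⟨x ^ n, ⟨n, rfl⟩, y ^ n, ⟨n, rfl⟩, mul_pow _ _ _⟩

theorem PB.neg {x : E} (hx : τ.PB x) : τ.PB (-x) := by
  have h1 : τ.PB (-1) := by
    refine bdd_finite (Set.Finite.subset (Set.toFinite ({1, -1} : Set E)) ?_)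
    rintro _ ⟨n, rfl⟩
    rcases neg_one_pow_eq_or E n with h | h <;> simp [h]
  have := PB.mul h1 hx
  rwa [neg_one_mul] at this

theorem TN.mul {x y : E} (hx : τ.TN x) (hy : τ.PB y) : τ.TN (x * y) := by
  intro U hU
  obtain ⟨W, hW, hm⟩ := Bdd.mul_mem hy hU
  obtain ⟨n₀, hn₀⟩ := hx W hW
  refine ⟨n₀, fun n hn => ?_⟩
  rw [mul_pow, mul_comm]
  exact hm _ ⟨n, rfl⟩ _ (hn₀ n hn)

private theorem pb_of_mem_ball {U : Set E} (hUb : τ.Bdd U) (hUU : ∀ a ∈ U, ∀ b ∈ U, a * b ∈ U)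
    {u : E} (hu : u ∈ U) : τ.PB u := by
  refine Bdd.mono (Bdd.union hUb (bdd_finite (Set.finite_singleton 1))) ?_
  rintro _ ⟨n, rfl⟩
  show u ^ n ∈ _
  induction n with
  | zero => right; simp
  | succ q ih =>
    left
    rcases ih with ih | ih
    · rw [pow_succ]; exact hUU _ ih _ hu
    · rw [pow_succ, Set.mem_singleton_iff.1 ih, one_mul]; exact hu

private theorem exists_tn_nbh (hV : τ.IsV) {t : E} (ht : t ≠ 0) (hn : τ.TN t) :
    ∃ W ∈ τ.N, ∀ x ∈ W, τ.TN x := by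
  obtain ⟨U, hU, hUb, hUU, -, -⟩ := exists_ball (τ := τ) hV
  refine ⟨{x | t⁻¹ * x ∈ U}, preimage_mul hU _, fun x hx => ?_⟩
  have := TN.mul hn (pb_of_mem_ball hUb hUU hx)
  rwa [mul_inv_cancel_left₀ ht] at this

/-- if there is a topologically nilpotent element, the power bounded elements are bounded. -/
theorem bdd_pb (hV : τ.IsV) {t : E} (ht : t ≠ 0) (hn : τ.TN t) : τ.Bdd {x | τ.PB x} := by
  obtain ⟨W, hW, hWt⟩ := exists_tn_nbh hV ht hn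
  refine Bdd.mono (bdd_far hV hW) ?_
  intro x hx
  by_cases hx0 : x = 0
  · exact Or.inl hx0
  · refine Or.inr fun hmem => ?_
    exact not_pb_of_tn_inv hx0 (hWt _ hmem) hx

/-- the topologically nilpotent elements form a neighbourhood of 0, if there is one `t ≠ 0`. -/
theorem tn_mem (hV : τ.IsV) {t : E} (ht : t ≠ 0) (hn : τ.TN t) : {x | τ.TN x} ∈ τ.N := by
  obtain ⟨W, hW, hWt⟩ := exists_tn_nbh hV ht hn
  exact Filter.mem_of_superset hW hWt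

private theorem exists_two_pow (a b : ℕ) : ∃ k₀ : ℕ, ∀ k ≥ k₀, a * k + b ≤ 2 ^ k := by
  have h1 : ∀ j : ℕ, j + 1 ≤ 2 ^ j := fun j => Nat.lt_two_pow_self
  have h2 : a * (4 * (a + b + 1)) + b ≤ 2 ^ (4 * (a + b + 1)) := by
    have h3 := h1 (a + b + 1)
    have h4 : (a + b + 2) ^ 4 ≤ (2 ^ (a + b + 1)) ^ 4 := Nat.pow_le_pow_left h3 4
    rw [← pow_mul, mul_comm (a + b + 1) 4] at h4
    refine le_trans ?_ h4
    have h5 : 4 ≤ (a + b + 2) ^ 2 := by nlinarith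
    have h6 : a * (a + b + 1) + b ≤ (a + b + 2) ^ 2 := by nlinarith
    calc a * (4 * (a + b + 1)) + b ≤ 4 * (a * (a + b + 1) + b) := by nlinarith
      _ ≤ (a + b + 2) ^ 2 * (a + b + 2) ^ 2 := Nat.mul_le_mul h5 h6
      _ = (a + b + 2) ^ 4 := by ring
  refine ⟨4 * (a + b + 1), fun k hk => ?_⟩
  induction k, hk using Nat.le_induction with
  | base => exact h2
  | succ k hk ih =>
    have h7 : a ≤ 2 ^ k := le_trans (by nlinarith) (h1 k)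
    calc a * (k + 1) + b = (a * k + b) + a := by ring
      _ ≤ 2 ^ k + 2 ^ k := Nat.add_le_add ih h7
      _ = 2 ^ (k + 1) := by ring

/-- exponential beats polynomial growth. -/
theorem exp_small (hV : τ.IsV) {s : E} (d : E) (hs : τ.TN s) {S : Set E} (hS : τ.Bdd S) (m : ℕ)
    {W : Set E} (hW : W ∈ τ.N) : ∃ k₀ : ℕ, ∀ k ≥ k₀, ∀ g ∈ S, s ^ (2 ^ k - m) * d ^ k * g ∈ W := by
  obtain ⟨W', hW', hm⟩ := Bdd.mul_mem hS hW
  obtain ⟨U, hU, hUb, hUU, -, -⟩ := exists_ball (τ := τ) hV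
  obtain ⟨W'', hW'', hm'⟩ := Bdd.mul_mem hUb hW'
  obtain ⟨n, hn⟩ := hs _ (preimage_mul hU d)
  obtain ⟨n₀, hn₀⟩ := hs _ hW''
  obtain ⟨k₀, hk₀⟩ := exists_two_pow n (n₀ + m)
  refine ⟨k₀ + 1, fun k hk g hg => ?_⟩
  have h1 := hk₀ k (by omega)
  have hpow : ∀ q : ℕ, (d * s ^ n) ^ (q + 1) ∈ U := by
    intro q
    induction q with
    | zero => simpa using hn n le_rfl
    | succ q ih => rw [pow_succ]; exact hUU _ ih _ (hn n le_rfl)
  have h2 : (d * s ^ n) ^ k ∈ U := by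
    obtain ⟨q, rfl⟩ : ∃ q, k = q + 1 := ⟨k - 1, by omega⟩
    exact hpow q
  have h3 : s ^ (2 ^ k - m - n * k) ∈ W'' := hn₀ _ (by omega)
  have h4 := hm _ hg _ (hm' _ h2 _ h3)
  have h5 : s ^ (2 ^ k - m) * d ^ k * g = g * ((d * s ^ n) ^ k * s ^ (2 ^ k - m - n * k)) := by
    have h6 : s ^ (2 ^ k - m) = (s ^ n) ^ k * s ^ (2 ^ k - m - n * k) := by
      rw [← pow_mul, ← pow_add]
      congr 1
      omega
    rw [h6, mul_pow]
    ring
  rw [h5]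
  exact h4

/-- sums of at most `2^k` elements of a ball `U`. -/
theorem sum_mem_ball {U : Set E} (h0 : (0 : E) ∈ U) {d : E} (hd : ∀ a ∈ U, ∀ b ∈ U, ∃ c ∈ U, a + b = d * c)
    (k : ℕ) (n : ℕ) (hn : n ≤ 2 ^ k) (f : ℕ → E) (hf : ∀ i < n, f i ∈ U) :
    ∃ c ∈ U, ∑ i ∈ Finset.range n, f i = d ^ k * c := by
  induction k generalizing n f with
  | zero =>
    have : n = 0 ∨ n = 1 := by simp at hn; omega
    rcases this with rfl | rfl
    · exact ⟨0, h0, by simp⟩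
    · exact ⟨f 0, hf 0 (by norm_num), by simp⟩
  | succ k ih =>
    rw [pow_succ] at hn
    obtain ⟨n₁, n₂, h1, h2, rfl⟩ : ∃ n₁ n₂ : ℕ, n₁ ≤ 2 ^ k ∧ n₂ ≤ 2 ^ k ∧ n = n₁ + n₂ :=
      ⟨min n (2 ^ k), n - min n (2 ^ k), min_le_right _ _, by omega, by omega⟩
    obtain ⟨c₁, hc₁, e₁⟩ := ih n₁ h1 f (fun i hi => hf i (by omega))
    obtain ⟨c₂, hc₂, e₂⟩ := ih n₂ h2 (fun i => f (n₁ + i)) (fun i hi => hf _ (by omega))
    obtain ⟨c, hc, e⟩ := hd c₁ hc₁ c₂ hc₂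
    refine ⟨c, hc, ?_⟩
    rw [Finset.sum_range_add, e₁, e₂, ← mul_add, e]
    ring

end FTop
end Pool.Agent.Helper59.EC
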