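import Pool.Agent.Helper59.EC.C3

/-!
# Block EC-C4: all elements power bounded: there is a bounded open subring

Proof: helper44.

PROOF. Ball `U` with `U U ⊆ U = -U`, `U + U ⊆ d U` (`exists_ball`), `0 ∈ U`. Powers of `d` are bounded: there is `c ≠ 0` with `c d^k ∈ U` for all `k`. By `sum_mem_ball` every finite
sum of elements of `U` lies in `d^k U = c⁻¹ (c d^k) U ⊆ c⁻¹ U`. So the additive subgroup `G` generated by `U` (`AddSubgroup.closure U`; its elements are finite sums of elements of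
`U` as `U = -U`) is contained in `c⁻¹ U`, hence bounded (`Bdd.image_mul`). `G G ⊆ G` as `U U ⊆ U`. `R := {x | ∀ g ∈ G, x g ∈ G}` is a subring (contains 1, closed under `+, -, *`),
`U ⊆ G ⊆ R` so it is open; choose `u ∈ U`, `u ≠ 0` (`τ.nd`): `R u ⊆ G` so `R ⊆ u⁻¹ G` is bounded.
-/

set_option autoImplicit false

namespace Pool.Agent.Helper59.EC
namespace FTop

variable {E : Type} [Field E] {τ : FTop E}

theorem exists_subring_of_pb (hV : τ.IsV) (h : ∀ x : E, τ.PB x) :
    ∃ R : Subring E, (R : Set E) ∈ τ.N ∧ τ.Bdd (R : Set E) := by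
  obtain ⟨U, hU, hUb, hUU, hneg, d, hd0, hd⟩ := exists_ball (τ := τ) hV
  have h0 : (0 : E) ∈ U := τ.zero_mem U hU
  obtain ⟨c, hc0, hc⟩ := h d U hU
  have hcd : ∀ k : ℕ, c * d ^ k ∈ U := fun k => hc _ ⟨k, rfl⟩
  have hstep : ∀ u ∈ U, ∃ v ∈ U, u = d * v := by
    intro u hu
    obtain ⟨v, hv, e⟩ := hd u hu 0 h0
    exact ⟨v, hv, by rw [← e, add_zero]⟩
  have hlift : ∀ (j k : ℕ), ∀ u ∈ U, ∃ v ∈ U, d ^ k * u = d ^ (k + j) * v := by
    intro j
    induction j with
    | zero => exact fun k u hu => ⟨u, hu, rfl⟩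
    | succ j ih =>
      intro k u hu
      obtain ⟨v, hv, e⟩ := ih k u hu
      obtain ⟨w, hw, e'⟩ := hstep v hv
      exact ⟨w, hw, by rw [e, e']; ring⟩
  set G : AddSubgroup E := AddSubgroup.closure U with hG
  have hUG : U ⊆ (G : Set E) := AddSubgroup.subset_closure
  have hGP : ∀ g ∈ G, ∃ k : ℕ, ∃ u ∈ U, g = d ^ k * u := by
    intro g hg
    induction hg using AddSubgroup.closure_induction with
    | mem x hx => exact ⟨0, x, hx, by simp⟩
    | zero => exact ⟨0, 0, h0, by simp⟩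
    | add x y _ _ hx hy =>
      obtain ⟨k, u, hu, rfl⟩ := hx
      obtain ⟨l, v, hv, rfl⟩ := hy
      obtain ⟨u', hu', e⟩ := hlift l k u hu
      obtain ⟨v', hv', e'⟩ := hlift k l v hv
      obtain ⟨w, hw, e''⟩ := hd u' hu' v' hv'
      exact ⟨k + l + 1, w, hw, by rw [e, e', add_comm l k, ← mul_add, e'']; ring⟩
    | neg x _ hx =>
      obtain ⟨k, u, hu, rfl⟩ := hx
      exact ⟨k, -u, hneg u hu, by ring⟩
  have hGc : ∀ g ∈ G, c * g ∈ U := by
    intro g hg
    obtain ⟨k, u, hu, rfl⟩ := hGP g hg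
    rw [← mul_assoc]
    exact hUU _ (hcd k) _ hu
  have hGb : τ.Bdd (G : Set E) := by
    refine (hUb.image_mul c⁻¹).mono ?_
    intro g hg
    exact ⟨c * g, hGc g hg, by simp [hc0]⟩
  have hUGG : ∀ u ∈ U, ∀ g ∈ G, u * g ∈ G := by
    intro u hu g hg
    induction hg using AddSubgroup.closure_induction with
    | mem x hx => exact hUG (hUU u hu x hx)
    | zero => rw [mul_zero]; exact G.zero_mem
    | add x y _ _ hx hy => rw [mul_add]; exact G.add_mem hx hy
    | neg x _ hx => rw [mul_neg]; exact G.neg_mem hx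
  let R : Subring E :=
    { carrier := {x | ∀ g ∈ G, x * g ∈ G}
      mul_mem' := fun {a b} ha hb g hg => by
        rw [mul_assoc]; exact ha _ (hb g hg)
      one_mem' := fun g hg => by rw [one_mul]; exact hg
      add_mem' := fun {a b} ha hb g hg => by
        rw [add_mul]; exact G.add_mem (ha g hg) (hb g hg)
      zero_mem' := fun g _ => by rw [zero_mul]; exact G.zero_mem
      neg_mem' := fun {a} ha g hg => by rw [neg_mul]; exact G.neg_mem (ha g hg) }
  have hR : ∀ x, x ∈ (R : Set E) ↔ ∀ g ∈ G, x * g ∈ G := fun x => Iff.rfl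
  refine ⟨R, Filter.mem_of_superset hU fun u hu => (hR u).2 (hUGG u hu), ?_⟩
  obtain ⟨u₀, hu₀, hu₀0⟩ := τ.nd U hU
  refine (hGb.image_mul u₀⁻¹).mono ?_
  intro x hx
  refine ⟨x * u₀, (hR x).1 hx u₀ (hUG hu₀), ?_⟩
  simp only
  field_simp

end FTop
end Pool.Agent.Helper59.EC
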