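import Pool.Agent.Helper59.EC.C3

/-!
# Block EC-C5: integers bounded and a topologically nilpotent element: rank one valuation ring

Proof: helper43.

PROOF. `O := {x | τ.PB x}`.
`TN → PB`: powers from `n₀` on lie in a ball (bounded), the others form a finite set.
Sum: let `x, y` be power bounded, `z = x + y` not. By `tn_inv_of_not_pb` `s := z⁻¹` is TN, `z ≠ 0`. `P = {PB}` is bounded (`bdd_pb`) and closed under products, `ℤ·P` is bounded (`Bdd.mul`), so
(ball `U`, `U + U ⊆ dU`) there is `g ≠ 0` with `ℤ·P ⊆ g U`. Binomial theorem with `n = 2^k - 1`: `z^n` is a sum of `2^k` elements of `gU`, so `z^n = d^k g c`, `c ∈ U` (`sum_mem_ball`, divide by `g`),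
`1 = s^n z^n = s^(2^k-1) d^k (g c)`. `exp_small` with `S = g U`, `W ∌ 1` (`sep`): contradiction.
So `O` is a subring (products: `PB.mul`, negatives `PB.neg`), and `x ∉ O → x⁻¹ ∈ O` by `tn_inv_of_not_pb`. `t⁻¹ ∉ O` by `not_pb_of_tn_inv`, so `O ≠ ⊤`.
Nonunits: `x ∈ O.nonunits` iff `x = 0` or `x⁻¹ ∉ O`; then `x` is TN. `x^n / y ∈ O` for `n` large since `{a | y⁻¹ a ∈ O} ∈ N`. `O ∈ N` by `tn_mem` (TN → PB). Bounded: `bdd_pb`.
-/

set_option autoImplicit false

namespace Pool.Agent.Helper59.EC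
namespace FTop

variable {E : Type} [Field E] {τ : FTop E}

theorem TN.pb (hV : τ.IsV) {x : E} (hx : τ.TN x) : τ.PB x := by
  obtain ⟨U, hU, hUb, -⟩ := exists_ball hV
  obtain ⟨n₀, hn₀⟩ := hx U hU
  have hfin : τ.Bdd ((fun n : ℕ => x ^ n) '' (Finset.range n₀ : Set ℕ)) :=
    bdd_finite ((Finset.finite_toSet _).image _)
  refine (hUb.union hfin).mono ?_
  rintro _ ⟨n, rfl⟩
  by_cases h : n₀ ≤ n
  · exact Or.inl (hn₀ n h)
  · right
    refine ⟨n, ?_, rfl⟩
    simpa using h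

private theorem pb_one : τ.PB (1 : E) := by
  refine (bdd_finite (Set.finite_singleton (1 : E))).mono ?_
  rintro _ ⟨n, rfl⟩
  simp

private theorem pb_zero : τ.PB (0 : E) := by
  refine (bdd_finite ((Set.finite_singleton (1 : E)).insert 0)).mono ?_
  rintro _ ⟨n, rfl⟩
  cases n with
  | zero => simp
  | succ n => simp

private theorem pb_pow {x : E} (hx : τ.PB x) (m : ℕ) : τ.PB (x ^ m) := by
  refine Bdd.mono hx ?_
  rintro _ ⟨n, rfl⟩
  exact ⟨m * n, pow_mul x m n⟩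

private theorem pb_add (hV : τ.IsV) {t : E} (ht : t ≠ 0) (hn : τ.TN t)
    (hZ : τ.Bdd (Set.range fun n : ℤ => (n : E))) {x y : E} (hx : τ.PB x) (hy : τ.PB y) :
    τ.PB (x + y) := by
  by_contra hz
  obtain ⟨hz0, hs⟩ := tn_inv_of_not_pb hV hz
  obtain ⟨U, hU, hUb, -, -, d, hd0, hd⟩ := exists_ball hV
  have hP := bdd_pb hV ht hn
  obtain ⟨c, hc0, hc⟩ := (hZ.mul hP) U hU
  have hS : τ.Bdd ((fun u => c⁻¹ * u) '' U) := hUb.image_mul c⁻¹
  obtain ⟨W, hW, h1W⟩ := τ.sep 1 one_ne_zero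
  obtain ⟨k, hk⟩ := exp_small hV d hs hS 1 hW
  have hk' := hk k le_rfl
  have hsum : ∑ i ∈ Finset.range (2 ^ k),
      c * (x ^ i * y ^ (2 ^ k - 1 - i) * ((2 ^ k - 1).choose i : E)) =
      c * (x + y) ^ (2 ^ k - 1) := by
    rw [add_pow, ← Finset.mul_sum, Nat.sub_add_cancel (Nat.one_le_two_pow)]
  obtain ⟨c', hc', hcc⟩ := sum_mem_ball (τ.zero_mem U hU) hd k (2 ^ k) le_rfl
    (fun i => c * (x ^ i * y ^ (2 ^ k - 1 - i) * ((2 ^ k - 1).choose i : E))) (fun i _ => by
      apply hc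
      refine ⟨(((2 ^ k - 1).choose i : ℤ) : E), ⟨_, rfl⟩, x ^ i * y ^ (2 ^ k - 1 - i),
        (pb_pow hx _).mul (pb_pow hy _), ?_⟩
      push_cast
      ring)
  rw [hsum] at hcc
  have h1 := hk' (c⁻¹ * c') ⟨c', hc', rfl⟩
  apply h1W
  have e : ((x + y)⁻¹) ^ (2 ^ k - 1) * d ^ k * (c⁻¹ * c') = 1 := by
    have e1 : d ^ k * (c⁻¹ * c') = (x + y) ^ (2 ^ k - 1) := by
      have : d ^ k * (c⁻¹ * c') = c⁻¹ * (d ^ k * c') := by ring
      rw [this, ← hcc, ← mul_assoc, inv_mul_cancel₀ hc0, one_mul]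
    rw [mul_assoc, e1, inv_pow, inv_mul_cancel₀ (pow_ne_zero _ hz0)]
  rwa [e] at h1

theorem exists_rankOne (hV : τ.IsV) {t : E} (ht : t ≠ 0) (hn : τ.TN t)
    (hZ : τ.Bdd (Set.range fun n : ℤ => (n : E))) :
    ∃ O : ValuationSubring E, (∀ x, x ∈ O ↔ τ.PB x) ∧ RankOne O ∧ (O : Set E) ∈ τ.N ∧
      τ.Bdd (O : Set E) := by
  let O : ValuationSubring E :=
    { carrier := {x | τ.PB x}
      mul_mem' := fun {x y} hx hy => PB.mul hx hy
      one_mem' := pb_one
      add_mem' := fun {x y} hx hy => pb_add hV ht hn hZ hx hy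
      zero_mem' := pb_zero
      neg_mem' := fun {x} hx => PB.neg hx
      mem_or_inv_mem' := fun x => by
        by_cases h : τ.PB x
        · exact Or.inl h
        · exact Or.inr ((tn_inv_of_not_pb hV h).2.pb hV) }
  have hmem : ∀ x, x ∈ O ↔ τ.PB x := fun x => Iff.rfl
  have hON : (O : Set E) ∈ τ.N :=
    Filter.mem_of_superset (tn_mem hV ht hn) fun x hx => TN.pb hV hx
  refine ⟨O, hmem, ⟨?_, ?_⟩, hON, (bdd_pb hV ht hn).mono fun x hx => hx⟩
  · intro htop
    have h1 : t⁻¹ ∈ O := by rw [htop]; exact ValuationSubring.mem_top _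
    exact not_pb_of_tn_inv (inv_ne_zero ht) (by rwa [inv_inv]) ((hmem _).1 h1)
  · intro x hx y hy
    have hTN : τ.TN x := by
      by_cases hx0 : x = 0
      · subst hx0
        intro U hU
        refine ⟨1, fun n hn => ?_⟩
        rw [zero_pow (by omega)]
        exact τ.zero_mem U hU
      · have h1 : ¬ τ.PB x⁻¹ := by
          intro h2
          rw [ValuationSubring.mem_nonunits_iff] at hx
          have h3 : O.valuation x⁻¹ ≤ 1 := (O.valuation_le_one_iff _).2 h2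
          have h4 : O.valuation x * O.valuation x⁻¹ = 1 := by
            rw [← map_mul, mul_inv_cancel₀ hx0, map_one]
          have h5 : O.valuation x * O.valuation x⁻¹ < 1 := by
            calc O.valuation x * O.valuation x⁻¹ ≤ O.valuation x * 1 := by gcongr
              _ = O.valuation x := mul_one _
              _ < 1 := hx
          exact absurd h4 h5.ne
        have h6 := (tn_inv_of_not_pb hV h1).2
        rwa [inv_inv] at h6
    obtain ⟨n, hn'⟩ := hTN _ (preimage_mul hON y⁻¹)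
    refine ⟨n, ?_⟩
    have h7 : y⁻¹ * x ^ n ∈ O := hn' n le_rfl
    rw [div_eq_mul_inv, mul_comm]
    exact h7

end FTop
end Pool.Agent.Helper59.EC
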