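import Pool.Agent.Helper59.EC.C3

/-!
# Block EC-C6: valuation rings and their topologies

Proof: helper17.

PROOFS.
`valTop_open`: `c = 1`. `valTop_bdd`: clear. `valTop_isV`: `U ⊇ c O`; `W := c² O`: if `x, y ∉ c O` then `c/x, c/y ∈ 𝔪` (nonunits of `O`), so `c²/(x y) ∈ 𝔪` and `x y ∉ c² O`.
`bdd_of_mem`: `O ∈ τ.N`, `O ≠ ⊤`: choose `c ∉ O`; for `x ∈ O`, `x ≠ 0`: `c x⁻¹ ∉ O`, so `c⁻¹ x ∈ far O`, which is bounded (`bdd_far`).
`eq_valTop`: `FTop.ext`, filter extensionality: `U ∈ τ.N` → (`O` bounded) `∃ c ≠ 0, c O ⊆ U`; conversely `c O ⊆ U` and `{a | c⁻¹ a ∈ O} ∈ τ.N` (`preimage_mul`).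
`exists_val_of_subring`: `R` open and bounded is not a field: for `y ∈ R`, `y ≠ 0` with `y⁻¹ ∈ R`, `1 = y⁻¹ y`; by boundedness of `R` there is `W ∈ N` with `1 ∉ R·W` (`Bdd.mul_mem`, `sep 1`); take `y ∈ R ∩ W`, `y ≠ 0`: `y⁻¹ ∉ R`.
So `y` generates a proper ideal of `R`; Mathlib `Ideal.image_subset_nonunits_valuationSubring` gives a valuation ring `O ⊇ R` with `y ∈ O.nonunits`, so `O ≠ ⊤`; `O ∈ N` (superset of `R`), bounded by `bdd_of_mem`.
`valTop_eq_of_le`: `O₂ ⊇ O₁` is open in `valTop O₁`, use `bdd_of_mem`, `eq_valTop`.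
`sup_ne_top`: both rings are bounded for the common topology, so the set of products `O₁·O₂` is bounded (`Bdd.mul`), hence `≠ E` (`not_bdd_univ`); it is a valuation ring containing both: closed under addition:
`a b + a' b'` with (wlog) `a' = a r`, `r ∈ O₁`: `= a (b + r b')`; if `b' = b t`, `t ∈ O₂`... in each case one gets `a b (t + r)` or `a b(1 + r t)`, with `r ∈ O₁`, `t ∈ O₂`; and `t + r`: if `r/t ∈ O₁`: `t (1 + r/t)`; if `t/r ∈ O₁` then `t ∈ O₁`; if `t/r`.. (similarly `1 + r t`,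
a product of something in `O₁·O₂` again by the same case distinction: for `w = r t` either `w ∈ O₁`: `1 + w ∈ O₁`, or `w⁻¹ ∈ O₁`: `1 + w = w (w⁻¹ + 1)`, `w = r t`). The general fact: for `u, v ∈ O₁·O₂`, `u + v = u (1 + v/u)` or `v (1 + u/v)` with `v/u ∈ O₁` or `u/v ∈ O₁`. That is all.
`mem_iff_pb`: `O` rank one: `x ∈ O` → powers in `O`, bounded. `x ∉ O`: `x⁻¹` nonunit; if the powers of `x` are bounded, `c x^n ∈ O` for all `n`, `c ≠ 0`; rank one: `(x⁻¹)^n / (c t) ∈ O`, for `t ∈ 𝔪`, `t ≠ 0` gives `1/t = (c x^n) ((x⁻¹)^n /(c t)) ∈ O`, contradiction.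
-/

set_option autoImplicit false

namespace Pool.Agent.Helper59.EC
namespace FTop

variable {E : Type} [Field E] {τ : FTop E}

theorem valTop_open {O : ValuationSubring E} (hO : O ≠ ⊤) : (O : Set E) ∈ (valTop O hO).N :=
  ⟨1, one_ne_zero, fun x hx => by rw [one_mul]; exact hx⟩

theorem valTop_bdd {O : ValuationSubring E} (hO : O ≠ ⊤) : (valTop O hO).Bdd (O : Set E) :=
  fun _ hU => hU

theorem valTop_isV {O : ValuationSubring E} (hO : O ≠ ⊤) : (valTop O hO).IsV := by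
  rintro U ⟨c, hc, h⟩
  refine ⟨{a | ∃ x ∈ O, a = c ^ 2 * x}, ⟨c ^ 2, pow_ne_zero 2 hc, fun x hx => ⟨x, hx, rfl⟩⟩, ?_⟩
  rintro x y ⟨o, ho, hxy⟩
  by_contra hcon
  push Not at hcon
  obtain ⟨hx, hy⟩ := hcon
  have h1 : ∀ w, w ∉ U → c⁻¹ * w ∉ O := by
    intro w hw hwO
    apply hw
    have := h _ hwO
    rwa [← mul_assoc, mul_inv_cancel₀ hc, one_mul] at this
  have hy1 : (c⁻¹ * y)⁻¹ ∈ O := (O.mem_or_inv_mem _).resolve_left (h1 y hy)
  have hy0 : y ≠ 0 := by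
    rintro rfl
    exact h1 0 hy (by simp)
  apply h1 x hx
  have h2 : c⁻¹ * x = o * (c⁻¹ * y)⁻¹ := by
    have h3 : c⁻¹ * y ≠ 0 := mul_ne_zero (inv_ne_zero hc) hy0
    rw [eq_mul_inv_iff_mul_eq₀ h3]
    calc c⁻¹ * x * (c⁻¹ * y) = (c⁻¹) ^ 2 * (x * y) := by ring
      _ = (c⁻¹) ^ 2 * (c ^ 2 * o) := by rw [hxy]
      _ = o := by field_simp
  rw [h2]
  exact O.mul_mem _ _ ho hy1

/-- a proper valuation ring misses an element -/
private theorem exists_notMem {O : ValuationSubring E} (hO : O ≠ ⊤) : ∃ t : E, t ∉ O := by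
  by_contra hcon
  push Not at hcon
  exact hO (le_antisymm (ValuationSubring.le_top _) fun t _ => hcon t)

theorem bdd_of_mem (hV : τ.IsV) {O : ValuationSubring E} (hO : O ≠ ⊤) (h : (O : Set E) ∈ τ.N) :
    τ.Bdd (O : Set E) := by
  obtain ⟨c, hc⟩ := exists_notMem hO
  have hc0 : c ≠ 0 := by rintro rfl; exact hc O.zero_mem
  intro U hU
  obtain ⟨d, hd, hd2⟩ := bdd_far hV h U hU
  refine ⟨d * c⁻¹, mul_ne_zero hd (inv_ne_zero hc0), fun x hx => ?_⟩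
  rw [mul_assoc]
  apply hd2
  rcases eq_or_ne x 0 with rfl | hx0
  · left; simp
  · right
    intro hmem
    apply hc
    have h1 : c = (c⁻¹ * x)⁻¹ * x := by
      rw [mul_inv, inv_inv, mul_assoc, inv_mul_cancel₀ hx0, mul_one]
    rw [h1]
    exact O.mul_mem _ _ hmem hx

theorem eq_valTop {O : ValuationSubring E} (hO : O ≠ ⊤) (h : (O : Set E) ∈ τ.N)
    (hb : τ.Bdd (O : Set E)) : τ = valTop O hO := by
  apply FTop.ext
  ext U
  constructor
  · intro hU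
    exact hb U hU
  · rintro ⟨c, hc, hcU⟩
    refine Filter.mem_of_superset (preimage_mul h c⁻¹) fun a ha => ?_
    have := hcU _ ha
    rwa [← mul_assoc, mul_inv_cancel₀ hc, one_mul] at this

theorem exists_val_of_subring (hV : τ.IsV) (R : Subring E) (h : (R : Set E) ∈ τ.N)
    (hb : τ.Bdd (R : Set E)) :
    ∃ O : ValuationSubring E, O ≠ ⊤ ∧ (O : Set E) ∈ τ.N ∧ τ.Bdd (O : Set E) := by
  obtain ⟨U, hU, h1U⟩ := τ.sep 1 one_ne_zero
  obtain ⟨W, hW, hRW⟩ := hb.mul_mem hU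
  obtain ⟨y, ⟨hyR, hyW⟩, hy0⟩ := τ.nd _ (Filter.inter_mem h hW)
  have hyinv : y⁻¹ ∉ R := by
    intro hmem
    have := hRW _ hmem _ hyW
    rw [inv_mul_cancel₀ hy0] at this
    exact h1U this
  have hI : Ideal.span {(⟨y, hyR⟩ : R)} ≠ ⊤ := by
    intro htop
    rw [Ideal.span_singleton_eq_top] at htop
    obtain ⟨v, hv⟩ := htop.exists_right_inv
    apply hyinv
    have h2 : y * (v : E) = 1 := by
      have := congrArg (Subtype.val) hv
      simpa using this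
    rw [inv_eq_of_mul_eq_one_right h2]
    exact v.2
  obtain ⟨O, hRO, hIO⟩ := Ideal.image_subset_nonunits_valuationSubring _ hI
  have hyO : y ∈ O.nonunits := hIO ⟨⟨y, hyR⟩, Ideal.subset_span rfl, rfl⟩
  have hyO2 : y⁻¹ ∉ O := (O.mem_nonunits_iff_or.1 hyO).resolve_left hy0
  have hOt : O ≠ ⊤ := by
    rintro rfl
    exact hyO2 (ValuationSubring.mem_top _)
  have hON : (O : Set E) ∈ τ.N := Filter.mem_of_superset h fun r hr => hRO hr
  exact ⟨O, hOt, hON, bdd_of_mem hV hOt hON⟩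

theorem valTop_eq_of_le {O₁ O₂ : ValuationSubring E} (h₁ : O₁ ≠ ⊤) (h₂ : O₂ ≠ ⊤) (hle : O₁ ≤ O₂) :
    valTop O₁ h₁ = valTop O₂ h₂ := by
  have h : (O₂ : Set E) ∈ (valTop O₁ h₁).N :=
    Filter.mem_of_superset (valTop_open h₁) fun x hx => hle hx
  exact eq_valTop h₂ h (bdd_of_mem (valTop_isV h₁) h₂ h)

/-- the compositum of two valuation rings -/
private def prodRing (O₁ O₂ : ValuationSubring E) : ValuationSubring E where
  carrier := {x | ∃ a ∈ (O₁ : Set E), ∃ b ∈ (O₂ : Set E), x = a * b}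
  mul_mem' := by
    rintro _ _ ⟨a, ha, b, hb, rfl⟩ ⟨a', ha', b', hb', rfl⟩
    exact ⟨a * a', O₁.mul_mem _ _ ha ha', b * b', O₂.mul_mem _ _ hb hb', by ring⟩
  one_mem' := ⟨1, O₁.one_mem, 1, O₂.one_mem, by ring⟩
  add_mem' := by
    have key : ∀ u v : E, (∃ a ∈ (O₁ : Set E), ∃ b ∈ (O₂ : Set E), u = a * b) → u ≠ 0 →
        v / u ∈ O₁ → ∃ a ∈ (O₁ : Set E), ∃ b ∈ (O₂ : Set E), u + v = a * b := by
      rintro u v ⟨a, ha, b, hb, rfl⟩ hu hvu
      have ha0 : a ≠ 0 := left_ne_zero_of_mul hu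
      have hb0 : b ≠ 0 := right_ne_zero_of_mul hu
      refine ⟨a * (1 + v / (a * b)), O₁.mul_mem _ _ ha (O₁.add_mem _ _ O₁.one_mem hvu), b, hb, ?_⟩
      field_simp
    intro u v hu hv
    rcases eq_or_ne u 0 with rfl | hu0
    · rw [zero_add]; exact hv
    rcases eq_or_ne v 0 with rfl | hv0
    · rw [add_zero]; exact hu
    rcases O₁.mem_or_inv_mem (v / u) with h | h
    · exact key u v hu hu0 h
    · rw [inv_div] at h
      show ∃ a ∈ (O₁ : Set E), ∃ b ∈ (O₂ : Set E), u + v = a * b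
      rw [add_comm]
      exact key v u hv hv0 h
  zero_mem' := ⟨0, O₁.zero_mem, 0, O₂.zero_mem, by ring⟩
  neg_mem' := by
    rintro _ ⟨a, ha, b, hb, rfl⟩
    exact ⟨-a, O₁.neg_mem _ ha, b, hb, by ring⟩
  mem_or_inv_mem' := by
    intro x
    rcases O₁.mem_or_inv_mem x with h | h
    · exact Or.inl ⟨x, h, 1, O₂.one_mem, by ring⟩
    · exact Or.inr ⟨x⁻¹, h, 1, O₂.one_mem, by ring⟩

theorem sup_ne_top {O₁ O₂ : ValuationSubring E} (h₁ : O₁ ≠ ⊤) (h₂ : O₂ ≠ ⊤)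
    (h : valTop O₁ h₁ = valTop O₂ h₂) : ∃ O : ValuationSubring E, O ≠ ⊤ ∧ O₁ ≤ O ∧ O₂ ≤ O := by
  have hb1 : (valTop O₁ h₁).Bdd (O₁ : Set E) := valTop_bdd h₁
  have hb2 : (valTop O₁ h₁).Bdd (O₂ : Set E) := by
    rw [h]; exact valTop_bdd h₂
  have hb := hb1.mul hb2
  refine ⟨prodRing O₁ O₂, ?_, ?_, ?_⟩
  · intro htop
    refine not_bdd_univ (hb.mono fun x _ => ?_)
    have : x ∈ prodRing O₁ O₂ := by rw [htop]; exact ValuationSubring.mem_top _
    exact this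
  · intro x hx
    exact ⟨x, hx, 1, O₂.one_mem, by ring⟩
  · intro x hx
    exact ⟨1, O₁.one_mem, x, hx, by ring⟩

theorem mem_iff_pb {O : ValuationSubring E} (hO : RankOne O) (x : E) :
    x ∈ O ↔ (valTop O hO.1).PB x := by
  constructor
  · intro hx
    refine (valTop_bdd hO.1).mono ?_
    rintro _ ⟨n, rfl⟩
    exact pow_mem hx n
  · intro hpb
    by_contra hx
    have hx0 : x ≠ 0 := by rintro rfl; exact hx O.zero_mem
    have hxn : x⁻¹ ∈ O.nonunits := O.inv_mem_nonunits_iff.2 (Or.inr hx)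
    obtain ⟨c, hc, hcx⟩ := hpb _ (valTop_open hO.1)
    obtain ⟨n, hn⟩ := hO.2 x⁻¹ hxn (c * x⁻¹) (mul_ne_zero hc (inv_ne_zero hx0))
    apply hx
    have h1 : x = (c * x ^ n) * ((x⁻¹) ^ n / (c * x⁻¹)) := by
      have : (x ^ n : E) ≠ 0 := pow_ne_zero n hx0
      rw [inv_pow]
      field_simp
    rw [h1]
    exact O.mul_mem _ _ (hcx _ ⟨n, rfl⟩) hn

end FTop
end Pool.Agent.Helper59.EC
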