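import Pool.Agent.Helper59.EC.C4
import Pool.Agent.Helper59.EC.C5

/-!
# Block EC-C7: V-topologies in which the integers are unbounded

Proof: helper65.

PROOF of `tn_inv_nat`. Let `m ≥ 2`. Suppose not (`m ≠ 0` and `m⁻¹` TN): by `tn_inv_of_not_pb` `m` is power bounded. CLAIM: every natural number `n` is power bounded. Otherwise `n ≠ 0` and `s = n⁻¹` is TN. Ball `U`, `U + U ⊆ dU`. The set
`D = {c m^i | c < m, i ∈ ℕ}` is bounded (finite set times powers of `m`), so `D ⊆ g U`, `g ≠ 0`. Choose `ρ` with `n < m^(2^ρ)`. For `j = 2^k`: `n^j < m^(2^(ρ+k))`, so `n^j` is a sum of `2^(ρ+k)` elements of `D` (digits in base `m`), so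
`n^j = d^(ρ+k) g c`, `c ∈ U`: `1 = s^(2^k) d^k (d^ρ g c)`; `exp_small` (`S = d^ρ g U`, `m = 0`, `W ∌ 1`): contradiction. So all integers are power bounded (`PB.neg`).
If there is a TN `t ≠ 0` then `{PB}` is bounded (`bdd_pb`), so `ℤ` is bounded, contradiction. If not, every element is PB (`tn_inv_of_not_pb`), `exists_subring_of_pb`: `ℤ ⊆ R` bounded, contradiction.
PROOF of `not_tn_rat`. `1 ≤ b ≤ a`, suppose `s₁ = a/b` TN. `a = b`: `1` is not TN (`sep 1`). `b = 1 < a`: `a` TN and `a⁻¹` TN (`tn_inv_nat`), so `1 = a^n a^{-n}` (`TN.mul`, `TN.pb`): contradiction. `2 ≤ b < a`: `s₂ = 1/b` is TN. `b^j < a^j`, digits in base `a`: `b^j = Σ_{i<j} c_i a^i`,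
`c_i < a`, so `1 = Σ_{i<j} c_i s₁^i s₂^(j-i)`. Take `j = 2^(k+1)`; for `i ≥ 2^k` the term is `s₁^(2^k)` times `c_i s₁^(i-2^k) s₂^(j-i)`, for `i < 2^k` it is `s₂^(2^k)` times an element of the bounded set `D = {c s₁^u s₂^w | c < a}` (finite set times powers times powers), `D ⊆ gU`:
`1 = s₁^(2^k) d^k g c₁ + s₂^(2^k) d^k g c₂` (`sum_mem_ball`); both summands are small by `exp_small`: contradiction with `sep 1` (`add`).
`far_rat`: `{TN} ∈ N` by `tn_mem` (`t = 1/2`), apply `not_tn_rat`.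
-/

set_option autoImplicit false

namespace Pool.Agent.Helper59.EC
namespace FTop

variable {E : Type} [Field E] {τ : FTop E}

/-- digits in base `m`. -/
theorem exists_digits (m : ℕ) (hm : 0 < m) : ∀ (J n : ℕ), n < m ^ J →
    ∃ c : ℕ → ℕ, (∀ i, c i < m) ∧ n = ∑ i ∈ Finset.range J, c i * m ^ i := by
  intro J
  induction J with
  | zero =>
    intro n hn
    refine ⟨fun _ => 0, fun _ => hm, ?_⟩
    rw [pow_zero] at hn
    simp only [Finset.range_zero, Finset.sum_empty]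
    omega
  | succ J ih =>
    intro n hn
    have h1 : n / m < m ^ J := by
      rw [Nat.div_lt_iff_lt_mul hm, ← pow_succ]
      exact hn
    obtain ⟨c, hc, hs⟩ := ih (n / m) h1
    refine ⟨fun i => Nat.casesOn i (n % m) c, fun i => ?_, ?_⟩
    · cases i with
      | zero => exact Nat.mod_lt _ hm
      | succ i => exact hc i
    · rw [Finset.sum_range_succ']
      have e : ∑ k ∈ Finset.range J, c k * m ^ (k + 1) = m * (n / m) := by
        conv_rhs => rw [hs]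
        rw [Finset.mul_sum]
        refine Finset.sum_congr rfl fun k _ => ?_
        ring
      change n = ∑ k ∈ Finset.range J, c k * m ^ (k + 1) + n % m * m ^ 0
      rw [e, pow_zero, mul_one]
      exact (Nat.div_add_mod n m).symm

theorem not_tn_one : ¬ τ.TN (1 : E) := by
  intro h
  obtain ⟨U, hU, h1⟩ := τ.sep 1 one_ne_zero
  obtain ⟨n, hn⟩ := h U hU
  have := hn n le_rfl
  rw [one_pow] at this
  exact h1 this

theorem tn_inv_nat (hV : τ.IsV) (hZ : ¬ τ.Bdd (Set.range fun n : ℤ => (n : E))) (m : ℕ)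
    (hm : 2 ≤ m) : (m : E) ≠ 0 ∧ τ.TN ((m : E)⁻¹) := by
  by_contra hcon
  have hpb : τ.PB (m : E) := by
    by_contra h
    exact hcon (tn_inv_of_not_pb hV h)
  -- all natural numbers are power bounded
  have hnat : ∀ n : ℕ, τ.PB (n : E) := by
    intro n
    by_contra hn
    obtain ⟨hn0, hs⟩ := tn_inv_of_not_pb hV hn
    obtain ⟨U, hU, hUb, -, -, d, hd0, hd⟩ := exists_ball hV
    have h0 := τ.zero_mem U hU
    obtain ⟨W, hW, h1W⟩ := τ.sep 1 one_ne_zero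
    have hD : τ.Bdd {x : E | ∃ a ∈ ((fun c : ℕ => (c : E)) '' (Set.Iio m)),
        ∃ b ∈ Set.range (fun i : ℕ => (m : E) ^ i), x = a * b} :=
      Bdd.mul (bdd_finite ((Set.finite_Iio m).image _)) hpb
    obtain ⟨c, hc0, hc⟩ := hD U hU
    have hS : τ.Bdd ((fun x => (c⁻¹ * d ^ n) * x) '' U) := hUb.image_mul _
    obtain ⟨k, hk⟩ := exp_small hV d hs hS 0 hW
    have hlt : n ^ (2 ^ k) < m ^ (2 ^ (n + k)) := by
      have h1 : n < m ^ (2 ^ n) := by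
        calc n < m ^ n := Nat.lt_pow_self (by omega)
          _ ≤ m ^ (2 ^ n) := Nat.pow_le_pow_right (by omega) Nat.lt_two_pow_self.le
      calc n ^ (2 ^ k) < (m ^ (2 ^ n)) ^ (2 ^ k) := Nat.pow_lt_pow_left h1 (by positivity)
        _ = m ^ (2 ^ (n + k)) := by rw [← pow_mul, pow_add]
    obtain ⟨δ, hδ, hsum⟩ := exists_digits m (by omega) _ _ hlt
    obtain ⟨u, hu, hsu⟩ := sum_mem_ball (d := d) h0 hd (n + k) (2 ^ (n + k)) le_rfl
      (fun i => c * ((δ i : E) * (m : E) ^ i)) (fun i _ => hc _ ⟨_, ⟨δ i, hδ i, rfl⟩, _, ⟨i, rfl⟩, rfl⟩)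
    have e1 : (n : E) ^ (2 ^ k) = c⁻¹ * (d ^ (n + k) * u) := by
      rw [← hsu, ← Finset.mul_sum, ← mul_assoc, inv_mul_cancel₀ hc0, one_mul]
      have := congrArg (fun t : ℕ => (t : E)) hsum
      push_cast at this
      exact this
    have h2 := hk k le_rfl _ ⟨u, hu, rfl⟩
    apply h1W
    have e2 : ((n : E)⁻¹) ^ (2 ^ k - 0) * d ^ k * ((c⁻¹ * d ^ n) * u) = 1 := by
      rw [Nat.sub_zero]
      calc ((n : E)⁻¹) ^ (2 ^ k) * d ^ k * ((c⁻¹ * d ^ n) * u)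
          = ((n : E)⁻¹) ^ (2 ^ k) * (c⁻¹ * (d ^ (n + k) * u)) := by rw [pow_add]; ring
        _ = ((n : E)⁻¹) ^ (2 ^ k) * (n : E) ^ (2 ^ k) := by rw [e1]
        _ = 1 := by rw [← mul_pow, inv_mul_cancel₀ hn0, one_pow]
    rwa [e2] at h2
  have hint : ∀ z : ℤ, τ.PB (z : E) := by
    intro z
    obtain ⟨n, rfl | rfl⟩ := z.eq_nat_or_neg
    · rw [Int.cast_natCast]
      exact hnat n
    · rw [Int.cast_neg, Int.cast_natCast]
      exact (hnat n).neg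
  apply hZ
  by_cases ht : ∃ t : E, t ≠ 0 ∧ τ.TN t
  · obtain ⟨t, ht0, ht⟩ := ht
    refine (bdd_pb hV ht0 ht).mono ?_
    rintro _ ⟨z, rfl⟩
    exact hint z
  · have hall : ∀ x : E, τ.PB x := by
      intro x
      by_contra hx
      obtain ⟨hx0, hx1⟩ := tn_inv_of_not_pb hV hx
      exact ht ⟨x⁻¹, inv_ne_zero hx0, hx1⟩
    obtain ⟨R, -, hR⟩ := exists_subring_of_pb hV hall
    refine hR.mono ?_
    rintro _ ⟨z, rfl⟩
    exact intCast_mem R z

theorem not_tn_rat (hV : τ.IsV) (hZ : ¬ τ.Bdd (Set.range fun n : ℤ => (n : E))) (a b : ℕ)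
    (hb : 1 ≤ b) (hab : b ≤ a) : ¬ τ.TN ((a : E) / b) := by
  intro hs1
  have hne : ∀ n : ℕ, 1 ≤ n → (n : E) ≠ 0 := by
    intro n hn
    rcases Nat.lt_or_ge n 2 with h | h
    · have : n = 1 := by omega
      rw [this, Nat.cast_one]
      exact one_ne_zero
    · exact (tn_inv_nat hV hZ n h).1
  have hb0 := hne b hb
  have ha0 := hne a (by omega)
  rcases eq_or_lt_of_le hab with h | hlt
  · rw [h, div_self ha0] at hs1
    exact not_tn_one hs1
  rcases Nat.lt_or_ge b 2 with h | hb2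
  · have hb1 : b = 1 := by omega
    rw [hb1, Nat.cast_one, div_one] at hs1
    have h2 := (tn_inv_nat hV hZ a (by omega)).2
    refine not_pb_of_tn_inv (x := (a : E)⁻¹) (inv_ne_zero ha0) ?_ (TN.pb hV h2)
    rwa [inv_inv]
  have hs2 := (tn_inv_nat hV hZ b hb2).2
  obtain ⟨U, hU, hUb, -, -, d, hd0, hd⟩ := exists_ball hV
  have h0 := τ.zero_mem U hU
  obtain ⟨V, hVN, h1V⟩ := τ.sep 1 one_ne_zero
  obtain ⟨W, hW, hWW⟩ := add hVN
  set s1 : E := (a : E) / b with hs1d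
  set s2 : E := (b : E)⁻¹ with hs2d
  have hD : τ.Bdd {x : E | ∃ x1 ∈ {y : E | ∃ a' ∈ ((fun c : ℕ => (c : E)) '' (Set.Iio a)),
        ∃ b' ∈ Set.range (fun i : ℕ => s1 ^ i), y = a' * b'},
        ∃ b' ∈ Set.range (fun i : ℕ => s2 ^ i), x = x1 * b'} :=
      Bdd.mul (Bdd.mul (bdd_finite ((Set.finite_Iio a).image _)) (TN.pb hV hs1)) (TN.pb hV hs2)
  obtain ⟨c, hc0, hc⟩ := hD U hU
  have hS : τ.Bdd ((fun x => c⁻¹ * x) '' U) := hUb.image_mul _
  obtain ⟨k1, hk1⟩ := exp_small hV d hs1 hS 0 hW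
  obtain ⟨k2, hk2⟩ := exp_small hV d hs2 hS 0 hW
  set k := max k1 k2 with hk
  have hlt' : b ^ (2 ^ k + 2 ^ k) < a ^ (2 ^ k + 2 ^ k) :=
    Nat.pow_lt_pow_left hlt (by positivity)
  obtain ⟨δ, hδ, hsum⟩ := exists_digits a (by omega) _ _ hlt'
  obtain ⟨u1, hu1, hsu1⟩ := sum_mem_ball (d := d) h0 hd k (2 ^ k) le_rfl
    (fun i => c * ((δ (2 ^ k + i) : E) * s1 ^ i * s2 ^ (2 ^ k - i)))
    (fun i _ => hc _ ⟨_, ⟨_, ⟨δ (2 ^ k + i), hδ _, rfl⟩, _, ⟨i, rfl⟩, rfl⟩, _, ⟨2 ^ k - i, rfl⟩, rfl⟩)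
  obtain ⟨u2, hu2, hsu2⟩ := sum_mem_ball (d := d) h0 hd k (2 ^ k) le_rfl
    (fun i => c * ((δ i : E) * s1 ^ i * s2 ^ (2 ^ k - i)))
    (fun i _ => hc _ ⟨_, ⟨_, ⟨δ i, hδ _, rfl⟩, _, ⟨i, rfl⟩, rfl⟩, _, ⟨2 ^ k - i, rfl⟩, rfl⟩)
  have hs12 : s1 = a * s2 := by rw [hs1d, hs2d, div_eq_mul_inv]
  have hbs : (b : E) * s2 = 1 := mul_inv_cancel₀ hb0
  -- the digit identity
  have e0 : (1 : E) = ∑ i ∈ Finset.range (2 ^ k + 2 ^ k),
      (δ i : E) * s1 ^ i * s2 ^ (2 ^ k + 2 ^ k - i) := by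
    have h1 : ((b : E) * s2) ^ (2 ^ k + 2 ^ k) = 1 := by rw [hbs, one_pow]
    rw [← h1, mul_pow]
    have h2 := congrArg (fun t : ℕ => (t : E)) hsum
    push_cast at h2
    rw [h2, Finset.sum_mul]
    refine Finset.sum_congr rfl fun i hi => ?_
    have hi' := Finset.mem_range.mp hi
    have h3 : s2 ^ (2 ^ k + 2 ^ k) = s2 ^ i * s2 ^ (2 ^ k + 2 ^ k - i) := by
      rw [← pow_add]
      congr 1
      omega
    rw [h3, hs12, mul_pow]
    ring
  have e1 : ∑ i ∈ Finset.range (2 ^ k), (δ i : E) * s1 ^ i * s2 ^ (2 ^ k + 2 ^ k - i) =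
      s2 ^ (2 ^ k - 0) * d ^ k * (c⁻¹ * u2) := by
    calc ∑ i ∈ Finset.range (2 ^ k), (δ i : E) * s1 ^ i * s2 ^ (2 ^ k + 2 ^ k - i)
        = s2 ^ (2 ^ k) * c⁻¹ * ∑ i ∈ Finset.range (2 ^ k),
            c * ((δ i : E) * s1 ^ i * s2 ^ (2 ^ k - i)) := by
          rw [Finset.mul_sum]
          refine Finset.sum_congr rfl fun i hi => ?_
          have hi' := Finset.mem_range.mp hi
          have h3 : s2 ^ (2 ^ k + 2 ^ k - i) = s2 ^ (2 ^ k) * s2 ^ (2 ^ k - i) := by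
            rw [← pow_add]
            congr 1
            omega
          rw [h3]
          field_simp
      _ = s2 ^ (2 ^ k - 0) * d ^ k * (c⁻¹ * u2) := by
          rw [hsu2, Nat.sub_zero]
          ring
  have e2 : ∑ i ∈ Finset.range (2 ^ k), (δ (2 ^ k + i) : E) * s1 ^ (2 ^ k + i) *
        s2 ^ (2 ^ k + 2 ^ k - (2 ^ k + i)) =
      s1 ^ (2 ^ k - 0) * d ^ k * (c⁻¹ * u1) := by
    calc ∑ i ∈ Finset.range (2 ^ k), (δ (2 ^ k + i) : E) * s1 ^ (2 ^ k + i) *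
          s2 ^ (2 ^ k + 2 ^ k - (2 ^ k + i))
        = s1 ^ (2 ^ k) * c⁻¹ * ∑ i ∈ Finset.range (2 ^ k),
            c * ((δ (2 ^ k + i) : E) * s1 ^ i * s2 ^ (2 ^ k - i)) := by
          rw [Finset.mul_sum]
          refine Finset.sum_congr rfl fun i hi => ?_
          have hi' := Finset.mem_range.mp hi
          have h3 : 2 ^ k + 2 ^ k - (2 ^ k + i) = 2 ^ k - i := by omega
          rw [h3, pow_add]
          field_simp
      _ = s1 ^ (2 ^ k - 0) * d ^ k * (c⁻¹ * u1) := by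
          rw [hsu1, Nat.sub_zero]
          ring
  apply h1V
  rw [e0, Finset.sum_range_add, e1, e2]
  exact hWW _ (hk2 k (le_max_right _ _) _ ⟨u2, hu2, rfl⟩) _ (hk1 k (le_max_left _ _) _ ⟨u1, hu1, rfl⟩)

theorem far_rat (hV : τ.IsV) (hZ : ¬ τ.Bdd (Set.range fun n : ℤ => (n : E))) :
    ∃ U ∈ τ.N, ∀ a b : ℕ, 1 ≤ b → b ≤ a → (a : E) / b ∉ U := by
  obtain ⟨h0, h1⟩ := tn_inv_nat hV hZ 2 le_rfl
  exact ⟨_, tn_mem hV (inv_ne_zero h0) h1, fun a b hb hab h => not_tn_rat hV hZ a b hb hab h⟩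

end FTop
end Pool.Agent.Helper59.EC
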