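import Pool.Agent.Helper59.EC.C4
import Pool.Agent.Helper59.EC.C5
import Pool.Agent.Helper59.EC.C6

/-!
# Block EC-C8: classification of V-topologies with an open subgroup, integers bounded

Proof: helper7.

PROOF. Step 1: there is `O ≠ ⊤` with `τ = valTop O`: if there is a TN element `t ≠ 0`: `exists_rankOne`, `eq_valTop`; otherwise all elements are PB (`tn_inv_of_not_pb`), `exists_subring_of_pb`, `exists_val_of_subring`, `eq_valTop`.
Step 2 (`tame_of_unit`): if `p ∉ 𝔪_O` (so `p` is a unit of `O`) then (T) holds, for another `O' ⊇ O`: `K₀ ⊇ 1 + c O`, `c ∈ 𝔪_O`, `c ≠ 0` (shrink). `O' := {x | ∀ n, c x^n ∈ O}` is a valuation ring: for `x, y ∈ O'` one of `x/y, y/x ∈ O`, so `x + y = x (1 + y/x)`, `(x+y)^n c = (c x^n)(1+y/x)^n`;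
products: `x y`: (`x/y ∈ O`) `c (x y)^n = (x/y)^n c y^(2n)`. `O ⊆ O'`, `c⁻² ∉ O'`, so `O' ≠ ⊤` and `valTop O' = valTop O` (`valTop_eq_of_le`). If `a` is a nonunit of `O'`, `a ≠ 0`, then `a⁻¹ ∉ O'`, so there is `n` with `c a^{-n} ∉ O`, so `a^n ∈ c O`, and `a ∈ O` (otherwise `a⁻¹ ∈ O ⊆ O'`). CLAIM: `a ∈ O`, `a^n ∈ c O`, `a` nonunit in `O` ⟹ `1 + a ∈ K₀`:
`(1 + a/p)^p = 1 + a + a² r` with `r ∈ O` (all the binomial coefficients `(p choose i) p^{-i}` are in `O` as `p` is a unit of `O`), so `1 + a = (1 + a/p)^p (1 + a')`, `a' ∈ a² O` (`(1 + a/p)^p` is a unit of `O`); iterate: `1 + a ∈ K₀ (1 + a'')`, `a'' ∈ a^(2^k) O ⊆ c O`.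
(`1 + a/p ≠ 0` etc. because `a` is a nonunit of the local ring `O`). `p` is a unit of `O'` as well.
Step 3: `p ∈ 𝔪_O`. If `p` is TN: `exists_rankOne` with `t = p`: `O₁` rank one, `τ = valTop O₁`, `p⁻¹ ∉ O₁` (`not_pb_of_tn_inv`), so `p ∈ O₁.nonunits`: (W). If `p` is not TN: there is `c ≠ 0` with `p^n ∉ c O` for all `n` (if `p^n ∈ cO` for one `n` then for all larger ones; if it happens for every `c` then `p` is TN in `valTop O`).
`O' := {x | ∃ n, p^n x ∈ O}` is a valuation ring `⊇ O`, `c⁻¹ ∉ O'`, so `O' ≠ ⊤`, `valTop O' = valTop O`, `p` unit in `O'`. Step 2 for `O'`.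
-/

set_option autoImplicit false

namespace Pool.Agent.Helper59.EC
namespace FTop

variable {E : Type} [Field E] {τ : FTop E}

theorem exists_val (hV : τ.IsV) (hZ : τ.Bdd (Set.range fun n : ℤ => (n : E))) :
    ∃ (O : ValuationSubring E) (hO : O ≠ ⊤), τ = valTop O hO := by
  by_cases h : ∃ t : E, t ≠ 0 ∧ τ.TN t
  · obtain ⟨t, ht, hn⟩ := h
    obtain ⟨O, -, h1, h2, h3⟩ := exists_rankOne hV ht hn hZ
    exact ⟨O, h1.1, eq_valTop h1.1 h2 h3⟩
  · have hpb : ∀ x : E, τ.PB x := by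
      intro x
      by_contra hx
      obtain ⟨h1, h2⟩ := tn_inv_of_not_pb hV hx
      exact h ⟨x⁻¹, inv_ne_zero h1, h2⟩
    obtain ⟨R, h1, h2⟩ := exists_subring_of_pb hV hpb
    obtain ⟨O, hO, h3, h4⟩ := exists_val_of_subring hV R h1 h2
    exact ⟨O, hO, eq_valTop hO h3 h4⟩

private theorem c8_nonunits_iff {O : ValuationSubring E} {x : E} (hx : x ≠ 0) :
    x ∈ O.nonunits ↔ x⁻¹ ∉ O := by
  rw [ValuationSubring.mem_nonunits_iff, ← ValuationSubring.valuation_le_one_iff, map_inv₀]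
  have hv : O.valuation x ≠ 0 := (Valuation.ne_zero_iff _).2 hx
  rw [inv_le_one₀ (zero_lt_iff.2 hv), not_le]

private theorem c8_mem_of_nonunits {O : ValuationSubring E} {x : E} (hx : x ∈ O.nonunits) : x ∈ O := by
  rw [ValuationSubring.mem_nonunits_iff] at hx
  rw [← ValuationSubring.valuation_le_one_iff]
  exact hx.le

private theorem c8_one_add {O : ValuationSubring E} {b : E} (hb : b ∈ O.nonunits) :
    1 + b ≠ 0 ∧ (1 + b)⁻¹ ∈ O := by
  rw [ValuationSubring.mem_nonunits_iff] at hb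
  have h := Valuation.map_one_add_of_lt (v := O.valuation) hb
  refine ⟨?_, ?_⟩
  · rw [← Valuation.ne_zero_iff O.valuation, h]
    exact one_ne_zero
  · rw [← ValuationSubring.valuation_le_one_iff, map_inv₀, h, inv_one]

private theorem c8_mul_nonunits {O : ValuationSubring E} {a b : E} (ha : a ∈ O.nonunits)
    (hb : b ∈ O) : a * b ∈ O.nonunits := by
  rw [ValuationSubring.mem_nonunits_iff] at ha ⊢
  rw [← ValuationSubring.valuation_le_one_iff] at hb
  rw [map_mul]
  exact mul_lt_one_of_lt_of_le ha hb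

private theorem c8_binom {O : ValuationSubring E} {b : E} (hb : b ∈ O) (n : ℕ) :
    ∃ r ∈ O, (1 + b) ^ n = 1 + n * b + b ^ 2 * r := by
  induction n with
  | zero => exact ⟨0, O.zero_mem, by simp⟩
  | succ n ih =>
    obtain ⟨r, hr, h⟩ := ih
    refine ⟨n + r + b * r, O.add_mem _ _ (O.add_mem _ _ (natCast_mem O n) hr) (O.mul_mem _ _ hb hr), ?_⟩
    rw [pow_succ, h]
    push_cast
    ring

private theorem c8_claim {O : ValuationSubring E} {p : ℕ} (hp0 : (p : E) ≠ 0)
    (hpi : (p : E)⁻¹ ∈ O) {K₀ : Subgroup Eˣ} (hK : ∀ x : Eˣ, x ^ p ∈ K₀) {c : E} (hc : c ≠ 0)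
    (hcK : ∀ x ∈ O, ∃ k ∈ K₀, (k : E) = 1 + c * x) (j : ℕ) :
    ∀ a ∈ O.nonunits, a ^ (2 ^ j) / c ∈ O → ∃ k ∈ K₀, (k : E) = 1 + a := by
  induction j with
  | zero =>
    intro a _ h
    obtain ⟨k, hk, h1⟩ := hcK _ h
    refine ⟨k, hk, ?_⟩
    rw [h1]
    simp only [pow_zero, pow_one]
    field_simp
  | succ j ih =>
    intro a ha h
    have haO : a ∈ O := c8_mem_of_nonunits ha
    set b : E := a * (p : E)⁻¹ with hb
    have hbn : b ∈ O.nonunits := c8_mul_nonunits ha hpi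
    obtain ⟨hb1, hb2⟩ := c8_one_add hbn
    obtain ⟨r, hr, hr2⟩ := c8_binom (c8_mem_of_nonunits hbn) p
    have hpb : (p : E) * b = a := by rw [hb]; field_simp
    rw [hpb] at hr2
    set s : E := - (r * (p : E)⁻¹ * (p : E)⁻¹ * ((1 + b)⁻¹) ^ p) with hs
    have hsO : s ∈ O := by
      rw [hs]
      exact O.neg_mem _ (O.mul_mem _ _ (O.mul_mem _ _ (O.mul_mem _ _ hr hpi) hpi) (pow_mem hb2 p))
    have key : 1 + a = (1 + b) ^ p * (1 + a * (a * s)) := by
      have h1 : (1 + b) ^ p * ((1 + b)⁻¹) ^ p = 1 := by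
        rw [← mul_pow, mul_inv_cancel₀ hb1, one_pow]
      have h2 : (1 + b) ^ p * (a * (a * s)) = - (b ^ 2 * r) := by
        have h3 : (1 + b) ^ p * (a * (a * s)) =
            - (((1 + b) ^ p * ((1 + b)⁻¹) ^ p) * ((a * (p : E)⁻¹) ^ 2 * r)) := by
          rw [hs]; ring
        rw [h3, h1, one_mul]
      rw [mul_add, mul_one, h2, hr2]
      ring
    have ha' : a * (a * s) ∈ O.nonunits := c8_mul_nonunits ha (O.mul_mem _ _ haO hsO)
    have hpow : (a * (a * s)) ^ (2 ^ j) / c ∈ O := by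
      have : (a * (a * s)) ^ (2 ^ j) / c = a ^ (2 ^ (j + 1)) / c * s ^ (2 ^ j) := by
        rw [pow_succ 2 j, ← mul_assoc, mul_pow, ← sq, ← pow_mul, mul_comm (2 ^ j) 2]
        ring
      rw [this]
      exact O.mul_mem _ _ h (pow_mem hsO _)
    obtain ⟨k, hk, hk1⟩ := ih _ ha' hpow
    refine ⟨(Units.mk0 (1 + b) hb1) ^ p * k, K₀.mul_mem (hK _) hk, ?_⟩
    rw [key, Units.val_mul, Units.val_pow_eq_pow_val, Units.val_mk0, hk1]

theorem tame_of_unit {O : ValuationSubring E} (hO : O ≠ ⊤) {p : ℕ} (hp : p.Prime)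
    (hpO : (p : E) ∉ O.nonunits) {K₀ : Subgroup Eˣ} (hK : ∀ x : Eˣ, x ^ p ∈ K₀)
    (hopen : (valTop O hO).OpenSub K₀) :
    ∃ (O' : ValuationSubring E) (hO' : O' ≠ ⊤), valTop O hO = valTop O' hO' ∧ O ≤ O' ∧
      (p : E) ∉ O'.nonunits ∧ ∀ x ∈ O'.nonunits, ∃ k ∈ K₀, (k : E) = 1 + x := by
  have _ := hp
  have hp0 : (p : E) ≠ 0 := by
    intro h0
    apply hpO
    rw [h0, ValuationSubring.mem_nonunits_iff, map_zero]
    exact zero_lt_one
  have hpi : (p : E)⁻¹ ∈ O := by
    by_contra h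
    exact hpO ((c8_nonunits_iff hp0).2 h)
  -- a nonzero nonunit
  obtain ⟨t, ht0, htn⟩ : ∃ t : E, t ≠ 0 ∧ t ∈ O.nonunits := by
    obtain ⟨t, ht⟩ : ∃ t : E, t ∉ O := by
      by_contra hcon
      push Not at hcon
      exact hO (le_antisymm (ValuationSubring.le_top _) fun t _ => hcon t)
    have ht0 : t ≠ 0 := by rintro rfl; exact ht O.zero_mem
    refine ⟨t⁻¹, inv_ne_zero ht0, (c8_nonunits_iff (inv_ne_zero ht0)).2 ?_⟩
    rwa [inv_inv]
  obtain ⟨U, hU, hUK⟩ := hopen
  obtain ⟨c, hc0, hcn, hcU⟩ : ∃ c : E, c ≠ 0 ∧ c ∈ O.nonunits ∧ ∀ x ∈ O, c * x ∈ U := by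
    obtain ⟨c, hc, h⟩ := hU
    rcases O.mem_or_inv_mem c with h1 | h1
    · refine ⟨t * c, mul_ne_zero ht0 hc, c8_mul_nonunits htn h1, fun x hx => ?_⟩
      have : t * c * x = c * (t * x) := by ring
      rw [this]
      exact h _ (O.mul_mem _ _ (c8_mem_of_nonunits htn) hx)
    · refine ⟨t, ht0, htn, fun x hx => ?_⟩
      have : t * x = c * (c⁻¹ * t * x) := by field_simp
      rw [this]
      exact h _ (O.mul_mem _ _ (O.mul_mem _ _ h1 (c8_mem_of_nonunits htn)) hx)
  have hcO : c ∈ O := c8_mem_of_nonunits hcn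
  have hcK : ∀ x ∈ O, ∃ k ∈ K₀, (k : E) = 1 + c * x := fun x hx => hUK _ (hcU x hx)
  -- the bigger ring
  have hcomp : ∀ x y : E, x ≠ 0 → y ≠ 0 → y / x ∈ O ∨ x / y ∈ O := by
    intro x y _ _
    rcases O.mem_or_inv_mem (y / x) with h | h
    · exact Or.inl h
    · right
      rwa [inv_div] at h
  let O' : ValuationSubring E :=
    { carrier := {x | ∀ n : ℕ, c * x ^ n ∈ O}
      mul_mem' := by
        intro x y hx hy n
        by_cases hx0 : x = 0
        · subst hx0
          rw [zero_mul]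
          exact hx n
        by_cases hy0 : y = 0
        · subst hy0
          rw [mul_zero]
          exact hy n
        rcases hcomp x y hx0 hy0 with h | h
        · have : c * (x * y) ^ n = (y / x) ^ n * (c * x ^ (2 * n)) := by
            rw [pow_mul x 2 n, ← mul_assoc, mul_comm ((y / x) ^ n) c, mul_assoc, ← mul_pow]
            congr 2
            field_simp
          rw [this]
          exact O.mul_mem _ _ (pow_mem h n) (hx _)
        · have : c * (x * y) ^ n = (x / y) ^ n * (c * y ^ (2 * n)) := by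
            rw [pow_mul y 2 n, ← mul_assoc, mul_comm ((x / y) ^ n) c, mul_assoc, ← mul_pow]
            congr 2
            field_simp
          rw [this]
          exact O.mul_mem _ _ (pow_mem h n) (hy _)
      one_mem' := by
        intro n
        rw [one_pow, mul_one]
        exact hcO
      add_mem' := by
        intro x y hx hy n
        by_cases hx0 : x = 0
        · subst hx0
          rw [zero_add]
          exact hy n
        by_cases hy0 : y = 0
        · subst hy0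
          rw [add_zero]
          exact hx n
        rcases hcomp x y hx0 hy0 with h | h
        · have : c * (x + y) ^ n = (c * x ^ n) * (1 + y / x) ^ n := by
            rw [mul_assoc, ← mul_pow]
            congr 2
            field_simp
          rw [this]
          exact O.mul_mem _ _ (hx n) (pow_mem (O.add_mem _ _ O.one_mem h) n)
        · have : c * (x + y) ^ n = (c * y ^ n) * (1 + x / y) ^ n := by
            rw [mul_assoc, ← mul_pow]
            congr 2
            field_simp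
            ring
          rw [this]
          exact O.mul_mem _ _ (hy n) (pow_mem (O.add_mem _ _ O.one_mem h) n)
      zero_mem' := by
        intro n
        exact O.mul_mem _ _ hcO (pow_mem O.zero_mem n)
      neg_mem' := by
        intro x hx n
        rw [neg_pow, mul_left_comm]
        exact O.mul_mem _ _ (pow_mem (O.neg_mem _ O.one_mem) n) (hx n)
      mem_or_inv_mem' := by
        intro x
        rcases O.mem_or_inv_mem x with h | h
        · exact Or.inl fun n => O.mul_mem _ _ hcO (pow_mem h n)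
        · exact Or.inr fun n => O.mul_mem _ _ hcO (pow_mem h n) }
  have hmem : ∀ x : E, x ∈ O' ↔ ∀ n : ℕ, c * x ^ n ∈ O := fun x => Iff.rfl
  have hle : O ≤ O' := fun x h n => O.mul_mem _ _ hcO (pow_mem h n)
  have hO' : O' ≠ ⊤ := by
    intro h
    have h1 : (c⁻¹) ^ 2 ∈ O' := by rw [h]; trivial
    have h2 := (hmem _).1 h1 1
    rw [pow_one] at h2
    have h3 : c * (c⁻¹) ^ 2 = c⁻¹ := by field_simp
    rw [h3] at h2
    exact (c8_nonunits_iff hc0).1 hcn h2
  refine ⟨O', hO', valTop_eq_of_le hO hO' hle, hle, ?_, ?_⟩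
  · intro h
    exact (c8_nonunits_iff hp0).1 h (hle hpi)
  · intro x hx
    by_cases hx0 : x = 0
    · exact ⟨1, K₀.one_mem, by simp [hx0]⟩
    have h1 : x⁻¹ ∉ O' := (c8_nonunits_iff hx0).1 hx
    have h2 : x⁻¹ ∉ O := fun h => h1 (hle h)
    have h3 : x ∈ O.nonunits := (c8_nonunits_iff hx0).2 h2
    rw [hmem] at h1
    push Not at h1
    obtain ⟨n, hn⟩ := h1
    have h4 : x ^ n / c ∈ O := by
      rcases O.mem_or_inv_mem (c * x⁻¹ ^ n) with h | h
      · exact absurd h hn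
      · have : (c * x⁻¹ ^ n)⁻¹ = x ^ n / c := by
          rw [inv_pow, mul_inv, inv_inv]
          ring
        rwa [this] at h
    obtain ⟨j, hj⟩ : ∃ j : ℕ, n ≤ 2 ^ j := ⟨n, Nat.lt_two_pow_self.le⟩
    refine c8_claim hp0 hpi hK hc0 hcK j x h3 ?_
    have : x ^ (2 ^ j) / c = x ^ n / c * x ^ (2 ^ j - n) := by
      rw [div_mul_eq_mul_div, ← pow_add, Nat.add_sub_cancel' hj]
    rw [this]
    exact O.mul_mem _ _ h4 (pow_mem (c8_mem_of_nonunits h3) _)

theorem classify_na (hV : τ.IsV) {p : ℕ} (hp : p.Prime) (hpE : (p : E) ≠ 0) {K₀ : Subgroup Eˣ}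
    (hK : ∀ x : Eˣ, x ^ p ∈ K₀) (hopen : τ.OpenSub K₀)
    (hZ : τ.Bdd (Set.range fun n : ℤ => (n : E))) :
    (∃ (O : ValuationSubring E) (hO : O ≠ ⊤), τ = valTop O hO ∧ (p : E) ∉ O.nonunits ∧
      ∀ x ∈ O.nonunits, ∃ k ∈ K₀, (k : E) = 1 + x) ∨
    (∃ (O : ValuationSubring E) (hO : O ≠ ⊤), τ = valTop O hO ∧ (p : E) ∈ O.nonunits ∧
      RankOne O) := by
  obtain ⟨O, hO, rfl⟩ := exists_val hV hZ
  by_cases hpO : (p : E) ∈ O.nonunits
  swap
  · obtain ⟨O', hO', h1, -, h2, h3⟩ := tame_of_unit hO hp hpO hK hopen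
    exact Or.inl ⟨O', hO', h1, h2, h3⟩
  by_cases hTN : (valTop O hO).TN (p : E)
  · right
    obtain ⟨O₁, h0, h1, h2, h3⟩ := exists_rankOne hV hpE hTN hZ
    refine ⟨O₁, h1.1, eq_valTop h1.1 h2 h3, (c8_nonunits_iff hpE).2 ?_, h1⟩
    rw [h0]
    exact not_pb_of_tn_inv (inv_ne_zero hpE) (by rwa [inv_inv])
  · left
    have hpO' : (p : E) ∈ O := c8_mem_of_nonunits hpO
    obtain ⟨c, hc, hcn⟩ : ∃ c : E, c ≠ 0 ∧ ∀ n : ℕ, (p : E) ^ n / c ∉ O := by
      by_contra hcon
      push Not at hcon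
      apply hTN
      rintro U ⟨c, hc, h⟩
      obtain ⟨n, hn⟩ := hcon c hc
      refine ⟨n, fun m hm => ?_⟩
      have : (p : E) ^ m = c * ((p : E) ^ n / c * (p : E) ^ (m - n)) := by
        rw [div_mul_eq_mul_div, ← pow_add, Nat.add_sub_cancel' hm]
        field_simp
      rw [this]
      exact h _ (O.mul_mem _ _ hn (pow_mem hpO' _))
    let O' : ValuationSubring E :=
      { carrier := {x | ∃ n : ℕ, (p : E) ^ n * x ∈ O}
        mul_mem' := by
          rintro x y ⟨n, hn⟩ ⟨m, hm⟩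
          refine ⟨n + m, ?_⟩
          have : (p : E) ^ (n + m) * (x * y) = ((p : E) ^ n * x) * ((p : E) ^ m * y) := by ring
          rw [this]
          exact O.mul_mem _ _ hn hm
        one_mem' := ⟨0, by simp⟩
        add_mem' := by
          rintro x y ⟨n, hn⟩ ⟨m, hm⟩
          refine ⟨n + m, ?_⟩
          have : (p : E) ^ (n + m) * (x + y) =
              (p : E) ^ m * ((p : E) ^ n * x) + (p : E) ^ n * ((p : E) ^ m * y) := by ring
          rw [this]
          exact O.add_mem _ _ (O.mul_mem _ _ (pow_mem hpO' _) hn) (O.mul_mem _ _ (pow_mem hpO' _) hm)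
        zero_mem' := ⟨0, by simp⟩
        neg_mem' := by
          rintro x ⟨n, hn⟩
          refine ⟨n, ?_⟩
          rw [mul_neg]
          exact O.neg_mem _ hn
        mem_or_inv_mem' := by
          intro x
          rcases O.mem_or_inv_mem x with h | h
          · exact Or.inl ⟨0, by simpa using h⟩
          · exact Or.inr ⟨0, by simpa using h⟩ }
    have hmem : ∀ x : E, x ∈ O' ↔ ∃ n : ℕ, (p : E) ^ n * x ∈ O := fun x => Iff.rfl
    have hle : O ≤ O' := fun x h => ⟨0, by simpa using h⟩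
    have hO' : O' ≠ ⊤ := by
      intro h
      have h1 : c⁻¹ ∈ O' := by rw [h]; trivial
      obtain ⟨n, hn⟩ := (hmem _).1 h1
      exact hcn n (by rwa [div_eq_mul_inv])
    have heq := valTop_eq_of_le hO hO' hle
    have hp' : (p : E) ∉ O'.nonunits := by
      intro h
      apply (c8_nonunits_iff hpE).1 h
      rw [hmem]
      exact ⟨1, by rw [pow_one, mul_inv_cancel₀ hpE]; exact O.one_mem⟩
    rw [heq] at hopen
    obtain ⟨O'', hO'', h1, -, h2, h3⟩ := tame_of_unit hO' hp hp' hK hopen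
    exact ⟨O'', hO'', heq.trans h1, h2, h3⟩

end FTop
end Pool.Agent.Helper59.EC
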