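import Pool.Agent.Helper59.EC.C7

/-!
# Block EC-C9: classification of V-topologies with an open proper subgroup, integers unbounded

PROOF. `E` has characteristic 0 and `1/m` is TN for `m ≥ 2` (`tn_inv_nat`). `K₀ ⊇ 1 + U₁`, `U₁ ∈ N`.
(1) If `U₀ ∈ N` and `x + q ∉ U₀` for all rational `q = a/b ≥ 0` (`a b : ℕ`, `b ≠ 0`), then `x ∈ K₀`: the elements `(x+q)⁻¹` lie in `far U₀` (bounded), so there is `k` such that with `M = 2^k`: `(1/M)(x+q)⁻¹ ∈ U₁` for all `q ≥ 0` (`Bdd.mul_mem` and `TN (1/2)`). So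
`(x + q + 1/M)/(x + q) = 1 + (1/M)(x+q)⁻¹ ∈ K₀`; by induction `(x + n)/x ∈ K₀` for all `n ∈ ℕ` (steps of size `1/M`). For `n = 2^(p l)`, `l` large, `x/n = x (1/2)^(p l) ∈ U₁`, so `x + n = n (1 + x/n) ∈ K₀` (`n` is a p-th power). So `x ∈ K₀`. (`x + q ≠ 0` as `0 ∈ U₀`.)
(2) positive rationals `q₀ = a/b` are in `K₀`: `q₀ + q = q₀ (1 + q/q₀)` and `1 + q/q₀` is a rational `≥ 1`; `far_rat` + `preimage_mul` gives `U₀`.
(3) if `-y` is not in `QCl` (`y ≠ 0`) then `y ∈ K₀` (by (1): `U` with `-y - q ∉ U` for all `q`, `U₀ = -U`, `neg`).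
(4) `y ≠ 0` in `QCl`: `y ∈ K₀`: choose `q = a/b ≥ 0` with `y - q = u`, `-u/y ∈ U₁ ∩ {far from -1}`: `q = y(1 - u/y) ≠ 0`, `q ∈ K₀` by (2), `1 - u/y ∈ K₀`.
(5) `K₀ ≠ ⊤`: choose `y ∉ K₀`; by (3) `-y ∈ QCl`, by (4) `-y ∈ K₀`, so `-1 ∉ K₀`. As `(-1)^p ∈ K₀`, `p = 2`. If `z ∈ K₀` and `z ∉ QCl` then by (3) (`y = -z`) `-z ∈ K₀`, `-1 ∈ K₀`, contradiction. So `K₀ = QCl ∖ 0`; and for every `x`: `x ∈ K₀` or (`x ∉ QCl`, so) `-x ∈ K₀`.
(6) `x, y ∈ K₀ = QCl∖0`: `x + y ∈ QCl` (`add`), `x + y ≠ 0` (otherwise `-1 ∈ K₀`). (7) `n = 4^k`: `n + x = n(1 + x/n)`, `x/n ∈ U₁` for `k` large, `n` is a square.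
-/

set_option autoImplicit false

namespace Pool.Agent.Helper59.EC
namespace FTop

variable {E : Type} [Field E] {τ : FTop E}

/-- membership in the closure of the nonnegative rationals. -/
def QCl (τ : FTop E) (x : E) : Prop := ∀ U ∈ τ.N, ∃ a b : ℕ, b ≠ 0 ∧ x - (a : E) / b ∈ U

namespace CNine

/-- membership of an element of `E` in the subgroup `K₀`. -/
def G (K₀ : Subgroup Eˣ) (x : E) : Prop := ∃ k ∈ K₀, (k : E) = x

variable {K₀ : Subgroup Eˣ}

lemma G_ne {x : E} (h : G K₀ x) : x ≠ 0 := by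
  obtain ⟨k, _, rfl⟩ := h
  exact k.ne_zero

lemma G_mul {x y : E} (h : G K₀ x) (h' : G K₀ y) : G K₀ (x * y) := by
  obtain ⟨k, hk, rfl⟩ := h
  obtain ⟨l, hl, rfl⟩ := h'
  exact ⟨k * l, K₀.mul_mem hk hl, by simp⟩

lemma G_inv {x : E} (h : G K₀ x) : G K₀ x⁻¹ := by
  obtain ⟨k, hk, rfl⟩ := h
  exact ⟨k⁻¹, K₀.inv_mem hk, by simp⟩

lemma G_one : G K₀ (1 : E) := ⟨1, K₀.one_mem, by simp⟩

lemma G_pow {p : ℕ} (hK : ∀ x : Eˣ, x ^ p ∈ K₀) {x : E} (hx : x ≠ 0) : G K₀ (x ^ p) :=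
  ⟨Units.mk0 x hx ^ p, hK _, by simp⟩

lemma G_unit {x : Eˣ} : G K₀ (x : E) ↔ x ∈ K₀ := by
  constructor
  · rintro ⟨k, hk, h⟩
    rwa [← Units.ext h]
  · intro h
    exact ⟨x, h, rfl⟩

lemma step_aux {x q t : E} (hq : x + q ≠ 0) :
    (x + q) / x * (1 + (x + q)⁻¹ * t) = (x + q + t) / x := by
  have : (x + q) / x * (1 + (x + q)⁻¹ * t) = ((x + q) + (x + q) * (x + q)⁻¹ * t) / x := by
    ring
  rw [this, mul_inv_cancel₀ hq, one_mul]

lemma path (hV : τ.IsV) {p : ℕ} (hp : p.Prime)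
    (hK : ∀ x : Eˣ, x ^ p ∈ K₀) {U₁ : Set E} (hU₁ : U₁ ∈ τ.N) (h1 : ∀ u ∈ U₁, G K₀ (1 + u))
    (h20 : (2 : E) ≠ 0) (h2 : τ.TN (2 : E)⁻¹) {U₀ : Set E} (hU₀ : U₀ ∈ τ.N) {x : E}
    (hx : ∀ a b : ℕ, b ≠ 0 → x + (a : E) / b ∉ U₀) : G K₀ x := by
  have hne : ∀ a b : ℕ, b ≠ 0 → x + (a : E) / b ≠ 0 := by
    intro a b hb h
    apply hx a b hb
    rw [h]
    exact τ.zero_mem _ hU₀
  have hx0 : x ≠ 0 := by
    have := hne 0 1 one_ne_zero
    simpa using this
  obtain ⟨W, hW, hWm⟩ := (bdd_far hV hU₀).mul_mem hU₁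
  obtain ⟨k, hk⟩ := h2 W hW
  have hk' := hk k le_rfl
  have hstep : ∀ i : ℕ, G K₀ ((x + (i : E) / (2 ^ k : ℕ)) / x) := by
    intro i
    induction i with
    | zero =>
      have : (x + ((0 : ℕ) : E) / (2 ^ k : ℕ)) / x = 1 := by
        rw [Nat.cast_zero, zero_div, add_zero, div_self hx0]
      rw [this]
      exact G_one
    | succ i ih =>
      have hn := hne i (2 ^ k) (by positivity)
      have hf : (x + (i : E) / (2 ^ k : ℕ))⁻¹ ∈ far U₀ := by
        right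
        rw [inv_inv]
        exact hx i (2 ^ k) (by positivity)
      have h3 := h1 _ (hWm _ hf _ hk')
      have h4 := G_mul ih h3
      rw [step_aux hn] at h4
      convert h4 using 2
      have h5 : ((2 : E)) ^ k ≠ 0 := pow_ne_zero _ h20
      rw [inv_pow]
      push_cast
      field_simp
      ring
  -- `x + n` for natural `n`
  have hnat : ∀ n : ℕ, G K₀ ((x + n) / x) := by
    intro n
    have := hstep (n * 2 ^ k)
    convert this using 2
    have h5 : ((2 : E)) ^ k ≠ 0 := pow_ne_zero _ h20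
    push_cast
    field_simp
  obtain ⟨l₀, hl₀⟩ := h2 _ (preimage_mul hU₁ x)
  have hpl : l₀ ≤ p * l₀ := Nat.le_mul_of_pos_left _ hp.pos
  have h6 := h1 _ (hl₀ (p * l₀) hpl)
  have h7 : G K₀ (((2 : E) ^ l₀) ^ p) := G_pow hK (pow_ne_zero _ h20)
  have h8 := G_mul h7 h6
  have h9 : G K₀ (x + ((2 ^ (p * l₀) : ℕ) : E)) := by
    convert h8 using 1
    have h5 : ((2 : E)) ^ (p * l₀) ≠ 0 := pow_ne_zero _ h20
    rw [inv_pow, ← pow_mul, mul_comm l₀ p]
    push_cast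
    field_simp
    ring
  have h10 := G_mul h9 (G_inv (hnat (2 ^ (p * l₀))))
  convert h10 using 1
  have := G_ne h9
  field_simp

end CNine

open CNine in
theorem classify_arch (hV : τ.IsV) {p : ℕ} (hp : p.Prime) {K₀ : Subgroup Eˣ}
    (hK : ∀ x : Eˣ, x ^ p ∈ K₀) (hopen : τ.OpenSub K₀) (hne : K₀ ≠ ⊤)
    (hZ : ¬ τ.Bdd (Set.range fun n : ℤ => (n : E))) :
    p = 2 ∧ (-1 : Eˣ) ∉ K₀ ∧ (∀ x : Eˣ, x ∈ K₀ ↔ τ.QCl (x : E)) ∧ (∀ x : Eˣ, x ∈ K₀ ∨ -x ∈ K₀) ∧
      (∀ x ∈ K₀, ∀ y ∈ K₀, ∃ z ∈ K₀, (z : E) = x + y) ∧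
      (∀ x : E, ∃ n : ℕ, ∃ z ∈ K₀, (z : E) = n + x) := by
  obtain ⟨U₁, hU₁, h1⟩ := hopen
  have h1' : ∀ u ∈ U₁, G K₀ (1 + u) := h1
  have hcast : ∀ n : ℕ, n ≠ 0 → (n : E) ≠ 0 := by
    intro n hn
    rcases Nat.lt_or_ge n 2 with h | h
    · have : n = 1 := by omega
      rw [this, Nat.cast_one]
      exact one_ne_zero
    · exact (tn_inv_nat hV hZ n h).1
  have h20 : (2 : E) ≠ 0 := by
    have := hcast 2 two_ne_zero
    exact_mod_cast this
  have h2 : τ.TN (2 : E)⁻¹ := by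
    have := (tn_inv_nat hV hZ 2 le_rfl).2
    exact_mod_cast this
  -- (2) positive rationals
  have hrat : ∀ a b : ℕ, a ≠ 0 → b ≠ 0 → G K₀ ((a : E) / b) := by
    intro a b ha hb
    obtain ⟨U, hU, hfar⟩ := far_rat hV hZ
    have ha' := hcast a ha
    have hb' := hcast b hb
    refine path hV hp hK hU₁ h1' h20 h2 (preimage_mul hU ((a : E) / b)⁻¹) (x := (a : E) / b) ?_
    intro c d hd hmem
    have hd' := hcast d hd
    have := hfar (a * d + c * b) (a * d) (Nat.one_le_iff_ne_zero.2 (mul_ne_zero ha hd))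
      (Nat.le_add_right _ _)
    apply this
    have e : ((a : E) / b)⁻¹ * ((a : E) / b + (c : E) / d) =
        ((a * d + c * b : ℕ) : E) / ((a * d : ℕ) : E) := by
      push_cast
      field_simp
    rw [← e]
    exact hmem
  -- (3)
  have h3 : ∀ y : E, ¬ τ.QCl (-y) → G K₀ y := by
    intro y hy
    unfold QCl at hy
    push Not at hy
    obtain ⟨U, hU, hy⟩ := hy
    refine path hV hp hK hU₁ h1' h20 h2 (preimage_mul hU (-1)) (x := y) ?_
    intro a b hb hmem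
    apply hy a b hb
    have e : -y - (a : E) / b = -1 * (y + (a : E) / b) := by ring
    rw [e]
    exact hmem
  -- (4)
  have h4 : ∀ y : E, y ≠ 0 → τ.QCl y → G K₀ y := by
    intro y hy0 hy
    obtain ⟨W₂, hW₂, hyW₂⟩ := τ.sep y hy0
    obtain ⟨a, b, hb, hab⟩ := hy _ (Filter.inter_mem (preimage_mul hU₁ (-y⁻¹)) hW₂)
    have hb' := hcast b hb
    have ha : a ≠ 0 := by
      rintro rfl
      apply hyW₂
      have := hab.2
      simpa using this
    have h5 := h1' _ hab.1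
    have h6 := G_mul (hrat a b ha hb) (G_inv h5)
    convert h6 using 1
    have ha' := hcast a ha
    have h7 : 1 + -y⁻¹ * (y - (a : E) / b) = (a : E) / b * y⁻¹ := by
      field_simp
      ring
    rw [h7]
    field_simp
  -- (5)
  obtain ⟨y, hy⟩ : ∃ y : Eˣ, y ∉ K₀ := by
    by_contra hcon
    push Not at hcon
    exact hne (eq_top_iff.2 fun y _ => hcon y)
  have hyG : ¬ G K₀ (y : E) := fun h => hy (G_unit.1 h)
  have hyQ : τ.QCl (-(y : E)) := by
    by_contra hcon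
    exact hyG (h3 _ hcon)
  have hyG' : G K₀ (-(y : E)) := h4 _ (neg_ne_zero.2 y.ne_zero) hyQ
  have hm1G : ¬ G K₀ (-1 : E) := by
    intro h
    apply hyG
    have := G_mul h hyG'
    simpa using this
  have hm1 : (-1 : Eˣ) ∉ K₀ := by
    intro h
    apply hm1G
    have := (G_unit (K₀ := K₀) (x := (-1 : Eˣ))).2 h
    simpa using this
  have hp2 : p = 2 := by
    rcases hp.eq_two_or_odd' with h | h
    · exact h
    · exfalso
      apply hm1
      have := hK (-1)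
      rwa [h.neg_one_pow] at this
  have hiff : ∀ x : Eˣ, x ∈ K₀ ↔ τ.QCl (x : E) := by
    intro x
    constructor
    · intro hx
      by_contra hcon
      apply hm1G
      have h5 : G K₀ (-(x : E)) := h3 _ (by rwa [neg_neg])
      have h6 := G_mul h5 (G_inv (G_unit.2 hx))
      convert h6 using 1
      have := x.ne_zero
      field_simp
    · intro hx
      exact G_unit.1 (h4 _ x.ne_zero hx)
  refine ⟨hp2, hm1, hiff, ?_, ?_, ?_⟩
  · intro x
    by_cases hx : τ.QCl (x : E)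
    · exact Or.inl ((hiff x).2 hx)
    · right
      have := h3 (-(x : E)) (by rwa [neg_neg])
      apply (G_unit (K₀ := K₀) (x := -x)).1
      simpa using this
  · intro x hx z hz
    have hx' := (hiff x).1 hx
    have hz' := (hiff z).1 hz
    have hsum : τ.QCl ((x : E) + z) := by
      intro U hU
      obtain ⟨W, hW, hadd⟩ := FTop.add hU
      obtain ⟨a, b, hb, hab⟩ := hx' W hW
      obtain ⟨c, d, hd, hcd⟩ := hz' W hW
      refine ⟨a * d + c * b, b * d, mul_ne_zero hb hd, ?_⟩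
      have hb' := hcast b hb
      have hd' := hcast d hd
      have := hadd _ hab _ hcd
      convert this using 1
      push_cast
      field_simp
      ring
    have hne0 : (x : E) + z ≠ 0 := by
      intro h
      apply hm1G
      have h5 : (z : E) = -(x : E) := by linear_combination h
      have h6 := G_mul (G_unit.2 hz) (G_inv (G_unit.2 hx))
      convert h6 using 1
      have := x.ne_zero
      rw [h5]
      field_simp
    exact h4 _ hne0 hsum
  · intro x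
    obtain ⟨l₀, hl₀⟩ := h2 _ (preimage_mul hU₁ x)
    have h6 := h1' _ (hl₀ (2 * l₀) (by omega))
    have h7 : G K₀ (((2 : E) ^ l₀) ^ p) := G_pow hK (pow_ne_zero _ h20)
    have h8 := G_mul h7 h6
    refine ⟨2 ^ (2 * l₀), ?_⟩
    have h9 : G K₀ (((2 ^ (2 * l₀) : ℕ) : E) + x) := by
      convert h8 using 1
      have h5 : ((2 : E)) ^ (2 * l₀) ≠ 0 := pow_ne_zero _ h20
      rw [inv_pow, ← pow_mul, mul_comm l₀ p, hp2]
      push_cast
      field_simp
    exact h9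

end FTop
end Pool.Agent.Helper59.EC
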